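import Pool.Agent.Run7.h365.TD.Str
import Pool.Agent.H916K.MainFour

/-!
# The structure of the relations of level `2 ^ a * q ^ b`
-/

set_option autoImplicit false
set_option linter.unusedSectionVars false

namespace Run7.h365.TD

open Finset Pool.Agent.H916K Pool.Agent.H916R2

section four

variable {q : ℕ} [hq : Fact q.Prime] {x : ZMod 4 → ZMod q → ℤ}

/-- the character modulo four -/
def chi4 (u : ZMod 4) : ℤ := if u = 1 then 1 else if u = 3 then -1 else 0

theorem chi4_mul (u v : ZMod 4) : chi4 (u * v) = chi4 u * chi4 v := by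
  revert u v; decide

theorem chi4_unit {M : ℕ} (h4 : 4 ∣ M) (hqM : q.Coprime M) :
    chi4 (q : ZMod 4) = 1 ∨ chi4 (q : ZMod 4) = -1 := by
  have hq2 : q ≠ 2 := by
    rintro rfl
    have h1 : 2 ∣ M := (by norm_num : 2 ∣ 4).trans h4
    have h2 := Nat.Coprime.eq_one_of_dvd hqM h1
    omega
  rcases q_mod4 hq2 with h | h
  · left; rw [h]; rfl
  · right; rw [h]; rfl

theorem PH_chi4 {f : ℕ} (hf : (q : ZMod 4) ^ f = 1)
    (hε : chi4 (q : ZMod 4) = 1 ∨ chi4 (q : ZMod 4) = -1) (u : ZMod 4) :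
    PH q f chi4 u = (∑ j ∈ range f, (chi4 (q : ZMod 4) * q) ^ j) * chi4 u := by
  have hpow : ∀ i : ℕ, chi4 ((q : ZMod 4) ^ i) = chi4 (q : ZMod 4) ^ i := by
    intro i
    induction i with
    | zero => rw [pow_zero, pow_zero]; rfl
    | succ i ih => rw [pow_succ, pow_succ, chi4_mul, ih]
  have hεf : chi4 (q : ZMod 4) ^ f = 1 := by
    rw [← hpow, hf]; rfl
  unfold PH
  rw [sum_mul]
  refine sum_congr rfl fun j hj => ?_
  have hj' := mem_range.1 hj
  rw [chi4_mul, hpow, mul_pow]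
  have h1 : chi4 (q : ZMod 4) ^ (f - j) = chi4 (q : ZMod 4) ^ j := by
    have h2 : chi4 (q : ZMod 4) ^ (f - j) * chi4 (q : ZMod 4) ^ j = 1 := by
      rw [← pow_add, Nat.sub_add_cancel hj'.le, hεf]
    have h3 : chi4 (q : ZMod 4) ^ j * chi4 (q : ZMod 4) ^ j = 1 := by
      rw [← mul_pow]
      rcases hε with h | h <;> rw [h] <;> norm_num
    have h4 : chi4 (q : ZMod 4) ^ j ≠ 0 := left_ne_zero_of_mul (a := _) (b := _) (by rw [h3]; norm_num)
    exact mul_right_cancel₀ h4 (h2.trans h3.symm)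
  rw [h1]
  ring

/-- the sum of the row of `1` -/
theorem row_one (hx : Rel4 x) (hq2 : q ≠ 2) :
    2 * ∑ v, y4 x 1 v = (chi4 (q : ZMod 4) * q - 1) * (chi4 (q : ZMod 4) * B4 x) := by
  have h4 : ∑ v ∈ univ.erase (0 : ZMod q), A4 x v = 0 := by
    have h8 : ∑ v ∈ univ.erase (0 : ZMod q), A4 x v = ∑ v ∈ univ.erase (0 : ZMod q), A4 x (-v) :=
      (sum_erase_neg (fun v => A4 x v)).symm
    have h9 : ∑ v ∈ univ.erase (0 : ZMod q), A4 x (-v) = - ∑ v ∈ univ.erase (0 : ZMod q), A4 x v := by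
      rw [← sum_neg_distrib]
      exact sum_congr rfl fun v _ => A4_neg x v
    linarith
  have h5 : 2 * ∑ v, y4 x 1 v = 2 * y4 x 1 0 + ((q : ℤ) - 1) * B4 x := by
    rw [← add_sum_erase _ _ (mem_univ (0 : ZMod q)), mul_add, mul_sum,
      sum_congr rfl fun v hv => first4 hx hq2 (ne_of_mem_erase hv), sum_add_distrib, h4,
      sum_const, card_erase_of_mem (mem_univ _), card_univ, ZMod.card, nsmul_eq_mul,
      Nat.cast_sub (Fact.out : q.Prime).one_lt.le]
    push_cast; ring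
  rw [h5]
  rcases q_mod4 hq2 with h | h
  · rw [(third4 hx hq2).1 h, h]
    have : chi4 1 = 1 := rfl
    rw [this]; ring
  · rw [(third4 hx hq2).2 h, h]
    have : chi4 3 = -1 := rfl
    rw [this]; ring

end four

/-- several units -/
theorem Ar.div2 {d c m : ℕ} {s : Multiset (ZMod m)} (hA : Ar d m s) {M q e : ℕ} (hM : M ∣ m)
    (hq : q.Prime) (hqM : q.Coprime M) (hm : M * q ^ e = m) (he : 0 < e) (hc : c ≠ 0) (hcM : c ∣ M)
    (w w' : (ZMod M)ˣ) (n n' : ℤ) {h : ZMod M → ℤ}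
    (hh : ∀ x, (c : ℤ) * h x = (d : ℤ) * (n * vd (w : ZMod M) x + n' * vd (w' : ZMod M) x)) :
    ((q : ℤ) ^ orderOf (q : ZMod M) - 1) ∣
      (s.map fun a => PH q (orderOf (q : ZMod M)) h (ZMod.castHom hM (ZMod M) a)).sum := by
  have h1 := hA M q e hM hq hqM hm he w
  have h1' := hA M q e hM hq hqM hm he w'
  have h2 : n * ((d : ℤ) * (s.map fun a => PH q (orderOf (q : ZMod M)) (vd (w : ZMod M))
        (ZMod.castHom hM (ZMod M) a)).sum) +
      n' * ((d : ℤ) * (s.map fun a => PH q (orderOf (q : ZMod M)) (vd (w' : ZMod M))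
        (ZMod.castHom hM (ZMod M) a)).sum) =
      (c : ℤ) * (s.map fun a => PH q (orderOf (q : ZMod M)) h (ZMod.castHom hM (ZMod M) a)).sum := by
    rw [← Multiset.sum_map_mul_left, ← Multiset.sum_map_mul_left, ← Multiset.sum_map_mul_left,
      ← Multiset.sum_map_mul_left, ← Multiset.sum_map_mul_left, ← Multiset.sum_map_add]
    congr 1
    refine Multiset.map_congr rfl fun a _ => ?_
    unfold PH
    rw [mul_sum, mul_sum, mul_sum, mul_sum, mul_sum, ← sum_add_distrib]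
    refine sum_congr rfl fun j _ => ?_
    have h3 := hh ((q : ZMod M) ^ (orderOf (q : ZMod M) - j) * ZMod.castHom hM (ZMod M) a)
    linear_combination (-(q : ℤ) ^ j) * h3
  have h3 := dvd_add (h1.mul_left n) (h1'.mul_left n')
  rw [h2] at h3
  obtain ⟨M', hM'⟩ := hcM
  have h4 : (M : ℤ) = (c : ℤ) * (M' : ℤ) := by rw [← Nat.cast_mul, ← hM']
  rw [h4, mul_assoc] at h3
  exact (dvd_mul_left _ _).trans ((mul_dvd_mul_iff_left (by exact_mod_cast hc : (c : ℤ) ≠ 0)).1 h3)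

theorem oddDist_add {M : ℕ} {Q : Type*} [AddCommGroup Q] {c c' : ZMod M → Q} (hc : OddDist c)
    (hc' : OddDist c') : OddDist (fun a => c a + c' a) where
  neg := fun a => by rw [hc.neg, hc'.neg, neg_add]
  half := fun a ha => by rw [hc.half a ha, hc'.half a ha, add_zero]
  dist := fun p d hp hpd a => by
    rw [sum_add_distrib, hc.dist p d hp hpd, hc'.dist p d hp hpd]

/-- the value on a lower level -/
theorem lft_iota_gen {M m M0 k1 q e k m0 : ℕ} [NeZero M] [NeZero M0] [NeZero m0] (hM : M ∣ m)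
    (hk1 : k1 * M0 = M) (hk : k = k1 * q ^ e) (hM0 : M0 ∣ m0) {h : ZMod M → ℤ} {g : ZMod M0 → ℤ}
    {C : ℤ} (hlow : ∀ y : ZMod M0, h (iota k1 y) = C * g y) (f D : ℕ) (b : ZMod m0) :
    lft hM D (PH q f h) (iota k b) =
      ((C * PH q f g ((q : ZMod M0) ^ e * ZMod.castHom hM0 (ZMod M0) b) : ℤ) : ZMod D) := by
  have harg : ZMod.castHom hM (ZMod M) (iota k b) =
      iota k1 ((q : ZMod M0) ^ e * ZMod.castHom hM0 (ZMod M0) b) := by
    have h1 : ZMod.castHom hM (ZMod M) (iota k b) = ((k * b.val : ℕ) : ZMod M) := by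
      unfold iota
      rw [map_natCast]
    have h2 : (q : ZMod M0) ^ e * ZMod.castHom hM0 (ZMod M0) b = ((q ^ e * b.val : ℕ) : ZMod M0) := by
      have h3 : ZMod.castHom hM0 (ZMod M0) b = ((b.val : ℕ) : ZMod M0) := by
        conv_lhs => rw [← ZMod.natCast_zmod_val b]
        rw [map_natCast]
      rw [h3]
      push_cast
      rfl
    rw [h1, h2, iota_natCast hk1, hk]
    congr 1
    ring
  unfold lft
  congr 1
  rw [harg]
  unfold PH
  rw [mul_sum]
  refine sum_congr rfl fun j _ => ?_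
  have h1 : (q : ZMod M) ^ (f - j) * iota k1 ((q : ZMod M0) ^ e * ZMod.castHom hM0 (ZMod M0) b) =
      iota k1 ((q : ZMod M0) ^ (f - j) * ((q : ZMod M0) ^ e * ZMod.castHom hM0 (ZMod M0) b)) := by
    have h2 : (q : ZMod M) ^ (f - j) = ((q ^ (f - j) : ℕ) : ZMod M) := by push_cast; rfl
    have h3 : (q : ZMod M0) ^ (f - j) = ((q ^ (f - j) : ℕ) : ZMod M0) := by push_cast; rfl
    rw [h2, h3, iota_natMul hk1]
  rw [h1, hlow]
  ring

theorem vd_cast {M : ℕ} [NeZero M] (w x : ZMod M) : ((vd w x : ℤ) : ZMod M) = w * x - x := by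
  unfold vd
  push_cast
  rw [ZMod.natCast_zmod_val, ZMod.natCast_zmod_val]

/-- **Structure, degrees `2 ^ a * q ^ b`.** -/
theorem structure_four_ar {q : ℕ} [hq : Fact q.Prime] (hq2 : q ≠ 2) {a b d m : ℕ} (ha : 2 ≤ a)
    (hb : 0 < b) (hm : 2 ^ a * q ^ b = m) {s : Multiset (ZMod m)} (hs : IsHodge m s) (hne : s ≠ 0)
    (hd : ¬ 2 ∣ d) (hA : Ar d m s) : Generated m (fun _ => False) s := by
  classical
  have hm0 : 0 < m := by
    rw [← hm]; have := hq.out.pos; positivity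
  have : NeZero m := ⟨hm0.ne'⟩
  obtain ⟨k, hk, hred⟩ := exists_red_four ha hb hm
  obtain ⟨a', rfl⟩ : ∃ a', a = a' + 2 := ⟨a - 2, by omega⟩
  obtain ⟨b', rfl⟩ : ∃ b', b = b' + 1 := ⟨b - 1, by omega⟩
  obtain ⟨M, hMdef⟩ : ∃ M, M = 2 ^ (a' + 2) := ⟨_, rfl⟩
  have hMm : M * q ^ (b' + 1) = m := by rw [hMdef, ← hm]
  have hM : M ∣ m := Dvd.intro _ hMm
  have hM0 : NeZero M := ⟨by rw [hMdef]; positivity⟩
  have hcop : q.Coprime M := by
    rw [hMdef]
    exact ((Nat.coprime_primes hq.out Nat.prime_two).mpr hq2).pow_right _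
  have hk1 : 2 ^ a' * 4 = M := by rw [hMdef, pow_add]; norm_num
  have h4M : 4 ∣ M := Dvd.intro_left _ hk1
  have hkk : k = 2 ^ a' * q ^ b' := by
    apply Nat.eq_of_mul_eq_mul_right (Nat.mul_pos (by norm_num : 0 < 4) hq.out.pos)
    rw [hk, ← hm, pow_succ, pow_add]; ring
  -- the function
  have h5 : Nat.Coprime 5 M := by
    rw [hMdef]
    exact Nat.Coprime.pow_right _ (by norm_num)
  set w : (ZMod M)ˣ := -1 with hw
  set w' : (ZMod M)ˣ := ZMod.unitOfCoprime 5 h5 with hw'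
  have hw5 : (w' : ZMod M) = 5 := by
    rw [hw', ZMod.coe_unitOfCoprime]; norm_num
  have hw1 : (w : ZMod M) = -1 := by rw [hw]; push_cast; rfl
  have key : ∀ x : ZMod M, (M : ℤ) ∣ 2 * vd (w : ZMod M) x + 1 * vd (w' : ZMod M) x := by
    intro x
    rw [← ZMod.intCast_zmod_eq_zero_iff_dvd]
    push_cast
    rw [vd_cast, vd_cast, hw5, hw1]
    ring
  choose h0 hh0 using key
  set h : ZMod M → ℤ := fun x => (d : ℤ) * h0 x with hhdef
  have hMz : (M : ℤ) ≠ 0 := by exact_mod_cast NeZero.ne M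
  have hh : ∀ x, (M : ℤ) * h x = (d : ℤ) * (2 * vd (w : ZMod M) x + 1 * vd (w' : ZMod M) x) := by
    intro x
    simp only [hhdef]
    rw [hh0 x]; ring
  have hodd : OddDist h := by
    refine oddDist_div hMz ?_ hh
    exact oddDist_smul (oddDist_add (oddDist_smul (oddDist_vd w) 2) (oddDist_smul (oddDist_vd w') 1)) d
  set f := orderOf (q : ZMod M) with hf
  have hπ : OddDist (lft hM (q ^ f - 1) (PH q f h)) := by
    refine oddDist_lft hq.out hcop hMm hM (oddDist_PH hcop hodd) fun x => ?_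
    rw [PH_mul pow_order, cast_D hq.out.pos]
    exact ⟨h ((q : ZMod M) * x), by ring⟩
  obtain ⟨x0, hx0, h1, h2⟩ := red_pair hred (cQ_oddDist (base := fun _ => False)) hπ hs
  rw [sum_pi hM hq.out (hA.div2 hM hq.out hcop hMm (Nat.succ_pos b') (NeZero.ne M) dvd_rfl w w' 2 1 hh)]
    at h2
  -- the values
  have hlow : ∀ y : ZMod 4, h (iota (2 ^ a') y) = (d : ℤ) * chi4 y := by
    intro y
    have hval : ∀ y : ZMod 4, ((iota (2 ^ a') y : ZMod M).val : ℤ) = 2 ^ a' * y.val := by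
      intro y
      unfold iota
      rw [ZMod.val_natCast, Nat.mod_eq_of_lt]
      · push_cast; rfl
      · rw [← hk1]; exact Nat.mul_lt_mul_of_pos_left (ZMod.val_lt y) (by positivity)
    have e1 : (w : ZMod M) * iota (2 ^ a') y = iota (2 ^ a') (3 * y) := by
      have e3 : (w : ZMod M) = ((M - 1 : ℕ) : ZMod M) := by
        rw [hw1, Nat.cast_sub (NeZero.pos M), ZMod.natCast_self]; simp
      have e4 : (3 : ZMod 4) = ((M - 1 : ℕ) : ZMod 4) := by
        rw [Nat.cast_sub (NeZero.pos M), (ZMod.natCast_eq_zero_iff M 4).2 h4M]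
        decide
      rw [e3, e4, iota_natMul hk1]
    have e2 : (w' : ZMod M) * iota (2 ^ a') y = iota (2 ^ a') y := by
      have e3 : (w' : ZMod M) = ((5 : ℕ) : ZMod M) := by rw [hw5]; norm_num
      have e4 : ∀ y : ZMod 4, ((5 : ℕ) : ZMod 4) * y = y := by decide
      rw [e3]
      conv_rhs => rw [← e4 y, iota_natMul hk1]
    apply mul_left_cancel₀ hMz
    rw [hh]
    unfold vd
    rw [e1, e2, hval, hval]
    have e5 : ∀ y : ZMod 4, 2 * (((3 * y).val : ℤ) - y.val) = 4 * chi4 y := by decide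
    have e6 := e5 y
    have e7 : (M : ℤ) = 2 ^ a' * 4 := by rw [← hk1]; push_cast; rfl
    rw [e7]
    linear_combination ((d : ℤ) * 2 ^ a') * e6
  have h4q : 4 ∣ 4 * q := dvd_mul_right 4 q
  have hlft := fun b : ZMod (4 * q) => lft_iota_gen (M := M) (M0 := 4) (q := q) (e := b') (k := k) hM
    hk1 hkk h4q hlow f (q ^ f - 1) b
  have hε := chi4_unit (q := q) h4M hcop
  have hf4 : (q : ZMod 4) ^ f = 1 := pow_order_low h4M
  set ε := chi4 (q : ZMod 4) with hεdef
  set E : ℤ := ∑ j ∈ range f, (ε * q) ^ j with hE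
  have hεf : ε ^ f = 1 := by
    have hpow : ∀ i : ℕ, chi4 ((q : ZMod 4) ^ i) = chi4 (q : ZMod 4) ^ i := by
      intro i
      induction i with
      | zero => rw [pow_zero, pow_zero]; rfl
      | succ i ih => rw [pow_succ, pow_succ, chi4_mul, ih]
    rw [hεdef, ← hpow, hf4]; rfl
  have hDE : (q : ℤ) ^ f - 1 = E * (ε * q - 1) := by
    rw [hE, geom_sum_mul, mul_pow, hεf, one_mul]
  have hD := D_ne (M := M) hq.out hcop
  rw [← hf, hDE] at hD
  have hE0 : E ≠ 0 := left_ne_zero_of_mul hD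
  have hεq : ε * q - 1 ≠ 0 := right_ne_zero_of_mul hD
  set X : ZMod 4 → ZMod q → ℤ := fr hq2 x0 with hX
  have hrel : Rel4 X := rel_four hq2 hx0
  have hpow4 : chi4 ((q : ZMod 4) ^ b') ≠ 0 ∧ (chi4 ((q : ZMod 4) ^ b') = 1 ∨ chi4 ((q : ZMod 4) ^ b') = -1) := by
    have hpow : ∀ i : ℕ, chi4 ((q : ZMod 4) ^ i) = 1 ∨ chi4 ((q : ZMod 4) ^ i) = -1 := by
      intro i
      induction i with
      | zero => left; rw [pow_zero]; rfl
      | succ i ih =>
        rw [pow_succ, chi4_mul]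
        rcases ih with h | h <;> rcases hε with h' | h' <;> rw [h, ← hεdef, h'] <;> norm_num
    refine ⟨?_, hpow b'⟩
    rcases hpow b' with h | h <;> rw [h] <;> norm_num
  set η := chi4 ((q : ZMod 4) ^ b') with hη
  have hsum : ((q : ℤ) ^ f - 1) ∣ (d : ℤ) * (E * (η * ∑ v, y4 X 1 v)) := by
    rw [← cast_D hq.out.pos]
    apply (ZMod.intCast_zmod_eq_zero_iff_dvd _ _).mp
    rw [h2, sum_fr hq2 (fun b => x0 b • lft hM (q ^ f - 1) (PH q f h) (iota k b))]
    have hterm : ∀ u v, fr hq2 (fun b => x0 b • lft hM (q ^ f - 1) (PH q f h) (iota k b)) u v =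
        ((X u v * ((d : ℤ) * (E * (η * chi4 u))) : ℤ) : ZMod (q ^ f - 1)) := by
      intro u v
      simp only [fr, hX]
      rw [hlft]
      have h3 : ZMod.castHom h4q (ZMod 4) ((ef hq2).symm (u, v)) = u := by
        have h4 : ∀ z : ZMod (4 * q), ZMod.castHom h4q (ZMod 4) z = (ef hq2 z).1 := by
          intro z
          conv_lhs => rw [← ZMod.natCast_zmod_val z]
          conv_rhs => rw [← ZMod.natCast_zmod_val z]
          rw [map_natCast, ef_natCast]
        rw [h4, RingEquiv.apply_symm_apply]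
      have hPH : PH q f chi4 ((q : ZMod 4) ^ b' * u) = E * (η * chi4 u) := by
        rw [PH_chi4 hf4 hε, chi4_mul]
      rw [h3, hPH, zsmul_eq_mul, ← Int.cast_mul]
    have hZ : (d : ℤ) * (E * (η * ∑ v, y4 X 1 v)) =
        ∑ u, ∑ v, X u v * ((d : ℤ) * (E * (η * chi4 u))) := by
      have h3 : ∑ v, y4 X 1 v = ∑ v, X 1 v - ∑ v, X 3 v := by
        rw [← sum_neg (fun v => X 3 v), ← sum_sub_distrib]
        rfl
      rw [sum_four, h3]
      simp only [← sum_mul]
      have c0 : chi4 0 = 0 := rfl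
      have c1 : chi4 1 = 1 := rfl
      have c2 : chi4 2 = 0 := rfl
      have c3 : chi4 3 = -1 := rfl
      rw [c0, c1, c2, c3]
      ring
    rw [sum_congr rfl fun u _ => sum_congr rfl fun v _ => hterm u v, hZ]
    push_cast
    rfl
  have hrow := row_one hrel hq2
  rw [← hεdef] at hrow
  have hB : 2 ∣ B4 X := by
    rw [hDE] at hsum
    have e1 : (d : ℤ) * (E * (η * ∑ v, y4 X 1 v)) = E * ((d : ℤ) * (η * ∑ v, y4 X 1 v)) := by ring
    rw [e1] at hsum
    have e2 := (mul_dvd_mul_iff_left hE0).1 hsum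
    obtain ⟨t, ht⟩ := e2
    have e3 : (d : ℤ) * η * (ε * B4 X) = 2 * t := by
      apply mul_left_cancel₀ hεq
      linear_combination ((d : ℤ) * η) * (-hrow) + 2 * ht
    have hd' : ¬ (2 : ℤ) ∣ (d : ℤ) := by
      intro h3
      exact hd (by exact_mod_cast h3)
    have e4 : (2 : ℤ) ∣ (d : ℤ) * (η * (ε * B4 X)) := ⟨t, by rw [← e3]; ring⟩
    have e5 := (Int.prime_two.dvd_mul.1 e4).resolve_left hd'
    rcases hpow4.2 with h3 | h3 <;> rcases hε with h4 | h4 <;> rw [h3, h4] at e5 <;> omega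
  rw [sum_fr hq2] at h1
  have h6 := even_four hq2 hrel hB (fr_d4 hq2 (cQ_oddDist (base := fun _ => False).comp_iota hk))
  have h9 : ∑ u, ∑ v, fr hq2 (fun b => x0 b • cQ m (fun _ => False) (iota k b)) u v = 0 := h6
  rw [h9, cQ_sum, QuotientAddGroup.eq_zero_iff] at h1
  exact generated_of_mem_LL (fun _ h => h.elim) (fun _ h => h.elim) hs.1 hs.2.1 hne h1

end Run7.h365.TD
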