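import Pool.Agent.Run7.h365.TD.Lvl
import Pool.Agent.Run7.h365.TD.Fo
import Pool.Agent.Run7.h365.FV.Sharp
import Pool.Agent.Run7.h365.FV.Deg
import Pool.Agent.Run7.h919.Ra9

/-!
# The rational characters of the Fermat varieties of degree with at most three odd prime factors
-/

set_option autoImplicit false
set_option linter.unusedSectionVars false

namespace Run7.h365.TD

open Finset
open Run7.h365.FV
open Pool.Agent.H916R2 (IsHodge Generated)
open Pool.Agent.Y2 (generated_mono)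
open Pool.Agent.Y2.Cv (GoodDegree2)

/-- The number is not divisible by four and has at most three odd prime factors. -/
def Few (m : ℕ) : Prop := ¬ 4 ∣ m ∧ (m.primeFactors.erase 2).card ≤ 3

theorem few_of_dvd {m M : ℕ} (hm : 0 < m) (h : Few m) (hM : M ∣ m) : Few M :=
  ⟨fun h4 => h.1 (h4.trans hM),
    (card_le_card (erase_subset_erase 2 (Nat.primeFactors_mono hM hm.ne'))).trans h.2⟩

/-- the shape of these numbers -/
theorem few_cases {m : ℕ} (hm : 0 < m) (h : Few m) :
    (∃ p k : ℕ, p.Prime ∧ (m = p ^ k ∨ m = 2 * p ^ k)) ∨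
    (∃ p q a b c : ℕ, p.Prime ∧ q.Prime ∧ p ≠ 2 ∧ q ≠ 2 ∧ p ≠ q ∧ 0 < a ∧ 0 < b ∧
      (c = 1 ∨ c = 2) ∧ c * (p ^ a * q ^ b) = m) ∨
    (∃ p q r a b d c : ℕ, p.Prime ∧ q.Prime ∧ r.Prime ∧ p ≠ 2 ∧ q ≠ 2 ∧ r ≠ 2 ∧ p ≠ q ∧ p ≠ r ∧
      q ≠ r ∧ 0 < a ∧ 0 < b ∧ 0 < d ∧ (c = 1 ∨ c = 2) ∧ c * (p ^ a * q ^ b * r ^ d) = m) := by
  obtain ⟨h4, hc⟩ := h
  have key : ∃ c n : ℕ, (c = 1 ∨ c = 2) ∧ c * n = m ∧ 0 < n ∧ n.primeFactors = m.primeFactors.erase 2 := by
    by_cases h2 : 2 ∣ m
    · obtain ⟨n, rfl⟩ := h2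
      have hn0 : n ≠ 0 := by rintro rfl; simp at hm
      have hn : ¬ 2 ∣ n := by
        rintro ⟨k, rfl⟩
        exact h4 ⟨k, by ring⟩
      refine ⟨2, n, Or.inr rfl, rfl, Nat.pos_of_ne_zero hn0, ?_⟩
      ext p
      rw [mem_erase, Nat.mem_primeFactors, Nat.mem_primeFactors]
      constructor
      · rintro ⟨hp, hpn, -⟩
        exact ⟨fun h => hn (h ▸ hpn), hp, hpn.mul_left 2, hm.ne'⟩
      · rintro ⟨hp2, hp, hpn, -⟩
        refine ⟨hp, (hp.dvd_mul.1 hpn).resolve_left fun h => ?_, hn0⟩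
        exact hp2 ((Nat.prime_dvd_prime_iff_eq hp Nat.prime_two).1 h)
    · refine ⟨1, m, Or.inl rfl, one_mul m, hm, ?_⟩
      rw [erase_eq_of_notMem]
      intro h
      exact h2 (Nat.dvd_of_mem_primeFactors h)
  obtain ⟨c, n, hcc, hcn, hn0, hpf⟩ := key
  rw [← hpf] at hc
  have h2 : 2 ∉ n.primeFactors := by rw [hpf]; exact notMem_erase 2 _
  have hfac := Nat.factorization_prod_pow_eq_self hn0.ne'
  rw [Nat.prod_factorization_eq_prod_primeFactors] at hfac
  have hpos : ∀ p ∈ n.primeFactors, 0 < n.factorization p := fun p hp =>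
    (Nat.prime_of_mem_primeFactors hp).factorization_pos_of_dvd hn0.ne'
      (Nat.dvd_of_mem_primeFactors hp)
  have hcases : n.primeFactors.card = 0 ∨ n.primeFactors.card = 1 ∨ n.primeFactors.card = 2 ∨
    n.primeFactors.card = 3 := by omega
  rcases hcases with h0 | h1 | h2' | h3
  · rw [card_eq_zero] at h0
    rw [h0, prod_empty] at hfac
    refine Or.inl ⟨2, 0, Nat.prime_two, ?_⟩
    rw [← hcn, ← hfac]
    rcases hcc with rfl | rfl
    · exact Or.inl rfl
    · exact Or.inr rfl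
  · obtain ⟨p, hp⟩ := card_eq_one.1 h1
    have hpp : p.Prime := Nat.prime_of_mem_primeFactors (n := n) (by rw [hp]; exact mem_singleton_self p)
    rw [hp, prod_singleton] at hfac
    refine Or.inl ⟨p, n.factorization p, hpp, ?_⟩
    rw [← hcn]
    rcases hcc with rfl | rfl
    · left; rw [one_mul]; exact hfac.symm
    · right; rw [hfac]
  · obtain ⟨p, q, hpq, hs⟩ := card_eq_two.1 h2'
    have hp : p ∈ n.primeFactors := by rw [hs]; simp
    have hq : q ∈ n.primeFactors := by rw [hs]; simp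
    rw [hs, prod_pair hpq] at hfac
    refine Or.inr (Or.inl ⟨p, q, n.factorization p, n.factorization q, c,
      Nat.prime_of_mem_primeFactors hp, Nat.prime_of_mem_primeFactors hq,
      fun h => h2 (h ▸ hp), fun h => h2 (h ▸ hq), hpq, hpos p hp, hpos q hq, hcc, ?_⟩)
    rw [hfac, hcn]
  · obtain ⟨p, q, r, hpq, hpr, hqr, hs⟩ := card_eq_three.1 h3
    have hp : p ∈ n.primeFactors := by rw [hs]; simp
    have hq : q ∈ n.primeFactors := by rw [hs]; simp
    have hr : r ∈ n.primeFactors := by rw [hs]; simp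
    rw [hs, prod_insert (by simp [hpq, hpr]), prod_pair hqr, ← mul_assoc] at hfac
    refine Or.inr (Or.inr ⟨p, q, r, n.factorization p, n.factorization q, n.factorization r, c,
      Nat.prime_of_mem_primeFactors hp, Nat.prime_of_mem_primeFactors hq,
      Nat.prime_of_mem_primeFactors hr, fun h => h2 (h ▸ hp), fun h => h2 (h ▸ hq),
      fun h => h2 (h ▸ hr), hpq, hpr, hqr, hpos p hp, hpos q hq, hpos r hr, hcc, ?_⟩)
    rw [hfac, hcn]

/-- The number has at most one odd prime factor, or it is not divisible by four and has at most three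
odd prime factors. -/
def FewPrimes (m : ℕ) : Prop :=
  (m.primeFactors.erase 2).card ≤ 1 ∨ (¬ 4 ∣ m ∧ (m.primeFactors.erase 2).card ≤ 3)

/-- one odd prime factor -/
theorem one_odd {m : ℕ} (hm : 0 < m) (h : (m.primeFactors.erase 2).card ≤ 1) (h4 : 4 ∣ m) :
    (∃ k : ℕ, m = 2 ^ k) ∨
    ∃ q a b : ℕ, q.Prime ∧ q ≠ 2 ∧ 2 ≤ a ∧ 0 < b ∧ 2 ^ a * q ^ b = m := by
  obtain ⟨a, n, hn, hmn⟩ := Nat.exists_eq_two_pow_mul_odd hm.ne'
  have hn0 : n ≠ 0 := by rintro rfl; exact absurd hn (by decide)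
  have hn2 : ¬ 2 ∣ n := fun h => (Nat.not_even_iff_odd.2 hn) (even_iff_two_dvd.2 h)
  have ha : 2 ≤ a := by
    by_contra hlt
    have h5 : a = 0 ∨ a = 1 := by omega
    rcases h5 with rfl | rfl
    · rw [pow_zero, one_mul] at hmn
      exact hn2 (by rw [← hmn]; exact (by norm_num : 2 ∣ 4).trans h4)
    · rw [pow_one] at hmn
      obtain ⟨j, hj⟩ := h4
      exact hn2 ⟨j, by omega⟩
  have hsub : n.primeFactors ⊆ m.primeFactors.erase 2 := by
    intro p hp
    rw [mem_erase]
    refine ⟨fun h => hn2 (h ▸ Nat.dvd_of_mem_primeFactors hp), ?_⟩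
    rw [Nat.mem_primeFactors] at hp ⊢
    exact ⟨hp.1, hp.2.1.trans (Dvd.intro_left _ hmn.symm), hm.ne'⟩
  have hcard := (card_le_card hsub).trans h
  have hfac := Nat.factorization_prod_pow_eq_self hn0
  rw [Nat.prod_factorization_eq_prod_primeFactors] at hfac
  rcases (by omega : n.primeFactors.card = 0 ∨ n.primeFactors.card = 1) with h0 | h1
  · rw [card_eq_zero] at h0
    rw [h0, prod_empty] at hfac
    left
    exact ⟨a, by rw [hmn, ← hfac, mul_one]⟩
  · obtain ⟨p, hp⟩ := card_eq_one.1 h1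
    have hpm : p ∈ n.primeFactors := by rw [hp]; exact mem_singleton_self p
    have hpp : p.Prime := Nat.prime_of_mem_primeFactors hpm
    rw [hp, prod_singleton] at hfac
    right
    refine ⟨p, a, n.factorization p, hpp, fun h => hn2 (h ▸ Nat.dvd_of_mem_primeFactors hpm), ha,
      hpp.factorization_pos_of_dvd hn0 (Nat.dvd_of_mem_primeFactors hpm), ?_⟩
    rw [hfac, hmn]

theorem fewPrimes_of_dvd {m M : ℕ} (hm : 0 < m) (h : FewPrimes m) (hM : M ∣ m) : FewPrimes M := by
  have h1 := card_le_card (erase_subset_erase 2 (Nat.primeFactors_mono hM hm.ne'))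
  rcases h with h | ⟨h4, h⟩
  · exact Or.inl (h1.trans h)
  · exact Or.inr ⟨fun h => h4 (h.trans hM), h1.trans h⟩

/-- **Structure.** -/
theorem isGenerated_ar {m R : ℕ} (hm : 0 < m) (h' : FewPrimes m) (hR : ¬ 2 ∣ R)
    {s : Multiset (ZMod m)} (hH : IsHodge m s) (hne : s ≠ 0) (hA : Ar R m s) : IsGenerated m s := by
  have : NeZero m := ⟨hm.ne'⟩
  by_cases h4 : 4 ∣ m
  · rcases one_odd hm (h'.resolve_right fun h => h.1 h4) h4 with ⟨k, hk⟩ | ⟨q, a, b, hq, hq2, ha, hb, hm'⟩
    · refine isGenerated_good hm ?_ hH hne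
      exact Or.inr (Or.inr (Or.inr (Or.inr (Or.inr (Or.inr ⟨2, k, Nat.prime_two, Or.inl hk⟩)))))
    · have : Fact q.Prime := ⟨hq⟩
      exact isGenerated_of hm (generated_mono (fun _ h => h.elim)
        (structure_four_ar hq2 ha hb hm' hH hne hR hA))
  have h : Few m := by
    refine ⟨h4, ?_⟩
    rcases h' with h | h
    · omega
    · exact h.2
  rcases few_cases hm h with h1 | ⟨p, q, x, y, c, hp, hq, hp2, hq2, hpq, hx, hy, hc, hm'⟩ |
    ⟨p, q, r, x, y, z, c, hp, hq, hr, hp2, hq2, hr2, hpq, hpr, hqr, hx, hy, hz, hc, hm'⟩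
  · refine isGenerated_good hm ?_ hH hne
    exact Or.inr (Or.inr (Or.inr (Or.inr (Or.inr (Or.inr h1)))))
  · have : Fact p.Prime := ⟨hp⟩
    have : Fact q.Prime := ⟨hq⟩
    exact isGenerated_of hm (generated_mono (fun _ h => h.elim)
      (structure_two hp2 hq2 hpq hx hy hc hm' hH hne hR hA))
  · have : Fact p.Prime := ⟨hp⟩
    have : Fact q.Prime := ⟨hq⟩
    have : Fact r.Prime := ⟨hr⟩
    exact isGenerated_of hm (generated_mono (fun _ h => h.elim)
      (structure_three hp2 hq2 hr2 hpq hpr hqr hx hy hz hc hm' hH hne hR hA))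

/-- The degree `m` has at most two odd prime factors, or it is not divisible by four and it has at most
three odd prime factors or the number `N` of the entries is small: `N < 30` for odd `m`, `N < 15` for
even `m`, or `16 N` (`32 N` for even `m`) is smaller than the product of the numbers `p - 1` for any four
odd prime factors `p` of `m`. -/
def FewEntries (m N : ℕ) : Prop :=
  (m.primeFactors.erase 2).card ≤ 2 ∨ (¬ 4 ∣ m ∧ ((m.primeFactors.erase 2).card ≤ 3 ∨
    (if 2 ∣ m then 2 else 1) * N < 30 ∨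
    ∀ T ⊆ m.primeFactors.erase 2, T.card = 4 → 16 * ((if 2 ∣ m then 2 else 1) * N) < ∏ p ∈ T, (p - 1)))

theorem isGenerated_entries {m R : ℕ} (hm : 0 < m) {s : Multiset (ZMod m)}
    (h : FewEntries m (Multiset.card s)) (hR : ¬ 2 ∣ R)
    (hH : IsHodge m s) (hne : s ≠ 0) (hA : Ar R m s) : IsGenerated m s := by
  have : NeZero m := ⟨hm.ne'⟩
  have hF : Run7.h919.Ra.FewFactors m (Multiset.card s) := by
    rcases h with h | ⟨h4, h⟩
    · exact Or.inl h
    · refine Or.inr ⟨h4, ?_⟩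
      rcases h with h | h | h
      · exact Run7.h919.Ra.fourBound_of_card h
      · exact Run7.h919.Ra.fourBound_of_lt h
      · exact h
  exact isGenerated_of hm (generated_mono (fun _ h => h.elim)
    (Run7.h919.Ra.generated_few hR hF hH hne hA))

/-- **The rational characters of the Fermat varieties are generated.** -/
theorem isGenerated_few {M r : ℕ} (hM : 0 < M) (hr : 0 < r) (h : FewEntries M (2 * r + 2))
    {a : Fin (2 * r + 1 + 1) → ZMod M} (ha : IsCharacter a) (hra : IsRational a) :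
    IsGenerated M (univ.val.map a) := by
  have : NeZero M := ⟨hM.ne'⟩
  refine isGenerated_entries hM (by rw [Run7.h365.FV.card_map]; exact h) (by norm_num : ¬ 2 ∣ 1)
    (isHodge hM ha hra) (ne_zero_map a) ?_
  have h1 := ar_of (m := M) (n := 2 * r + 1) (R := 1) (N := M) (B := 1) (by omega)
    (odd_two_mul_add_one r) (b := Fin.tail a) ?_
  · rwa [full_tail ha.sum_eq] at h1
  · intro ℓ hℓ _ hℓ1 χ hχ
    rw [mul_one] at hℓ1
    rw [PP_of_rational hr ha hra hℓ hℓ1 χ hχ]
    congr 2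
    omega

end Run7.h365.TD
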