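import Pool.Agent.Run7.h365.TD.Hdg
import Pool.Agent.Run7.h365.TD.Fin
import Pool.Agent.Run7.h365.FV.HDv

/-!
# Diagonal hypersurfaces over number fields of odd degree
-/

set_option autoImplicit false
set_option linter.unusedSectionVars false

namespace Run7.h365.TD

open Finset NumberField IsDedekindDomain Filter
open Run7.h365.FV
open Run7.h365.CM.T (eventually_coprime)
open Pool.Agent.N883.C (chE chE_apply chE_mul chE_one chE_ne_one gauss_E)
open Pool.Agent.H916R2 (IsHodge)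

/-- Let `K` be a number field, `c_0, ..., c_(n+1)` nonzero integers of `K` (`n` even) and `X` the
diagonal hypersurface `c_0 * x_0 ^ m + ... + c_(n+1) * x_(n+1) ^ m = 0`. The Galois group of the field
`K'` of `m`-th roots of unity over `K` acts trivially on the line `V(a)(n/2)`: at all but finitely many
primes `v` of `K` which split completely in `K'` (the residue field `F` of `v` has a character of order
`m`) the Frobenius eigenvalue `q⁻¹ * ∏ g(χ ^ a_i) / χ ^ a_i (c_i)` on `V(a)` is `q ^ (n/2)`. The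
multiset `s` consists of the `n + 2` pairs `(a_i, c_i)`. -/
def RationalOver (K : Type) [Field K] [NumberField K] (m : ℕ) (s : Multiset (ZMod m × 𝓞 K)) : Prop :=
  ∀ᶠ v : HeightOneSpectrum (𝓞 K) in cofinite, ∀ (F : Type) [Field F] [Fintype F] (φ : 𝓞 K →+* F),
    Function.Surjective φ → RingHom.ker φ = v.asIdeal → ∀ (χ : MulChar F ℂ) (ψ : AddChar F ℂ),
    orderOf χ = m → ψ ≠ 1 →
    (s.map fun z => gaussSum (χ ^ z.1.val) ψ).prod =
      (Fintype.card F : ℂ) ^ (Multiset.card s / 2) *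
        (s.map fun z => (χ ^ z.1.val) (φ z.2)).prod

theorem exists_tuple {α : Type*} (s : Multiset α) {n : ℕ} (h : Multiset.card s = n) :
    ∃ z : Fin n → α, univ.val.map z = s := by
  subst h
  induction s using Quot.inductionOn with
  | _ l =>
    refine ⟨fun i => l.get i, ?_⟩
    rw [Fin.univ_val_map]
    exact congrArg _ (List.ofFn_get l)

/-- squares -/
theorem sq_of_dvd {k : ℤ} (hk : k ≠ 0) {ℓ : ℕ} [Fact ℓ.Prime] (h : 4 * k.natAbs ∣ ℓ - 1) :
    ∃ y : ZMod ℓ, y ≠ 0 ∧ (k : ZMod ℓ) = y ^ 2 := by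
  have hp : ℓ.Prime := Fact.out
  have hk0 : 0 < k.natAbs := Int.natAbs_pos.2 hk
  have hodd : Odd ℓ := by
    have h2 : 2 ∣ ℓ - 1 := (Dvd.intro (2 * k.natAbs) (by ring) : 2 ∣ 4 * k.natAbs).trans h
    have h1 := hp.one_lt
    rcases hp.eq_two_or_odd' with h3 | h3
    · subst h3
      omega
    · exact h3
  have h1 : ℓ % (4 * k.natAbs) = 1 := by
    obtain ⟨j, hj⟩ := h
    have h2 : ℓ = 4 * k.natAbs * j + 1 := by have := hp.one_lt; omega
    rw [h2, Nat.mul_add_mod, Nat.mod_eq_of_lt (by omega)]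
  have h2 := jacobiSym.mod_right k hodd
  rw [h1, jacobiSym.one_right, ← jacobiSym.legendreSym.to_jacobiSym] at h2
  have hk' : (k : ZMod ℓ) ≠ 0 := by
    intro h3
    rw [(legendreSym.eq_zero_iff ℓ k).2 h3] at h2
    exact absurd h2 (by norm_num)
  obtain ⟨y, hy⟩ := (legendreSym.eq_one_iff ℓ hk').1 h2
  refine ⟨y, ?_, by rw [hy, sq]⟩
  rintro rfl
  apply hk'
  rw [hy, zero_mul]

section loc

variable {K : Type} [Field K] [NumberField K] {ℓ : ℕ} [hℓ : Fact ℓ.Prime] {A C : ℂ}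

theorem mult_induct (h : ∀ v : HeightOneSpectrum (𝓞 K), (ℓ : 𝓞 K) ∈ v.asIdeal →
      ∃ f : ℕ, Ideal.absNorm v.asIdeal = ℓ ^ f ∧ A ^ f = C ^ f) (T : Multiset (Ideal (𝓞 K)))
    (hT : ∀ P ∈ T, P.IsPrime ∧ P ≠ ⊥ ∧ (ℓ : 𝓞 K) ∈ P) :
    ∃ j : ℕ, Ideal.absNorm T.prod = ℓ ^ j ∧ A ^ j = C ^ j := by
  induction T using Multiset.induction_on with
  | empty => exact ⟨0, by simp, by simp⟩
  | cons P T ih =>
    obtain ⟨j, hj, hj'⟩ := ih fun Q hQ => hT Q (Multiset.mem_cons_of_mem hQ)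
    obtain ⟨hP1, hP2, hP3⟩ := hT P (Multiset.mem_cons_self P T)
    obtain ⟨f, hf, hf'⟩ := h ⟨P, hP1, hP2⟩ hP3
    refine ⟨f + j, ?_, ?_⟩
    · rw [Multiset.prod_cons, map_mul, hj, pow_add]
      congr 1
    · rw [pow_add, pow_add, hf', hj']

/-- **Multiplying over the primes above a prime of degree one.** -/
theorem all_above {k : Type} [Field k] [NumberField k] [Algebra k K]
    (w : HeightOneSpectrum (𝓞 k)) (hw : Ideal.absNorm w.asIdeal = ℓ)
    (h : ∀ v : HeightOneSpectrum (𝓞 K), (ℓ : 𝓞 K) ∈ v.asIdeal →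
      ∃ f : ℕ, Ideal.absNorm v.asIdeal = ℓ ^ f ∧ A ^ f = C ^ f) :
    A ^ Module.finrank k K = C ^ Module.finrank k K := by
  classical
  set I : Ideal (𝓞 K) := w.asIdeal.map (algebraMap (𝓞 k) (𝓞 K)) with hIdef
  have hinj : Function.Injective (algebraMap (𝓞 k) (𝓞 K)) :=
    FaithfulSMul.algebraMap_injective (𝓞 k) (𝓞 K)
  have hI : I ≠ ⊥ := by
    rw [hIdef, Ne, Ideal.map_eq_bot_iff_of_injective hinj]
    exact w.ne_bot
  have hmem : (ℓ : 𝓞 K) ∈ I := by
    have h1 : (ℓ : 𝓞 k) ∈ w.asIdeal := by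
      rw [← hw]; exact Ideal.absNorm_mem w.asIdeal
    have h2 := Ideal.mem_map_of_mem (algebraMap (𝓞 k) (𝓞 K)) h1
    rwa [map_natCast] at h2
  obtain ⟨j, hj, hj'⟩ := mult_induct h
    (UniqueFactorizationMonoid.normalizedFactors I) (by
      intro P hP
      have h1 := UniqueFactorizationMonoid.prime_of_normalized_factor P hP
      refine ⟨Ideal.isPrime_of_prime h1, h1.ne_zero, ?_⟩
      have h2 := UniqueFactorizationMonoid.dvd_of_mem_normalizedFactors hP
      exact (Ideal.dvd_iff_le.1 h2) hmem)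
  rw [Ideal.prod_normalizedFactors_eq_self hI, hIdef, Ideal.absNorm_algebraMap, hw,
    ← IsFractionRing.finrank_eq (𝓞 k) k (𝓞 K) K] at hj
  have h2 := Nat.pow_right_injective hℓ.out.two_le hj
  rw [h2]
  exact hj'

/-- a prime of degree one -/
theorem exists_w {k : Type} [Field k] [NumberField k] {B : ℕ} [NeZero B]
    (i : k →+* CyclotomicField B ℚ) (hB : B ∣ ℓ - 1) :
    ∃ w : HeightOneSpectrum (𝓞 k), Ideal.absNorm w.asIdeal = ℓ := by
  obtain ⟨P, hP⟩ := exists_above (F := LL B) ℓ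
  have hone := hℓ.out.one_lt
  have hcop : ℓ.Coprime B := by
    refine (Nat.Prime.coprime_iff_not_dvd hℓ.out).2 fun h => ?_
    have h1 : ℓ ∣ ℓ - 1 := h.trans hB
    have h2 := Nat.le_of_dvd (by omega) h1
    omega
  have hNP := absNorm_prm (N := B) hP hcop
  have hord : orderOf (ℓ : ZMod B) = 1 := by
    rw [orderOf_eq_one_iff, ← Nat.cast_one, ZMod.natCast_eq_natCast_iff]
    exact ((Nat.modEq_iff_dvd' hone.le).2 hB).symm
  rw [hord, pow_one] at hNP
  have hu : Nonempty (𝓞 (LL B) →+* ZMod (Ideal.absNorm P.asIdeal)) :=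
    ⟨(exists_u P (by rw [hNP]; exact hℓ.out)).choose⟩
  rw [hNP] at hu
  obtain ⟨u⟩ := hu
  set g : 𝓞 k →+* ZMod ℓ := u.comp (RingOfIntegers.mapRingHom i) with hg
  have hsurj : Function.Surjective g := ZMod.ringHom_surjective g
  have hker : RingHom.ker g ≠ ⊥ := by
    intro h
    have h1 : (ℓ : 𝓞 k) ∈ RingHom.ker g := by
      rw [RingHom.mem_ker, map_natCast, ZMod.natCast_self]
    rw [h, Ideal.mem_bot] at h1
    exact hℓ.out.ne_zero (by exact_mod_cast h1)
  refine ⟨⟨RingHom.ker g, RingHom.ker_isPrime g, hker⟩, ?_⟩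
  have h1 := Nat.card_congr (RingHom.quotientKerEquivOfSurjective hsurj).toEquiv
  rw [Nat.card_eq_fintype_card (α := ZMod ℓ), ZMod.card] at h1
  exact h1

/-- at one prime -/
theorem one_prime {m n R0 t : ℕ} [NeZero m] (hodd : Odd n) {b : Fin n → ZMod m}
    {c : Fin (n + 1) → 𝓞 K} (htm : m ∣ t * R0) {χ : MulChar (ZMod ℓ) ℂ} (hχ : orderOf χ = m)
    (v : HeightOneSpectrum (𝓞 K)) (hv : (ℓ : 𝓞 K) ∈ v.asIdeal)
    (hcf : ∀ (F : Type) [Field F] (φ : 𝓞 K →+* F), Function.Surjective φ →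
      RingHom.ker φ = v.asIdeal → ∀ i, ∃ y : F, y ≠ 0 ∧ φ (c i) = y ^ t)
    (hR : ∀ (F : Type) [Field F] [Fintype F] (φ : 𝓞 K →+* F),
      Function.Surjective φ → RingHom.ker φ = v.asIdeal → ∀ (χ : MulChar F ℂ) (ψ : AddChar F ℂ),
      orderOf χ = m → ψ ≠ 1 → ∏ i, gaussSum (χ ^ (full b i).val) ψ =
        (Fintype.card F : ℂ) ^ ((n + 1) / 2) * ∏ i, (χ ^ (full b i).val) (φ (c i))) :
    ∃ f : ℕ, Ideal.absNorm v.asIdeal = ℓ ^ f ∧
      (PP χ b ^ R0) ^ f = (((ℓ : ℂ) ^ ((n + 1) / 2)) ^ R0) ^ f := by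
  classical
  obtain ⟨κ, _, _, _, φ, hφ, hker, hcard⟩ := exists_model v
  have hchar : CharP κ ℓ := by
    have hp0 : (ℓ : κ) = 0 := by
      have h1 : (ℓ : 𝓞 K) ∈ RingHom.ker φ := by rw [hker]; exact hv
      rwa [RingHom.mem_ker, map_natCast] at h1
    have h1 := ringChar.spec κ ℓ
    have h2 : ringChar κ ∣ ℓ := (h1).1 hp0
    have h3 : ringChar κ ≠ 1 := CharP.ringChar_ne_one
    have h4 : ringChar κ = ℓ := ((Nat.dvd_prime hℓ.out).1 h2).resolve_left h3
    rw [← h4]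
    exact ringChar.charP κ
  let _ : Algebra (ZMod ℓ) κ := ZMod.algebra κ ℓ
  have hq : Fintype.card κ = ℓ ^ Module.finrank (ZMod ℓ) κ := by
    rw [Module.card_eq_pow_finrank (K := ZMod ℓ), ZMod.card]
  refine ⟨Module.finrank (ZMod ℓ) κ, by rw [← hcard, hq], ?_⟩
  set χv := chE χ κ with hχv
  have hord : orderOf χv = m := (orderOf_chE χ).trans hχ
  have hψ := AddChar.FiniteField.primitiveChar_to_Complex_isPrimitive κ
  have hψ1 : AddChar.FiniteField.primitiveChar_to_Complex κ ≠ 1 := by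
    have := hψ one_ne_zero
    rwa [AddChar.mulShift_one] at this
  have h1 := hR κ φ hφ hker χv _ hord hψ1
  have h2 : ∏ i, gaussSum (χv ^ (full b i).val) (AddChar.FiniteField.primitiveChar_to_Complex κ) =
      PP χv b := by
    rw [PP_eq hord hψ, Fin.prod_univ_succ]
    rfl
  have h3 : ∀ i, ((χv ^ (full b i).val) (φ (c i))) ^ R0 = 1 := by
    intro i
    obtain ⟨y, hy, hyc⟩ := hcf κ φ hφ hker i
    rw [hyc, map_pow, ← pow_mul]
    obtain ⟨u, rfl⟩ : ∃ u : κˣ, (u : κ) = y := ⟨Units.mk0 y hy, rfl⟩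
    obtain ⟨j, hj⟩ := htm
    have hpm : χv ^ m = 1 := orderOf_dvd_iff_pow_eq_one.1 hord.dvd
    rw [← MulChar.pow_apply_coe, ← pow_mul, hj, mul_left_comm, pow_mul, hpm,
      one_pow, MulChar.one_apply_coe]
  rw [h2, PP_chE hχ hodd] at h1
  rw [← pow_mul, mul_comm R0, pow_mul, h1, mul_pow, ← prod_pow, prod_congr rfl fun i _ => h3 i,
    prod_const_one, mul_one, hq]
  push_cast
  ring

end loc

section main

variable {K : Type} [Field K] [NumberField K]

/-- the primes above the large primes are good -/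
theorem exists_bound {P : HeightOneSpectrum (𝓞 K) → Prop} (h : ∀ᶠ v in cofinite, P v) :
    ∃ N : ℕ, ∀ ℓ : ℕ, N < ℓ → ℓ.Prime → ∀ v : HeightOneSpectrum (𝓞 K), (ℓ : 𝓞 K) ∈ v.asIdeal →
      P v := by
  rw [eventually_cofinite] at h
  obtain ⟨T, hT⟩ := h.exists_finset_coe
  refine ⟨∑ v ∈ T, Ideal.absNorm v.asIdeal, fun ℓ hℓ hp v hv => ?_⟩
  by_contra hP
  have h1 : v ∈ T := by
    rw [← Finset.mem_coe, hT]
    exact hP
  have h2 : Ideal.absNorm v.asIdeal ≤ ∑ v ∈ T, Ideal.absNorm v.asIdeal :=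
    single_le_sum (f := fun v : HeightOneSpectrum (𝓞 K) => Ideal.absNorm v.asIdeal)
      (fun _ _ => Nat.zero_le _) h1
  have h3 : Ideal.absNorm v.asIdeal ∣ Ideal.absNorm (Ideal.span {(ℓ : 𝓞 K)}) :=
    Ideal.absNorm_dvd_absNorm_of_le (by rw [Ideal.span_singleton_le_iff_mem]; exact hv)
  have h4 : Ideal.absNorm (Ideal.span {(ℓ : 𝓞 K)}) = ℓ ^ Module.finrank ℚ K := by
    rw [Ideal.absNorm_span_singleton]
    have h5 : (ℓ : 𝓞 K) = algebraMap ℤ (𝓞 K) (ℓ : ℤ) := by simp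
    rw [h5, Algebra.norm_algebraMap, RingOfIntegers.rank, Int.natAbs_pow, Int.natAbs_natCast]
  rw [h4] at h3
  obtain ⟨f, _, hf⟩ := (Nat.dvd_prime_pow hp).1 h3
  have h5 : Ideal.absNorm v.asIdeal ≠ 1 := by
    rw [Ne, Ideal.absNorm_eq_one_iff]
    exact v.isPrime.ne_top
  have hf0 : f ≠ 0 := by
    rintro rfl
    exact h5 (by rw [hf, pow_zero])
  have h6 : ℓ ≤ Ideal.absNorm v.asIdeal := by
    rw [hf]
    exact Nat.le_self_pow hf0 ℓ
  omega

/-- the powers of the Jacobi sums -/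
theorem PP_pow_over {k : Type} [Field k] [NumberField k] [Algebra k K] {m n R0 t B : ℕ} [NeZero m]
    (hw : ∀ (ℓ : ℕ) [Fact ℓ.Prime], m * B ∣ ℓ - 1 →
      ∃ w : HeightOneSpectrum (𝓞 k), Ideal.absNorm w.asIdeal = ℓ)
    (hodd : Odd n) {b : Fin n → ZMod m}
    {c : Fin (n + 1) → 𝓞 K} (htm : m ∣ t * R0)
    (hcf : ∀ᶠ v : HeightOneSpectrum (𝓞 K) in cofinite, ∀ (ℓ : ℕ) [Fact ℓ.Prime],
      (ℓ : 𝓞 K) ∈ v.asIdeal → m * B ∣ ℓ - 1 → ∀ (F : Type) [Field F] (φ : 𝓞 K →+* F),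
      Function.Surjective φ → RingHom.ker φ = v.asIdeal → ∀ i, ∃ y : F, y ≠ 0 ∧ φ (c i) = y ^ t)
    (hR : RationalOver K m (univ.val.map fun i => (full b i, c i))) :
    ∃ N : ℕ, ∀ ℓ : ℕ, N < ℓ → ∀ [Fact ℓ.Prime], m * B ∣ ℓ - 1 → ∀ χ : MulChar (ZMod ℓ) ℂ,
      orderOf χ = m → PP χ b ^ (R0 * Module.finrank k K) =
        ((ℓ : ℂ) ^ ((n + 1) / 2)) ^ (R0 * Module.finrank k K) := by
  obtain ⟨N, hN⟩ := exists_bound (hcf.and hR)
  refine ⟨N, fun ℓ hℓ _ hd χ hχ => ?_⟩
  rw [pow_mul, pow_mul]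
  obtain ⟨w, hw'⟩ := hw ℓ hd
  refine all_above (ℓ := ℓ) w hw' fun v hv => ?_
  obtain ⟨h1, h2⟩ := hN ℓ hℓ Fact.out v hv
  refine one_prime hodd (t := t) (c := c) htm hχ v hv (fun F _ φ hφ hker i =>
    h1 ℓ hv hd F φ hφ hker i) fun F _ _ φ hφ hker χ ψ hχ hψ => ?_
  have h3 := h2 F φ hφ hker χ ψ hχ hψ
  rw [Multiset.map_map, Multiset.map_map, Multiset.card_map, card_val, card_univ,
    Fintype.card_fin] at h3
  exact h3

theorem eventually_notMem {x : 𝓞 K} (hx : x ≠ 0) :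
    ∀ᶠ v : HeightOneSpectrum (𝓞 K) in cofinite, x ∉ v.asIdeal := by
  have h0 : Ideal.span {x} ≠ ⊥ := by
    rwa [Ne, Ideal.span_singleton_eq_bot]
  filter_upwards [eventually_coprime h0] with v hv hx'
  rw [Ideal.isCoprime_iff_sup_eq] at hv
  apply v.isPrime.ne_top
  rw [← hv]
  symm
  rw [sup_eq_left, Ideal.span_singleton_le_iff_mem]
  exact hx'

theorem charP_of {ℓ : ℕ} [hℓ : Fact ℓ.Prime] {v : HeightOneSpectrum (𝓞 K)}
    (hv : (ℓ : 𝓞 K) ∈ v.asIdeal) {F : Type} [Field F] {φ : 𝓞 K →+* F}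
    (hker : RingHom.ker φ = v.asIdeal) : CharP F ℓ := by
  have hp0 : (ℓ : F) = 0 := by
    have h1 : (ℓ : 𝓞 K) ∈ RingHom.ker φ := by rw [hker]; exact hv
    rwa [RingHom.mem_ker, map_natCast] at h1
  have h1 := ringChar.spec F ℓ
  have h2 : ringChar F ∣ ℓ := (h1).1 hp0
  have h3 : ringChar F ≠ 1 := CharP.ringChar_ne_one
  have h4 : ringChar F = ℓ := ((Nat.dvd_prime hℓ.out).1 h2).resolve_left h3
  rw [← h4]
  exact ringChar.charP F

/-- from the powers of the Jacobi sums -/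
theorem generated_of_pow {m n R B N : ℕ} [NeZero m] [NeZero R] [NeZero B] (hm : 2 ≤ m) (hn : 2 ≤ n)
    (hodd : Odd n) (h : FewEntries m (n + 1)) (hR2 : ¬ 2 ∣ R) {b : Fin n → ZMod m} (h0 : ∀ i, full b i ≠ 0)
    (hR : ∀ ℓ : ℕ, N < ℓ → ∀ [Fact ℓ.Prime], m * B ∣ ℓ - 1 → ∀ χ : MulChar (ZMod ℓ) ℂ,
      orderOf χ = m → PP χ b ^ R = ((ℓ : ℂ) ^ ((n + 1) / 2)) ^ R) :
    IsGenerated m (univ.val.map (full b)) := by
  have hcard : Multiset.card (univ.val.map (full b)) = n + 1 := by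
    rw [Multiset.card_map, card_val, card_univ, Fintype.card_fin]
  have hne : univ.val.map (full b) ≠ 0 := by
    intro h1
    rw [h1, Multiset.card_zero] at hcard
    omega
  have hH : IsHodge m (univ.val.map (full b)) := by
    refine hodge_of_pow (R := R) (B := B) (N := N) hm ?_ ?_ ?_ ?_
    · intro h1
      obtain ⟨i, -, hi⟩ := Multiset.mem_map.1 h1
      exact h0 i hi
    · rw [hcard]
      exact hodd.add_one
    · have h1 : (univ.val.map (full b)).sum = ∑ i, full b i := rfl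
      rw [h1, Fin.sum_univ_succ]
      unfold full
      simp
    · intro ℓ hℓ _ hd χ ψ hχ hψ
      have h1 := hR ℓ hℓ hd χ hχ
      rw [PP_eq hχ (AddChar.IsPrimitive.of_ne_one hψ)] at h1
      rw [hcard, ← h1, Multiset.map_map]
      congr 1
      change ∏ i, gaussSum (χ ^ (full b i).val) ψ = _
      rw [Fin.prod_univ_succ]
      rfl
  exact isGenerated_entries (by omega) (by rw [hcard]; exact h) hR2 hH hne (ar_of hn hodd hR)

/-- **The main theorem.** -/
theorem diag_generated {k : Type} [Field k] [NumberField k] [Algebra k K] {B0 : ℕ} [NeZero B0]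
    (i0 : k →+* CyclotomicField B0 ℚ) (hK : Odd (Module.finrank k K)) {m : ℕ} (hm : 0 < m)
    {s : Multiset (ZMod m × 𝓞 K)} (h : FewEntries m (Multiset.card s)) (hs : s ≠ 0) (heven : Even (Multiset.card s))
    (h0 : ∀ z ∈ s, z.1 ≠ 0 ∧ z.2 ≠ 0) (hZ : 2 ∣ m → ∀ z ∈ s, ∃ k : ℤ, z.2 = (k : 𝓞 K))
    (hF : 4 ∣ m → ∀ z ∈ s, z.2 = 1)
    (hsum : (s.map Prod.fst).sum = 0) (hR : RationalOver K m s) :
    IsGenerated m (s.map Prod.fst) := by
  classical
  have : NeZero m := ⟨hm.ne'⟩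
  have hm2 : 2 ≤ m := by
    by_contra hlt
    have h1 : m = 1 := by omega
    subst h1
    obtain ⟨z, hz⟩ := Multiset.exists_mem_of_ne_zero hs
    exact (h0 z hz).1 (Subsingleton.elim _ _)
  have hK0 : Module.finrank k K ≠ 0 := by
    intro h1
    rw [h1] at hK
    exact absurd hK (by decide)
  obtain ⟨r, hr⟩ := heven
  have hr0 : r ≠ 0 := by
    rintro rfl
    exact hs (Multiset.card_eq_zero.1 hr)
  by_cases hr1 : r = 1
  · -- two entries
    rw [hr1] at hr
    obtain ⟨z1, z2, rfl⟩ := Multiset.card_eq_two.1 hr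
    have h1 : z2.1 = -z1.1 := by
      simp only [Multiset.insert_eq_cons, Multiset.map_cons, Multiset.map_singleton,
        Multiset.sum_cons, Multiset.sum_singleton] at hsum
      exact (neg_eq_of_add_eq_zero_right hsum).symm
    apply isGenerated_of hm
    have h2 : (({z1, z2} : Multiset (ZMod m × 𝓞 K)).map Prod.fst) = {z1.1, -z1.1} := by
      simp only [Multiset.insert_eq_cons, Multiset.map_cons, Multiset.map_singleton, h1]
    rw [h2]
    exact Pool.Agent.H916R2.Generated.pair _ (h0 z1 (by simp)).1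
  · -- the tuple
    obtain ⟨n, hn⟩ : ∃ n, r + r = n + 1 := ⟨r + r - 1, by omega⟩
    rw [hr, hn] at h
    have hn2 : 2 ≤ n := by omega
    have hodd : Odd n := by
      rw [← Nat.not_even_iff_odd]
      intro he
      obtain ⟨j, hj⟩ := he
      omega
    obtain ⟨z, hz⟩ := exists_tuple s (hr.trans hn)
    set a : Fin (n + 1) → ZMod m := fun i => (z i).1 with ha
    set c : Fin (n + 1) → 𝓞 K := fun i => (z i).2 with hc
    have hmem : ∀ i, z i ∈ s := fun i => by
      rw [← hz]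
      exact Multiset.mem_map_of_mem _ (mem_univ i)
    have hfst : s.map Prod.fst = univ.val.map a := by
      rw [← hz, Multiset.map_map]
      rfl
    have hsa : ∑ i, a i = 0 := by
      rw [hfst] at hsum
      exact hsum
    have hfull : full (Fin.tail a) = a := full_tail hsa
    rw [hfst, ← hfull]
    have hR' : RationalOver K m (univ.val.map fun i => (full (Fin.tail a) i, c i)) := by
      rw [hfull]
      have h1 : (univ.val.map fun i => (a i, c i)) = s := by
        rw [← hz]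
      rw [h1]
      exact hR
    have h0' : ∀ i, full (Fin.tail a) i ≠ 0 := by
      intro i
      rw [hfull]
      exact (h0 _ (hmem i)).1
    by_cases h4m : 4 ∣ m
    · -- the degree is divisible by four
      obtain ⟨N, hN⟩ := PP_pow_over (K := K) (k := k) (R0 := 1) (t := m) (B := B0)
        (fun ℓ _ hd => exists_w i0 ((dvd_mul_left _ _).trans hd)) hodd (by rw [mul_one])
        (Eventually.of_forall fun v ℓ _ _ _ F _ φ _ _ i => ⟨1, one_ne_zero, by
          have h1 : c i = 1 := hF h4m _ (hmem i)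
          rw [h1, map_one, one_pow]⟩) hR'
      have hRne : NeZero (1 * Module.finrank k K) := ⟨mul_ne_zero one_ne_zero hK0⟩
      refine generated_of_pow hm2 hn2 hodd h ?_ h0' hN
      rw [one_mul]
      exact fun h5 => (Nat.not_even_iff_odd.2 hK) (even_iff_two_dvd.2 h5)
    by_cases h2 : 2 ∣ m
    · -- the degree is even
      obtain ⟨m', rfl⟩ := h2
      have hm' : ¬ 2 ∣ m' := by
        rintro ⟨j, rfl⟩
        exact h4m ⟨j, by ring⟩
      have hm'0 : m' ≠ 0 := by rintro rfl; simp at hm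
      choose x hk using fun i => hZ (dvd_mul_right 2 m') (z i) (hmem i)
      have hk0 : ∀ i, x i ≠ 0 := by
        intro i h3
        have h4 := hk i
        rw [h3, Int.cast_zero] at h4
        exact (h0 _ (hmem i)).2 h4
      have hB : NeZero (B0 * (4 * ∏ i, (x i).natAbs)) := ⟨mul_ne_zero (NeZero.ne B0)
        (mul_ne_zero (by norm_num) (prod_ne_zero_iff.2 fun i _ => Int.natAbs_ne_zero.2 (hk0 i)))⟩
      obtain ⟨N, hN⟩ := PP_pow_over (K := K) (k := k) (R0 := m') (t := 2)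
        (B := B0 * (4 * ∏ i, (x i).natAbs))
        (fun ℓ _ hd => exists_w i0 (((dvd_mul_right B0 _).trans (dvd_mul_left _ _)).trans hd))
        hodd (dvd_refl _) (Eventually.of_forall fun v ℓ _ hv hd F _ φ hφ hker i => by
          have : CharP F ℓ := charP_of hv hker
          have h3 : 4 * (x i).natAbs ∣ ℓ - 1 :=
            (((mul_dvd_mul_left 4 (dvd_prod_of_mem (fun i => (x i).natAbs) (mem_univ i))).trans
              (dvd_mul_left _ _)).trans (dvd_mul_left _ _)).trans hd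
          obtain ⟨y, hy, hyk⟩ := sq_of_dvd (hk0 i) h3
          refine ⟨ZMod.castHom (dvd_refl ℓ) F y, ?_, ?_⟩
          · rw [Ne, map_eq_zero_iff _ (ZMod.castHom (dvd_refl ℓ) F).injective]
            exact hy
          · rw [← map_pow, ← hyk, map_intCast]
            have h4 : c i = ((x i : ℤ) : 𝓞 K) := hk i
            rw [h4, map_intCast]) hR'
      have hRne : NeZero (m' * Module.finrank k K) := ⟨mul_ne_zero hm'0 hK0⟩
      refine generated_of_pow hm2 hn2 hodd h ?_ h0' hN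
      intro h3
      rcases (Nat.Prime.dvd_mul Nat.prime_two).1 h3 with h4 | h4
      · exact hm' h4
      · exact (Nat.not_even_iff_odd.2 hK) (even_iff_two_dvd.2 h4)
    · -- the degree is odd
      obtain ⟨N, hN⟩ := PP_pow_over (K := K) (k := k) (R0 := m) (t := 1) (B := B0)
        (fun ℓ _ hd => exists_w i0 ((dvd_mul_left _ _).trans hd)) hodd (by rw [one_mul]) (by
          have h3 : ∀ i, ∀ᶠ v : HeightOneSpectrum (𝓞 K) in cofinite, c i ∉ v.asIdeal := fun i =>
            eventually_notMem (h0 _ (hmem i)).2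
          filter_upwards [eventually_all.2 h3] with v hv ℓ _ _ _ F _ φ _ hker i
          refine ⟨φ (c i), fun h4 => hv i ?_, (pow_one _).symm⟩
          rw [← hker, RingHom.mem_ker]
          exact h4) hR'
      have hRne : NeZero (m * Module.finrank k K) := ⟨mul_ne_zero hm.ne' hK0⟩
      refine generated_of_pow hm2 hn2 hodd h ?_ h0' hN
      intro h3
      rcases (Nat.Prime.dvd_mul Nat.prime_two).1 h3 with h4 | h4
      · exact h2 h4
      · exact (Nat.not_even_iff_odd.2 hK) (even_iff_two_dvd.2 h4)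

end main

end Run7.h365.TD
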