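import Pool.Agent.Run7.h365.FV.Tate

/-!
# The Jacobi sums modulo a prime of the degree
-/

set_option autoImplicit false
set_option linter.unusedSectionVars false

namespace Run7.h365.TD

open Finset NumberField IsDedekindDomain
open Run7.h365.FV

section char

variable {κ : Type} [Field κ] [Fintype κ] [DecidableEq κ]

/-- a root of unity of `q`-power order in characteristic `q` -/
theorem eq_one_of_pow {k : Type} [Field k] {q e : ℕ} [Fact q.Prime] [CharP k q] {x : k}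
    (h : x ^ q ^ e = 1) : x = 1 := by
  have h1 : (x - 1) ^ q ^ e = 0 := by
    rw [sub_pow_char_pow, h, one_pow, sub_self]
  exact sub_eq_zero.1 (pow_eq_zero_iff (pow_ne_zero _ (Fact.out : q.Prime).ne_zero) |>.1 h1)

/-- the Jacobi sums depend on the exponents modulo the order -/
theorem PP_low {k : Type} [Field k] {m M n : ℕ} [NeZero m] [NeZero M] (hM : M ∣ m) (hn : n ≠ 0)
    {ω : MulChar κ k} (hω : ω ^ M = 1) (hcard : (Fintype.card κ : k) = 1) (b : Fin n → ZMod m) :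
    PP ω b = PP ω (fun i => ZMod.castHom hM (ZMod M) (b i)) := by
  unfold PP JJ
  rw [hcard, sub_self, zero_pow hn, ite_self, ite_self]
  congr 2
  refine sum_congr rfl fun v _ => ?_
  congr 1
  refine prod_congr rfl fun i _ => ?_
  congr 1
  have h1 : (b i).val ≡ (ZMod.castHom hM (ZMod M) (b i)).val [MOD M] := by
    rw [← ZMod.natCast_eq_natCast_iff, ZMod.natCast_zmod_val]
    conv_rhs => rw [← ZMod.natCast_zmod_val (b i)]
    rw [map_natCast]
  have h2 : ∀ a : ℕ, ω ^ a = ω ^ (a % M) := by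
    intro a
    conv_lhs => rw [← Nat.mod_add_div a M, pow_add, pow_mul, hω, one_pow, mul_one]
  rw [h2, h2 (ZMod.castHom hM (ZMod M) (b i)).val]
  congr 1

end char

/-- **The Jacobi sums modulo a prime of the degree.** -/
theorem res_pow {m M q e n R N : ℕ} [NeZero m] [NeZero M] [Fact q.Prime] (hqM : q.Coprime M)
    (he : 0 < e) (hm : M * q ^ e = m) (hM : M ∣ m) {k : Type} [Field k] [CharP k q]
    (ρ : 𝓞 (LL m) →+* k) (j : 𝓞 (LL M) →+* 𝓞 (LL m)) (hj : Function.Injective j)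
    {b : Fin n → ZMod m} (hn : n ≠ 0)
    (hR : ∀ ℓ : ℕ, N < ℓ → ∀ [Fact ℓ.Prime], m ∣ ℓ - 1 → ∀ χ : MulChar (ZMod ℓ) ℂ,
      orderOf χ = m → PP χ b ^ R = ((ℓ : ℂ) ^ ((n + 1) / 2)) ^ R)
    {ℓ : ℕ} [hℓp : Fact ℓ.Prime] (hℓ : N < ℓ) (hmℓ : m ∣ ℓ - 1) (u : 𝓞 (LL M) →+* ZMod ℓ)
    (v : HeightOneSpectrum (𝓞 (LL M))) (hv : RingHom.ker u = v.asIdeal) :
    ρ (j (Pv M n v (fun i => ZMod.castHom hM (ZMod M) (b i)))) ^ R = 1 := by
  classical
  obtain ⟨ζ, hζ⟩ := exists_zeta M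
  obtain ⟨ζ', hζ'⟩ := exists_zeta m
  have hl1 := hℓp.out.one_lt
  have hMu : (M : ZMod ℓ) ≠ 0 := by
    rw [Ne, ZMod.natCast_eq_zero_iff]
    intro h
    have h1 : M ≤ ℓ - 1 := Nat.le_of_dvd (by omega) (hM.trans hmℓ)
    have h2 := Nat.le_of_dvd (NeZero.pos M) h
    omega
  have hMv : (M : 𝓞 (LL M)) ∉ v.asIdeal := by
    rw [← hv, RingHom.mem_ker, map_natCast]
    exact hMu
  obtain ⟨χ', hχ'⟩ := exists_isRes hζ u hMu
  have hP := isP_Pv (n := n) hζ v hMv (ZMod ℓ) u (ZMod.ringHom_surjective u) hv χ' hχ'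
  rw [hP]
  -- the characters
  have hcard : m ∣ Fintype.card (ZMod ℓ) - 1 := by rw [ZMod.card]; exact hmℓ
  obtain ⟨χ1, hχ1⟩ := MulChar.exists_mulChar_orderOf (ZMod ℓ) hcard hζ'
  set χa := χ'.ringHomComp j with hχa
  have hoa : orderOf χa = M := (orderOf_comp hj _).trans hχ'.1
  have hob : orderOf (χ1 ^ M) = q ^ e := by
    rw [orderOf_pow_of_dvd (NeZero.ne M) (by rw [hχ1]; exact hM), hχ1, ← hm]
    exact Nat.mul_div_cancel_left _ (NeZero.pos M)
  have ho : orderOf (χa * χ1 ^ M) = m := by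
    rw [(Commute.all χa (χ1 ^ M)).orderOf_mul_eq_mul_orderOf_of_coprime, hoa, hob, hm]
    rw [hoa, hob]
    exact (Nat.Coprime.pow_left e hqM).symm
  obtain ⟨f, hf⟩ := exists_complex (LL m)
  have h1 : PP (χa * χ1 ^ M) b ^ R = ((ℓ : 𝓞 (LL m)) ^ ((n + 1) / 2)) ^ R := by
    apply hf
    have h2 := hR ℓ hℓ hmℓ ((χa * χ1 ^ M).ringHomComp f) ((orderOf_comp hf _).trans ho)
    rw [PP_map] at h2
    rw [map_pow, h2, map_pow, map_pow, map_natCast]
  have h3 := congrArg ρ h1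
  rw [map_pow, ← PP_map, map_pow, map_pow, map_natCast] at h3
  have hl : (ℓ : k) = 1 := by
    have h4 : q ∣ ℓ - 1 := by
      refine dvd_trans ?_ hmℓ
      rw [← hm]
      exact (dvd_pow_self q he.ne').mul_left M
    have h5 := (CharP.cast_eq_zero_iff k q (ℓ - 1)).2 h4
    rw [Nat.cast_sub hl1.le, Nat.cast_one, sub_eq_zero] at h5
    exact h5
  rw [hl, one_pow, one_pow] at h3
  -- the reduction of the characters
  have h4 : (χa * χ1 ^ M).ringHomComp ρ = χ'.ringHomComp (ρ.comp j) := by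
    refine MulChar.ext fun x => ?_
    rw [MulChar.ringHomComp_apply, MulChar.ringHomComp_apply, MulChar.mul_apply, map_mul]
    have h5 : ρ ((χ1 ^ M) x) = 1 := by
      refine eq_one_of_pow (q := q) (e := e) ?_
      rw [← map_pow, ← chi_pow x.ne_zero, ← hob, pow_orderOf_eq_one, MulChar.one_apply_coe, map_one]
    rw [h5, mul_one]
    rfl
  rw [h4] at h3
  have hω : (χ'.ringHomComp (ρ.comp j)) ^ M = 1 := by
    have h5 : χ' ^ M = 1 := by
      have := pow_orderOf_eq_one χ'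
      rwa [hχ'.1] at this
    rw [MulChar.ringHomComp_pow, h5]
    refine MulChar.ext fun x => ?_
    rw [MulChar.ringHomComp_apply, MulChar.one_apply_coe, MulChar.one_apply_coe, map_one]
  rw [PP_low hM hn hω (by rw [ZMod.card]; exact hl), PP_map] at h3
  exact h3

end Run7.h365.TD
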