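import Pool.Agent.Run7.h365.TD.Str

/-!
# The structure of the relations with three odd prime factors
-/

set_option autoImplicit false
set_option linter.unusedSectionVars false

namespace Run7.h365.TD

open Finset Pool.Agent.H916K Pool.Agent.H916R2

section tst

variable {p q : ℕ} [hp : Fact p.Prime] [hq : Fact q.Prime]

theorem castHom_ee_fst (hpq : p ≠ q) (z : ZMod (p * q)) :
    ZMod.castHom (dvd_mul_right p q) (ZMod p) z = (ee hpq z).1 := by
  conv_lhs => rw [← ZMod.natCast_zmod_val z]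
  conv_rhs => rw [← ZMod.natCast_zmod_val z]
  rw [map_natCast, ee_natCast]

theorem castHom_ee_snd (hpq : p ≠ q) (z : ZMod (p * q)) :
    ZMod.castHom (dvd_mul_left q p) (ZMod q) z = (ee hpq z).2 := by
  conv_lhs => rw [← ZMod.natCast_zmod_val z]
  conv_rhs => rw [← ZMod.natCast_zmod_val z]
  rw [map_natCast, ee_natCast]

/-- the points of the second axis -/
theorem ee_symm_axis (hpq : p ≠ q) (v : ZMod q) :
    (ee hpq).symm ((0 : ZMod p), v) = iota p ((p : ZMod q)⁻¹ * v) := by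
  have hp' := pq_ne (p := q) (q := p) (fun h => hpq h.symm)
  rw [RingEquiv.symm_apply_eq]
  unfold iota
  rw [ee_natCast]
  push_cast
  rw [ZMod.natCast_zmod_val, CharP.cast_eq_zero, zero_mul, mul_inv_cancel_left₀ hp']

theorem vd_axis (hpq : p ≠ q) (u₁ : ZMod p) (ν v : ZMod q) :
    vd ((ee hpq).symm (u₁, ν)) ((ee hpq).symm ((0 : ZMod p), v)) =
      (p : ℤ) * vd ν ((p : ZMod q)⁻¹ * v) := by
  have hval : ∀ y : ZMod q, ((iota p y : ZMod (p * q)).val : ℤ) = p * y.val := by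
    intro y
    unfold iota
    rw [ZMod.val_natCast, Nat.mod_eq_of_lt (Nat.mul_lt_mul_of_pos_left (ZMod.val_lt y) hp.out.pos)]
    push_cast; rfl
  unfold vd
  rw [← map_mul, Prod.mk_mul_mk, mul_zero, ee_symm_axis, ee_symm_axis, hval, hval]
  have h1 : (p : ZMod q)⁻¹ * (ν * v) = ν * ((p : ZMod q)⁻¹ * v) := by ring
  rw [h1]
  ring

/-- the test function -/
theorem exists_tst {r : ℕ} (hr : r.Prime) (hpq : p ≠ q) (hp2 : p ≠ 2) (hq2 : q ≠ 2)
    (hrq : r ≠ q)
    {M m m0 k1 c d C0 e k : ℕ} [NeZero M] [NeZero m0] (hM : M ∣ m) (hc : c ≠ 0)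
    (hk1 : k1 * (p * q) = M) (hkc : d * k1 = c * C0) (hC0 : ¬ 2 ∣ C0) (hk : k = k1 * r ^ e)
    (hM0 : p * q ∣ m0) (hp0 : p ∣ m0) (hq0 : q ∣ m0) (hkm : k * m0 = m) (hrM : r.Coprime M) :
    ∃ (w : (ZMod M)ˣ) (H : ZMod p → ZMod q → ℤ),
      Tst r ((r ^ orderOf (r : ZMod M) - 1 : ℕ) : ℤ) H ∧
      ∀ h : ZMod M → ℤ, (∀ x, (c : ℤ) * h x = (d : ℤ) * vd (w : ZMod M) x) → ∀ b : ZMod m0,
        lft hM (r ^ orderOf (r : ZMod M) - 1) (PH r (orderOf (r : ZMod M)) h) (iota k b) =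
          ((H (ZMod.castHom hp0 (ZMod p) b) (ZMod.castHom hq0 (ZMod q) b) : ℤ) :
            ZMod (r ^ orderOf (r : ZMod M) - 1)) := by
  classical
  have hpM : p * q ∣ M := Dvd.intro_left k1 hk1
  obtain ⟨ν, hν⟩ := exists_nonsquare (p := q) hq2
  have hν0 := ne_zero_of_nonsquare hν
  have hu : IsUnit ((ee hpq).symm ((1 : ZMod p), ν)) := by
    refine IsUnit.map _ ?_
    rw [Prod.isUnit_iff]
    exact ⟨isUnit_one, isUnit_iff_ne_zero.2 hν0⟩
  obtain ⟨w, hw⟩ := ZMod.unitsMap_surjective hpM hu.unit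
  set w0 : ZMod (p * q) := (ee hpq).symm ((1 : ZMod p), ν) with hw0
  have hw' : ZMod.castHom hpM (ZMod (p * q)) (w : ZMod M) = w0 := by
    have h1 := congrArg Units.val hw
    rw [ZMod.unitsMap_val] at h1
    exact h1
  set f := orderOf (r : ZMod M) with hf
  have hf0 : (r : ZMod (p * q)) ^ f = 1 := pow_order_low hpM
  have hrpq : r.Coprime (p * q) := Nat.Coprime.coprime_dvd_right hpM hrM
  set R : (ZMod (p * q))ˣ := ZMod.unitOfCoprime r hrpq with hR
  have hRc : (R : ZMod (p * q)) = (r : ZMod (p * q)) := ZMod.coe_unitOfCoprime r hrpq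
  -- the distribution on the level `p q`
  set P : ZMod (p * q) → ℤ := fun x => (C0 : ℤ) • PH r f (vd w0) (((R ^ e : (ZMod (p * q))ˣ) : ZMod (p * q)) * x)
    with hP
  have hwu : (hu.unit : ZMod (p * q)) = w0 := rfl
  have hPd : OddDist P := by
    refine oddDist_smul ?_ _
    refine comp_unit ?_ (R ^ e)
    exact oddDist_PH hrpq (by rw [← hwu]; exact oddDist_vd _)
  have hPmul : ∀ x, P ((r : ZMod (p * q)) * x) = (r : ℤ) * P x - ((r : ℤ) ^ f - 1) *
      ((C0 : ℤ) * vd w0 (((R ^ (e + 1) : (ZMod (p * q))ˣ) : ZMod (p * q)) * x)) := by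
    intro x
    simp only [hP, smul_eq_mul]
    have h1 : ((R ^ e : (ZMod (p * q))ˣ) : ZMod (p * q)) * ((r : ZMod (p * q)) * x) =
        (r : ZMod (p * q)) * (((R ^ e : (ZMod (p * q))ˣ) : ZMod (p * q)) * x) := by ring
    rw [h1, PH_mul hf0]
    have h2 : (r : ZMod (p * q)) * (((R ^ e : (ZMod (p * q))ˣ) : ZMod (p * q)) * x) =
        ((R ^ (e + 1) : (ZMod (p * q))ˣ) : ZMod (p * q)) * x := by
      rw [Units.val_pow_eq_pow_val, Units.val_pow_eq_pow_val, hRc]; ring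
    rw [h2]
    ring
  have hD2 := two_d2 hpq hPd
  have hcoord : ∀ (n : ℕ) (u : ZMod p) (v : ZMod q), (n : ZMod (p * q)) * (ee hpq).symm (u, v) =
      (ee hpq).symm ((n : ZMod p) * u, (n : ZMod q) * v) := by
    intro n u v
    rw [RingEquiv.eq_symm_apply, map_mul, ee_natCast, RingEquiv.apply_symm_apply, Prod.mk_mul_mk]
  have hRpow : ∀ i : ℕ, ((R ^ i : (ZMod (p * q))ˣ) : ZMod (p * q)) = ((r ^ i : ℕ) : ZMod (p * q)) := by
    intro i
    rw [Units.val_pow_eq_pow_val, hRc]; push_cast; rfl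
  have hvd0 : ∀ u : ZMod p, vd w0 ((ee hpq).symm (u, (0 : ZMod q))) = 0 := by
    intro u
    unfold vd
    rw [hw0, ← map_mul, Prod.mk_mul_mk, one_mul, mul_zero, sub_self]
  have hzero : ∀ u : ZMod p, two hpq P u 0 = 0 := by
    intro u
    simp only [two, hP]
    have h1 : PH r f (vd w0) (((R ^ e : (ZMod (p * q))ˣ) : ZMod (p * q)) * (ee hpq).symm (u, (0 : ZMod q))) = 0 := by
      unfold PH
      refine sum_eq_zero fun j _ => ?_
      have h2 : (r : ZMod (p * q)) ^ (f - j) = ((r ^ (f - j) : ℕ) : ZMod (p * q)) := by push_cast; rfl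
      rw [hRpow, hcoord, h2, hcoord, mul_zero, mul_zero, hvd0, mul_zero]
    rw [h1, smul_zero]
  refine ⟨w, two hpq P, ⟨?_, ?_, hzero, ?_, ?_, ?_, ?_⟩, ?_⟩
  · rw [cast_D hr.pos]
    exact D_ne hr hrM
  · exact hD2.neg
  · exact hD2.dp
  · intro u
    rw [hD2.dq, hzero]
  · intro u v
    rw [cast_D hr.pos]
    have h1 : two hpq P ((r : ZMod p) * u) ((r : ZMod q) * v) = P ((r : ZMod (p * q)) * (ee hpq).symm (u, v)) := by
      simp only [two]
      rw [hcoord]
    rw [h1, hPmul]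
    simp only [two]
    exact ⟨(C0 : ℤ) * vd w0 (((R ^ (e + 1) : (ZMod (p * q))ˣ) : ZMod (p * q)) * (ee hpq).symm (u, v)),
      by ring⟩
  · have hpz := pq_ne (p := q) (q := p) (fun h => hpq h.symm)
    have hrz : (r : ZMod q) ≠ 0 := by
      rw [Ne, ZMod.natCast_eq_zero_iff]
      intro h
      exact hrq ((Nat.prime_dvd_prime_iff_eq hq.out hr).mp h).symm
    refine ⟨ν, (p : ZMod q)⁻¹ * (r : ZMod q) ^ (e + 1), (C0 : ℤ) * p, hν,
      mul_ne_zero (inv_ne_zero hpz) (pow_ne_zero _ hrz), ?_, ?_⟩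
    · intro h
      have h1 : 2 ∣ C0 * p := by exact_mod_cast h
      rcases (Nat.Prime.dvd_mul Nat.prime_two).1 h1 with h2 | h2
      · exact hC0 h2
      · exact hp2 ((Nat.prime_dvd_prime_iff_eq Nat.prime_two hp.out).mp h2).symm
    · intro v
      rw [cast_D hr.pos]
      have h1 : two hpq P 0 ((r : ZMod q) * v) = P ((r : ZMod (p * q)) * (ee hpq).symm ((0 : ZMod p), v)) := by
        simp only [two]
        rw [hcoord, mul_zero]
      rw [h1, hPmul, hRpow, hcoord, mul_zero, hw0, vd_axis]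
      have h2 : (p : ZMod q)⁻¹ * (((r ^ (e + 1) : ℕ) : ZMod q) * v) =
          (p : ZMod q)⁻¹ * (r : ZMod q) ^ (e + 1) * v := by push_cast; ring
      rw [h2]
      simp only [two]
      ring
  · intro h hh b
    rw [lft_iota (M0 := p * q) (q := r) (e := e) hM hc hk1 hkc hk hM0 hw' hh f _ b hkm]
    have h1 : (ee hpq).symm (ZMod.castHom hp0 (ZMod p) b, ZMod.castHom hq0 (ZMod q) b) =
        ZMod.castHom hM0 (ZMod (p * q)) b := by
      rw [RingEquiv.symm_apply_eq]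
      have h2 : b = ((b.val : ℕ) : ZMod m0) := (ZMod.natCast_zmod_val b).symm
      rw [h2, map_natCast, map_natCast, map_natCast, ee_natCast]
    congr 1
    simp only [two, hP, smul_eq_mul]
    rw [h1, hRpow]
    push_cast
    rfl

end tst

section coord

variable {p q r : ℕ} [hp : Fact p.Prime] [hq : Fact q.Prime] [hr : Fact r.Prime]
variable (hpq : p ≠ q) (hpr : p ≠ r) (hqr : q ≠ r)

theorem cast_e3_1 (h : p ∣ p * q * r) (u : ZMod p) (v : ZMod q) (w : ZMod r) :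
    ZMod.castHom h (ZMod p) ((e3 hpq hpr hqr).symm ((u, v), w)) = u := by
  have h1 : ∀ z, ZMod.castHom h (ZMod p) z = (e3 hpq hpr hqr z).1.1 := by
    intro z
    conv_lhs => rw [← ZMod.natCast_zmod_val z]
    conv_rhs => rw [← ZMod.natCast_zmod_val z]
    rw [map_natCast, e3_natCast]
  rw [h1, RingEquiv.apply_symm_apply]

theorem cast_e3_2 (h : q ∣ p * q * r) (u : ZMod p) (v : ZMod q) (w : ZMod r) :
    ZMod.castHom h (ZMod q) ((e3 hpq hpr hqr).symm ((u, v), w)) = v := by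
  have h1 : ∀ z, ZMod.castHom h (ZMod q) z = (e3 hpq hpr hqr z).1.2 := by
    intro z
    conv_lhs => rw [← ZMod.natCast_zmod_val z]
    conv_rhs => rw [← ZMod.natCast_zmod_val z]
    rw [map_natCast, e3_natCast]
  rw [h1, RingEquiv.apply_symm_apply]

theorem cast_e3_3 (h : r ∣ p * q * r) (u : ZMod p) (v : ZMod q) (w : ZMod r) :
    ZMod.castHom h (ZMod r) ((e3 hpq hpr hqr).symm ((u, v), w)) = w := by
  have h1 : ∀ z, ZMod.castHom h (ZMod r) z = (e3 hpq hpr hqr z).2 := by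
    intro z
    conv_lhs => rw [← ZMod.natCast_zmod_val z]
    conv_rhs => rw [← ZMod.natCast_zmod_val z]
    rw [map_natCast, e3_natCast]
  rw [h1, RingEquiv.apply_symm_apply]

end coord

section main

variable {p q r : ℕ} [hp : Fact p.Prime] [hq : Fact q.Prime] [hr : Fact r.Prime]

/-- one face -/
theorem exists_face (hpq : p ≠ q) (hpr : p ≠ r) (hqr : q ≠ r) (hp2 : p ≠ 2) (hq2 : q ≠ 2)
    (hr2 : r ≠ 2) {a b d c D' m k m0 : ℕ} [NeZero m] [NeZero m0] (hc : c = 1 ∨ c = 2)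
    (hm : c * (p ^ (a + 1) * q ^ (b + 1) * r ^ (d + 1)) = m) (hk : k * m0 = m)
    (hm0 : m0 = p * q * r) {s : Multiset (ZMod m)} (hD : ¬ 2 ∣ D') (hA : Ar D' m s) (hp0 : p ∣ m0)
    (hq0 : q ∣ m0) :
    ∃ (D : ℕ) (H : ZMod p → ZMod q → ℤ) (π : ZMod m → ZMod D), Tst r (D : ℤ) H ∧ OddDist π ∧
      (s.map π).sum = 0 ∧ ∀ b : ZMod m0, π (iota k b) =
        ((H (ZMod.castHom hp0 (ZMod p) b) (ZMod.castHom hq0 (ZMod q) b) : ℤ) : ZMod D) := by
  have hc0 : 0 < c := by rcases hc with rfl | rfl <;> norm_num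
  obtain ⟨M, hMdef⟩ : ∃ M, M = c * (p ^ (a + 1) * q ^ (b + 1)) := ⟨_, rfl⟩
  have hMm : M * r ^ (d + 1) = m := by rw [hMdef, ← hm]; ring
  have hM : M ∣ m := Dvd.intro _ hMm
  have hM0 : NeZero M := ⟨by
    rw [hMdef]; have := hp.out.pos; have := hq.out.pos; positivity⟩
  have hcop : r.Coprime M := by
    rw [hMdef]
    apply Nat.Coprime.mul_right
    · rcases hc with rfl | rfl
      · exact Nat.coprime_one_right r
      · exact (Nat.coprime_primes hr.out Nat.prime_two).mpr hr2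
    · exact Nat.Coprime.mul_right (((Nat.coprime_primes hr.out hp.out).mpr hpr.symm).pow_right _)
        (((Nat.coprime_primes hr.out hq.out).mpr hqr.symm).pow_right _)
  have hcM : c ∣ M := by rw [hMdef]; exact dvd_mul_right _ _
  have hk1 : (c * (p ^ a * q ^ b)) * (p * q) = M := by rw [hMdef]; ring
  have hkk : k = (c * (p ^ a * q ^ b)) * r ^ d := by
    apply Nat.eq_of_mul_eq_mul_right (Nat.mul_pos (Nat.mul_pos hp.out.pos hq.out.pos) hr.out.pos)
    rw [← hm0, hk, ← hm, hm0]; ring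
  have hC0 : ¬ 2 ∣ D' * (p ^ a * q ^ b) := by
    intro h3
    have h6 : Odd D' := Nat.not_even_iff_odd.1 fun h => hD (even_iff_two_dvd.1 h)
    have h5 : Odd (D' * (p ^ a * q ^ b)) :=
      h6.mul (((hp.out.odd_of_ne_two hp2).pow).mul ((hq.out.odd_of_ne_two hq2).pow))
    exact (Nat.not_even_iff_odd.2 h5) (even_iff_two_dvd.2 h3)
  have hpqm : p * q ∣ m0 := by rw [hm0]; exact dvd_mul_right _ _
  obtain ⟨w, H, hT, hH⟩ := exists_tst hr.out hpq hp2 hq2 hqr.symm (M := M) (m := m) (m0 := m0)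
    (k := k) (d := D') (c := c) hM hc0.ne' hk1 (by ring) hC0 hkk hpqm hp0 hq0 hk hcop
  obtain ⟨h, hh⟩ := exists_h hc hcM D' w
  exact ⟨_, H, _, hT, oddDist_pi hM hr.out hcop hMm hc0.ne' w hh,
    sum_pi hM hr.out (hA.div hM hr.out hcop hMm (Nat.succ_pos d) hc0.ne' hcM w hh), hH h hh⟩

/-- **Structure, three primes.** -/
theorem structure_three (hp2 : p ≠ 2) (hq2 : q ≠ 2) (hr2 : r ≠ 2) (hpq : p ≠ q) (hpr : p ≠ r)
    (hqr : q ≠ r) {a b d c D' m : ℕ} (ha : 0 < a) (hb : 0 < b) (hd : 0 < d)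
    (hc : c = 1 ∨ c = 2) (hm : c * (p ^ a * q ^ b * r ^ d) = m) {s : Multiset (ZMod m)}
    (hs : IsHodge m s) (hne : s ≠ 0) (hD : ¬ 2 ∣ D') (hA : Ar D' m s) :
    Generated m (fun _ => False) s := by
  classical
  have hc0 : 0 < c := by rcases hc with rfl | rfl <;> norm_num
  have hm0 : 0 < m := by
    rw [← hm]; have := hp.out.pos; have := hq.out.pos; have := hr.out.pos; positivity
  have : NeZero m := ⟨hm0.ne'⟩
  obtain ⟨k, hk, hred⟩ := exists_red_three hp.out hq.out hr.out hp2 hq2 hr2 ha hb hd hc hm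
  obtain ⟨a', rfl⟩ : ∃ a', a = a' + 1 := ⟨a - 1, by omega⟩
  obtain ⟨b', rfl⟩ : ∃ b', b = b' + 1 := ⟨b - 1, by omega⟩
  obtain ⟨d', rfl⟩ : ∃ d', d = d' + 1 := ⟨d - 1, by omega⟩
  have dp : p ∣ p * q * r := (dvd_mul_right p q).mul_right r
  have dq : q ∣ p * q * r := (dvd_mul_left q p).mul_right r
  have dr : r ∣ p * q * r := dvd_mul_left r _
  obtain ⟨D0, H0, π0, t0, o0, z0, v0⟩ := exists_face hpq hpr hqr hp2 hq2 hr2 (a := a') (b := b')
    (d := d') hc hm hk rfl hD hA dp dq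
  obtain ⟨D1, H1, π1, t1, o1, z1, v1⟩ := exists_face (p := q) (q := r) (r := p) hqr
    (fun h => hpq h.symm) (fun h => hpr h.symm) hq2 hr2 hp2 (a := b') (b := d')
    (d := a') hc (by rw [← hm]; ring) hk (by ring) hD hA dq dr
  obtain ⟨D2, H2, π2, t2, o2, z2, v2⟩ := exists_face (p := r) (q := p) (r := q)
    (fun h => hpr h.symm) (fun h => hqr h.symm) hpq hr2 hp2 hq2 (a := d') (b := a')
    (d := b') hc (by rw [← hm]; ring) hk (by ring) hD hA dr dp
  obtain ⟨x0, hx0, h1, k0, k1, k2⟩ := red_quad hred (cQ_oddDist (base := fun _ => False)) o0 o1 o2 hs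
  rw [z0] at k0
  rw [z1] at k1
  rw [z2] at k2
  rw [sum_th hpq hpr hqr] at k0 k1 k2
  have h6 := three_even hp2 hq2 hr2 hpq hpr hqr (rel_three hpq hpr hqr hx0) t0 t1 t2
    (by
      rw [k0]
      refine sum_congr rfl fun u _ => sum_congr rfl fun v _ => sum_congr rfl fun w _ => ?_
      simp only [th]
      rw [v0, cast_e3_1 hpq hpr hqr, cast_e3_2 hpq hpr hqr])
    (by
      rw [k1]
      refine sum_congr rfl fun u _ => sum_congr rfl fun v _ => sum_congr rfl fun w _ => ?_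
      simp only [th]
      rw [v1, cast_e3_2 hpq hpr hqr, cast_e3_3 hpq hpr hqr])
    (by
      rw [k2]
      refine sum_congr rfl fun u _ => sum_congr rfl fun v _ => sum_congr rfl fun w _ => ?_
      simp only [th]
      rw [v2, cast_e3_3 hpq hpr hqr, cast_e3_1 hpq hpr hqr])
    (th_d3 hpq hpr hqr (cQ_oddDist (base := fun _ => False).comp_iota hk))
  rw [sum_th hpq hpr hqr] at h1
  have h9 : ∑ u, ∑ v, ∑ w, th hpq hpr hqr (fun b => x0 b • cQ m (fun _ => False) (iota k b)) u v w =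
    0 := h6
  rw [h9, cQ_sum, QuotientAddGroup.eq_zero_iff] at h1
  exact generated_of_mem_LL (fun _ h => h.elim) (fun _ h => h.elim) hs.1 hs.2.1 hne h1

end main

end Run7.h365.TD
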