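import Pool.Agent.Run7.h365.TD.Gen
import Pool.Agent.Run7.h365.TD.Red
import Pool.Agent.Run7.h365.TD.Str3

/-!
# The arithmetic condition for the rational characters
-/

set_option autoImplicit false
set_option linter.unusedSectionVars false

namespace Run7.h365.TD

open Finset NumberField IsDedekindDomain Filter
open Run7.h365.FV
open Run7.h365.CM.T (eventually_coprime)

section incl

open Polynomial

/-- the inclusion of cyclotomic fields -/
theorem exists_incl {M m : ℕ} [NeZero M] [NeZero m] (hM : M ∣ m) : Nonempty (LL M →+* LL m) := by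
  have hz := IsCyclotomicExtension.zeta_spec M ℚ (LL M)
  have hy := IsCyclotomicExtension.zeta_spec m ℚ (LL m)
  obtain ⟨k, hk⟩ := hM
  have hy' := hy.pow (a := k) (b := M) (NeZero.pos m) (by rw [hk, Nat.mul_comm])
  set y := (IsCyclotomicExtension.zeta m ℚ (LL m)) ^ k with hydef
  refine ⟨((hz.powerBasis ℚ).lift y ?_ : LL M →ₐ[ℚ] LL m)⟩
  rw [IsPrimitiveRoot.powerBasis_gen, ← cyclotomic_eq_minpoly_rat hz (NeZero.pos M), aeval_def,
    eval₂_eq_eval_map, map_cyclotomic]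
  exact hy'.isRoot_cyclotomic (NeZero.pos M)

end incl

/-- a model of the residue field at a prime of degree one -/
theorem exists_u {F : Type} [Field F] [NumberField F] (v : HeightOneSpectrum (𝓞 F))
    (h : (Ideal.absNorm v.asIdeal).Prime) :
    ∃ u : 𝓞 F →+* ZMod (Ideal.absNorm v.asIdeal), RingHom.ker u = v.asIdeal := by
  obtain ⟨κ, _, _, _, φ, hφ, hker, hcard⟩ := exists_model v
  let e := ZMod.ringEquivOfPrime κ h hcard
  refine ⟨(e.symm : κ →+* ZMod (Ideal.absNorm v.asIdeal)).comp φ, Eq.trans ?_ hker⟩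
  ext x
  rw [RingHom.mem_ker, RingHom.mem_ker, RingHom.comp_apply]
  exact map_eq_zero_iff e.symm e.symm.injective

/-- **The divisibility for a tuple.** -/
theorem arith_tuple {m M q e n R N : ℕ} [NeZero m] [NeZero M] [NeZero R] [hq : Fact q.Prime]
    (hqM : q.Coprime M) (he : 0 < e) (hm : M * q ^ e = m) (hM : M ∣ m) (hn : 2 ≤ n) (hodd : Odd n)
    {b : Fin n → ZMod m}
    (hR : ∀ ℓ : ℕ, N < ℓ → ∀ [Fact ℓ.Prime], m ∣ ℓ - 1 → ∀ χ : MulChar (ZMod ℓ) ℂ,
      orderOf χ = m → PP χ b ^ R = ((ℓ : ℂ) ^ ((n + 1) / 2)) ^ R) (w : (ZMod M)ˣ) :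
    (M : ℤ) * ((q : ℤ) ^ orderOf (q : ZMod M) - 1) ∣
      (R : ℤ) * (SS q (orderOf (q : ZMod M)) (fun i => ZMod.castHom hM (ZMod M) (b i)) (w : ZMod M) -
        SS q (orderOf (q : ZMod M)) (fun i => ZMod.castHom hM (ZMod M) (b i)) 1) := by
  classical
  obtain ⟨ζ, hζ⟩ := exists_zeta M
  obtain ⟨j'⟩ := exists_incl (M := M) (m := m) hM
  set j : 𝓞 (LL M) →+* 𝓞 (LL m) := RingOfIntegers.mapRingHom j' with hj
  have hji : Function.Injective j := by
    intro x y hxy
    apply RingOfIntegers.ext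
    apply j'.injective
    exact congrArg (fun z : 𝓞 (LL m) => (z : LL m)) hxy
  obtain ⟨w0, hw0⟩ := exists_above (F := LL m) q
  obtain ⟨κ, _, _, _, ρ, -, hker, -⟩ := exists_model w0
  have hchar : CharP κ q := by
    have hp0 : (q : κ) = 0 := by
      have h1 : (q : 𝓞 (LL m)) ∈ RingHom.ker ρ := by rw [hker]; exact hw0
      rwa [RingHom.mem_ker, map_natCast] at h1
    have h1 := ringChar.spec κ q
    have h2 : ringChar κ ∣ q := (h1).1 hp0
    have h3 : ringChar κ ≠ 1 := CharP.ringChar_ne_one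
    have h4 : ringChar κ = q := ((Nat.dvd_prime Fact.out).1 h2).resolve_left h3
    rw [← h4]
    exact ringChar.charP κ
  refine div_pos hζ hn hodd he.ne' hqM _ (ρ.comp j) R ?_ w
  have h0 : Ideal.span {((N.factorial * M : ℕ) : 𝓞 (LL M))} ≠ ⊥ := by
    rw [Ne, Ideal.span_singleton_eq_bot]
    exact_mod_cast mul_ne_zero N.factorial_ne_zero (NeZero.ne M)
  filter_upwards [eventually_coprime h0] with v hv hprime hone
  obtain ⟨ℓ, hℓ⟩ : ∃ ℓ, ℓ = Ideal.absNorm v.asIdeal := ⟨_, rfl⟩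
  have hu' : ∃ u : 𝓞 (LL M) →+* ZMod ℓ, RingHom.ker u = v.asIdeal := by
    rw [hℓ]
    exact exists_u v hprime
  rw [← hℓ] at hprime hone
  have hprime' : Fact ℓ.Prime := ⟨hprime⟩
  have hℓv : (ℓ : 𝓞 (LL M)) ∈ v.asIdeal := by
    rw [hℓ]; exact Ideal.absNorm_mem v.asIdeal
  have hnd : ¬ ℓ ∣ N.factorial * M := by
    rintro ⟨c, hc⟩
    rw [Ideal.isCoprime_iff_sup_eq] at hv
    apply v.isPrime.ne_top
    rw [← hv]
    symm
    rw [sup_eq_left, Ideal.span_singleton_le_iff_mem, hc]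
    push_cast
    exact v.asIdeal.mul_mem_right _ hℓv
  have hℓN : N < ℓ := by
    by_contra hle
    exact hnd ((hprime.dvd_factorial.2 (not_lt.1 hle)).mul_right M)
  have hℓM : ¬ ℓ ∣ M := fun h => hnd (h.mul_left _)
  obtain ⟨u, hu⟩ := hu'
  have hMu : (M : ZMod ℓ) ≠ 0 := by
    rw [Ne, ZMod.natCast_eq_zero_iff]
    exact hℓM
  have hMv : (M : 𝓞 (LL M)) ∉ v.asIdeal := by
    rw [← hu, RingHom.mem_ker, map_natCast]
    exact hMu
  have h1 : M ∣ ℓ - 1 := by
    have := dvd_card hζ u hMu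
    rwa [ZMod.card] at this
  have h2 : q ^ e ∣ ℓ - 1 := by
    have h3 : ((ℓ : ℕ) : ZMod (q ^ e)) = ((1 : ℕ) : ZMod (q ^ e)) := by
      rw [hone, Nat.cast_one]
    rw [ZMod.natCast_eq_natCast_iff] at h3
    exact (Nat.modEq_iff_dvd' hprime.one_lt.le).1 h3.symm
  have h3 : m ∣ ℓ - 1 := by
    rw [← hm]
    exact Nat.Coprime.mul_dvd_of_dvd_of_dvd ((hqM.pow_left e).symm) h1 h2
  rw [PI_prime _ v hMv]
  exact res_pow hqM he hm hM ρ j hji (by omega) hR hℓN h3 u v hu

/-- the sum of the weights -/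
theorem sum_PH {m M q n c : ℕ} [NeZero m] [NeZero M] (hM : M ∣ m) (b : Fin n → ZMod m) (f : ℕ)
    {w : ZMod M} {h : ZMod M → ℤ} (hh : ∀ x, (c : ℤ) * h x = vd w x) :
    (c : ℤ) * ((univ.val.map (full b)).map fun a => PH q f h (ZMod.castHom hM (ZMod M) a)).sum =
      SS q f (fun i => ZMod.castHom hM (ZMod M) (b i)) w -
        SS q f (fun i => ZMod.castHom hM (ZMod M) (b i)) 1 := by
  set π := ZMod.castHom hM (ZMod M) with hπ
  have h1 : ((univ.val.map (full b)).map fun a => PH q f h (π a)).sum =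
      ∑ i : Fin (n + 1), PH q f h (π (full b i)) := by
    rw [Multiset.map_map]
    rfl
  rw [h1]
  unfold SS PH
  rw [← sum_sub_distrib, mul_sum]
  have h2 : ∀ i : Fin (n + 1), (c : ℤ) * ∑ j ∈ range f, (q : ℤ) ^ j *
      h ((q : ZMod M) ^ (f - j) * π (full b i)) =
      ∑ j ∈ range f, (q : ℤ) ^ j * vd w ((q : ZMod M) ^ (f - j) * π (full b i)) := by
    intro i
    rw [mul_sum]
    refine sum_congr rfl fun j _ => ?_
    rw [← hh]; ring
  rw [sum_congr rfl fun i _ => h2 i, sum_comm]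
  refine sum_congr rfl fun j _ => ?_
  rw [← mul_sum, ← mul_sub]
  congr 1
  unfold wt vd
  rw [sum_sub_distrib]
  push_cast
  have h3 : ∀ z : ZMod M, ∑ i : Fin (n + 1), (((z * π (full b i)).val : ℕ) : ℤ) =
      (((z * -∑ i, π (b i)).val : ℕ) : ℤ) + ∑ i, (((z * π (b i)).val : ℕ) : ℤ) := by
    intro z
    rw [Fin.sum_univ_succ]
    unfold full
    simp only [Fin.cons_zero, Fin.cons_succ]
    rw [map_neg, map_sum]
  have h4 := h3 ((q : ZMod M) ^ (f - j))
  have h5 := h3 (w * (q : ZMod M) ^ (f - j))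
  rw [one_mul, ← h4, ← h5]
  congr 1
  refine sum_congr rfl fun i _ => ?_
  rw [mul_assoc]

end Run7.h365.TD
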