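import Pool.Agent.Run7.h365.TD.Half

/-!
# Relations with two and three prime factors without conditions on the residues
-/

set_option autoImplicit false
set_option linter.unusedSectionVars false

namespace Run7.h365.TD

open Finset Pool.Agent.H916K

section two

variable {p q : ℕ} [Fact p.Prime] [Fact q.Prime]

theorem sum_erase_neg {Q : Type*} [AddCommMonoid Q] (G : ZMod p → Q) :
    ∑ v ∈ univ.erase (0 : ZMod p), G (-v) = ∑ v ∈ univ.erase (0 : ZMod p), G v := by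
  refine sum_bij' (fun v _ => -v) (fun v _ => -v) ?_ ?_ ?_ ?_ ?_
  · intro v hv; exact mem_erase.mpr ⟨neg_ne_zero.mpr (ne_of_mem_erase hv), mem_univ _⟩
  · intro v hv; exact mem_erase.mpr ⟨neg_ne_zero.mpr (ne_of_mem_erase hv), mem_univ _⟩
  · intro v _; exact neg_neg v
  · intro v _; exact neg_neg v
  · intro v _; rfl

theorem isFace_yy {x : ZMod p → ZMod q → ℤ} (hx : Rel2 x) : IsFace (yy x) where
  neg := yy_neg x
  mixed := fun b b' c c' hb hb' hc hc' => by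
    have := mixed hx hb hb' hc hc'
    linarith

/-- **Relations with two prime factors.** -/
theorem two_even (hp2 : p ≠ 2) (hq2 : q ≠ 2) (hpq : p ≠ q) {x : ZMod p → ZMod q → ℤ}
    (hx : Rel2 x) {D : ℤ} (hD : D ≠ 0) {H : ZMod p → ℤ} (hneg : ∀ u, H (-u) = - H u)
    {w k : ZMod p} (hw : ¬ IsSquare w) (hk : k ≠ 0) {C : ℤ} (hC : ¬ 2 ∣ C)
    (hmul : ∀ u, H ((q : ZMod p) * u) = (q : ℤ) * H u - D * (C * vd w (k * u)))
    (h : D ∣ ∑ u, ∑ v, x u v * H u) {Q : Type*} [AddCommGroup Q] {c : ZMod p → ZMod q → Q}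
    (hc : D2 c) : ∑ u, ∑ v, x u v • c u v = 0 := by
  classical
  have hqp := pq_ne (p := p) (q := q) hpq
  have hf := isFace_yy hx
  have hH := half_HS (p := p) hp2
  have hH0 : H 0 = 0 := by have := hneg 0; rw [neg_zero] at this; linarith
  -- twice the sum
  have e1 : ∑ u, ∑ v, x u v * H u = ∑ u ∈ HS p, H u * ∑ v, yy x u v := by
    rw [← add_sum_erase _ _ (mem_univ (0 : ZMod p)), hH0]
    simp only [mul_zero, sum_const_zero, zero_add]
    rw [hH.sum_all]
    refine sum_congr rfl fun u _ => ?_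
    have e2 : ∑ v, x (-u) v * H (-u) = ∑ v, -(x (-u) (-v) * H u) := by
      rw [← sum_neg (fun v => x (-u) v * H (-u))]
      refine sum_congr rfl fun v _ => ?_
      rw [hneg]; ring
    rw [e2, ← sum_add_distrib, mul_sum]
    refine sum_congr rfl fun v _ => ?_
    unfold yy
    ring
  have e2 : ∀ u ∈ HS p, 2 * ∑ v, yy x u v = (q : ℤ) * AA x u - AA x ((q : ZMod p)⁻¹ * u) := by
    intro u hu
    have hu0 := hH.ne u hu
    rw [← add_sum_erase _ _ (mem_univ (0 : ZMod q)), mul_add, edge hpq hx hu0]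
    have h3 := hf.sum_second hu0
    have h4 : fa (yy x) u = AA x u := rfl
    rw [h4] at h3
    rw [h3]
    ring
  have hAn : ∀ u, AA x (-u) = - AA x u := AA_neg x
  have e3 : ∑ u ∈ HS p, H u * AA x ((q : ZMod p)⁻¹ * u) =
      ∑ u ∈ HS p, H ((q : ZMod p) * u) * AA x u := by
    have h5 := hH.sum_mul hqp (fun u => H u * AA x ((q : ZMod p)⁻¹ * u)) (by
      intro u
      rw [hneg, mul_neg, hAn]; ring)
    rw [← h5]
    refine sum_congr rfl fun u _ => ?_
    rw [inv_mul_cancel_left₀ hqp]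
  have e4 : 2 * ∑ u, ∑ v, x u v * H u = D * ∑ u ∈ HS p, AA x u * (C * vd w (k * u)) := by
    rw [e1, mul_sum]
    have h6 : ∀ u ∈ HS p, 2 * (H u * ∑ v, yy x u v) =
        (q : ℤ) * (H u * AA x u) - H u * AA x ((q : ZMod p)⁻¹ * u) := by
      intro u hu
      rw [mul_left_comm, e2 u hu]; ring
    rw [sum_congr rfl h6, sum_sub_distrib, e3, ← sum_sub_distrib, mul_sum]
    refine sum_congr rfl fun u _ => ?_
    rw [hmul]; ring
  obtain ⟨t, ht⟩ := h
  rw [ht, mul_left_comm] at e4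
  have e5 : 2 * t = ∑ u ∈ HS p, AA x u * (C * vd w (k * u)) := mul_left_cancel₀ hD e4
  have hpar : ∀ u v, u ≠ 0 → v ≠ 0 → (2 ∣ AA x u ↔ 2 ∣ AA x v) := by
    intro u v hu hv
    have h1 := two_yy hx hu (one_ne_zero : (1 : ZMod q) ≠ 0)
    have h2 := two_yy hx hv (one_ne_zero : (1 : ZMod q) ≠ 0)
    omega
  have hA : ∀ u, u ≠ 0 → 2 ∣ AA x u := fun u hu => even_of_half hp2 hw hk hpar hC ⟨t, e5.symm⟩ hu
  refine even_case hp2 hq2 hpq hx hA (fun v hv => ?_) hc
  have h1 := two_yy hx (one_ne_zero : (1 : ZMod p) ≠ 0) hv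
  have h2 := hA 1 one_ne_zero
  omega

end two

section three

variable {p q r : ℕ} [Fact p.Prime] [Fact q.Prime] [Fact r.Prime]

/-- the functions used at the prime `r` -/
structure Tst {p q : ℕ} [NeZero p] [NeZero q] (r : ℕ) (D : ℤ) (H : ZMod p → ZMod q → ℤ) : Prop where
  ne : D ≠ 0
  neg : ∀ u v, H (-u) (-v) = - H u v
  zero : ∀ u, H u 0 = 0
  col : ∀ v, ∑ u, H u v = H 0 ((p : ZMod q) * v)
  row : ∀ u, ∑ v, H u v = 0
  mul : ∀ u v, D ∣ (r : ℤ) * H u v - H ((r : ZMod p) * u) ((r : ZMod q) * v)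
  val : ∃ (w k : ZMod q) (C : ℤ), ¬ IsSquare w ∧ k ≠ 0 ∧ ¬ 2 ∣ C ∧
    ∀ v, H 0 ((r : ZMod q) * v) = (r : ℤ) * H 0 v - D * (C * vd w (k * v))

/-- the parity of a face -/
theorem face_even (hq2 : q ≠ 2) (hpq : p ≠ q) (hpr : p ≠ r) (hqr : q ≠ r)
    {x : ZMod p → ZMod q → ZMod r → ℤ} (hx : Thin x) {D : ℤ} {H : ZMod p → ZMod q → ℤ}
    (hH : Tst r D H) (h : D ∣ ∑ u, ∑ v, ∑ z, x u v z * H u v) : EvF (FF x) := by
  classical
  obtain ⟨hD, hneg, hzero, hcol, hrow, -, w, k, C, hw, hk, hC, hval⟩ := hH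
  have hrq' := pq_ne (p := q) (q := r) hqr
  have hpq' := pq_ne (p := q) (q := p) (fun h => hpq h.symm)
  have hK := half_HS (p := q) hq2
  have hf0 := hx.face hpq hpr
  have hf2 := hx.rot.rot.face (fun h => hpr h.symm) (fun h => hqr h.symm)
  set A : ZMod q → ℤ := fa (FF x) with hA
  set B : ZMod q → ℤ := fb (FF (rt (rt x))) with hB
  have hAn : ∀ v, A (-v) = - A v := hf0.fa_neg
  have hBn : ∀ v, B (-v) = - B v := hf2.fb_neg
  have hH0n : ∀ v, H 0 (-v) = - H 0 v := by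
    intro v
    have := hneg 0 v
    rwa [neg_zero] at this
  -- twice the sum in terms of the odd part
  have e1 : 2 * ∑ u, ∑ v, ∑ z, x u v z * H u v = ∑ u, ∑ v, ∑ z, Y3 x u v z * H u v := by
    have h2 : ∑ u, ∑ v, ∑ z, x (-u) (-v) (-z) * H u v = - ∑ u, ∑ v, ∑ z, x u v z * H u v := by
      have h3 := sum_neg3 (fun u v z => x u v z * H u v)
      rw [← h3, ← sum_neg_distrib]
      refine sum_congr rfl fun u _ => ?_
      rw [← sum_neg_distrib]
      refine sum_congr rfl fun v _ => ?_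
      rw [← sum_neg_distrib]
      refine sum_congr rfl fun z _ => ?_
      rw [hneg]; ring
    unfold Y3
    simp only [sub_mul, sum_sub_distrib]
    rw [h2]; ring
  -- the support
  have e2 : ∑ u, ∑ v, ∑ z, Y3 x u v z * H u v =
      ∑ u ∈ univ.erase (0 : ZMod p), ∑ v ∈ univ.erase (0 : ZMod q), Y3 x u v 0 * H u v +
      ∑ v ∈ univ.erase (0 : ZMod q), (Y3 x 0 v 0 + ∑ z ∈ univ.erase (0 : ZMod r), Y3 x 0 v z) * H 0 v := by
    have h0 : ∀ u, ∑ v, ∑ z, Y3 x u v z * H u v =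
        ∑ v ∈ univ.erase (0 : ZMod q), (∑ z, Y3 x u v z) * H u v := by
      intro u
      rw [← add_sum_erase _ _ (mem_univ (0 : ZMod q)), hzero]
      simp only [mul_zero, sum_const_zero, zero_add]
      exact sum_congr rfl fun v _ => (sum_mul _ _ _).symm
    rw [sum_congr rfl fun u _ => h0 u, ← add_sum_erase _ _ (mem_univ (0 : ZMod p)), add_comm]
    congr 1
    · refine sum_congr rfl fun u hu => sum_congr rfl fun v hv => ?_
      rw [← add_sum_erase _ _ (mem_univ (0 : ZMod r))]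
      have : ∑ z ∈ univ.erase (0 : ZMod r), Y3 x u v z = 0 :=
        sum_eq_zero fun z hz => hx.top u v z (ne_of_mem_erase hu) (ne_of_mem_erase hv)
          (ne_of_mem_erase hz)
      rw [this, add_zero]
    · refine sum_congr rfl fun v _ => ?_
      rw [← add_sum_erase _ _ (mem_univ (0 : ZMod r))]
  -- the first part
  have e3 : 2 * ∑ u ∈ univ.erase (0 : ZMod p), ∑ v ∈ univ.erase (0 : ZMod q), Y3 x u v 0 * H u v =
      ∑ v ∈ univ.erase (0 : ZMod q), B v * (H 0 ((p : ZMod q) * v) - H 0 v) := by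
    have h1 : ∀ u ∈ univ.erase (0 : ZMod p), 2 * ∑ v ∈ univ.erase (0 : ZMod q), Y3 x u v 0 * H u v =
        ∑ v ∈ univ.erase (0 : ZMod q), B v * H u v := by
      intro u hu
      have hrow' : ∑ v ∈ univ.erase (0 : ZMod q), H u v = 0 := by
        have := hrow u
        rwa [← add_sum_erase _ _ (mem_univ (0 : ZMod q)), hzero, zero_add] at this
      have h2 : ∀ v ∈ univ.erase (0 : ZMod q), 2 * (Y3 x u v 0 * H u v) =
          fa (FF (rt (rt x))) u * H u v + B v * H u v := by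
        intro v hv
        have h3 : 2 * Y3 x u v 0 = fa (FF (rt (rt x))) u + B v :=
          hf2.two_mul (ne_of_mem_erase hu) (ne_of_mem_erase hv)
        rw [← mul_assoc, h3]; ring
      rw [mul_sum, sum_congr rfl h2, sum_add_distrib, ← mul_sum, hrow', mul_zero, zero_add]
    rw [mul_sum, sum_congr rfl h1, sum_comm]
    refine sum_congr rfl fun v _ => ?_
    rw [← mul_sum]
    congr 1
    have := hcol v
    rw [← add_sum_erase _ _ (mem_univ (0 : ZMod p))] at this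
    linarith
  -- the second part
  have e4 : 2 * ∑ v ∈ univ.erase (0 : ZMod q),
        (Y3 x 0 v 0 + ∑ z ∈ univ.erase (0 : ZMod r), Y3 x 0 v z) * H 0 v =
      ∑ v ∈ univ.erase (0 : ZMod q), ((r : ℤ) * A v - A ((r : ZMod q)⁻¹ * v) + B v -
        B ((p : ZMod q)⁻¹ * v)) * H 0 v := by
    rw [mul_sum]
    refine sum_congr rfl fun v hv => ?_
    have hv0 := ne_of_mem_erase hv
    have h1 : 2 * Y3 x 0 v 0 = (A v - A ((r : ZMod q)⁻¹ * v)) + (B v - B ((p : ZMod q)⁻¹ * v)) :=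
      hx.rot.rot.axis (fun h => hpr h.symm) (fun h => hqr h.symm) hpq hv0
    have h2 : 2 * ∑ z ∈ univ.erase (0 : ZMod r), Y3 x 0 v z = ((r : ℤ) - 1) * A v :=
      hf0.sum_second hv0
    have h3 : 2 * ((Y3 x 0 v 0 + ∑ z ∈ univ.erase (0 : ZMod r), Y3 x 0 v z) * H 0 v) =
      (2 * Y3 x 0 v 0 + 2 * ∑ z ∈ univ.erase (0 : ZMod r), Y3 x 0 v z) * H 0 v := by ring
    rw [h3, h1, h2]; ring
  -- reindexing
  have reidx : ∀ (k : ZMod q), k ≠ 0 → ∀ (F G : ZMod q → ℤ),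
      ∑ v ∈ univ.erase (0 : ZMod q), F (k⁻¹ * v) * G v =
        ∑ v ∈ univ.erase (0 : ZMod q), F v * G (k * v) := by
    intro k hk F G
    symm
    refine sum_bij' (fun v _ => k * v) (fun v _ => k⁻¹ * v) ?_ ?_ ?_ ?_ ?_
    · intro v hv; exact mem_erase.mpr ⟨mul_ne_zero hk (ne_of_mem_erase hv), mem_univ _⟩
    · intro v hv; exact mem_erase.mpr ⟨mul_ne_zero (inv_ne_zero hk) (ne_of_mem_erase hv), mem_univ _⟩
    · intro v _; exact inv_mul_cancel_left₀ hk v
    · intro v _; exact mul_inv_cancel_left₀ hk v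
    · intro v _; rw [inv_mul_cancel_left₀ hk]
  have e5 : 2 * (∑ u, ∑ v, ∑ z, Y3 x u v z * H u v) =
      D * ∑ v ∈ univ.erase (0 : ZMod q), A v * (C * vd w (k * v)) := by
    rw [e2, mul_add, e3, e4]
    have h1 := reidx _ hpq' B (fun v => H 0 v)
    have h2 := reidx _ hrq' A (fun v => H 0 v)
    have h3 : ∑ v ∈ univ.erase (0 : ZMod q), ((r : ℤ) * A v - A ((r : ZMod q)⁻¹ * v) + B v -
        B ((p : ZMod q)⁻¹ * v)) * H 0 v = ∑ v ∈ univ.erase (0 : ZMod q), (r : ℤ) * (A v * H 0 v) -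
        ∑ v ∈ univ.erase (0 : ZMod q), A v * H 0 ((r : ZMod q) * v) +
        ∑ v ∈ univ.erase (0 : ZMod q), B v * H 0 v -
        ∑ v ∈ univ.erase (0 : ZMod q), B v * H 0 ((p : ZMod q) * v) := by
      rw [← h1, ← h2, ← sum_sub_distrib, ← sum_add_distrib, ← sum_sub_distrib]
      refine sum_congr rfl fun v _ => ?_
      ring
    have h4 : ∑ v ∈ univ.erase (0 : ZMod q), B v * (H 0 ((p : ZMod q) * v) - H 0 v) =
        ∑ v ∈ univ.erase (0 : ZMod q), B v * H 0 ((p : ZMod q) * v) -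
        ∑ v ∈ univ.erase (0 : ZMod q), B v * H 0 v := by
      rw [← sum_sub_distrib]
      exact sum_congr rfl fun v _ => by ring
    have h5 : ∑ v ∈ univ.erase (0 : ZMod q), A v * H 0 ((r : ZMod q) * v) =
        ∑ v ∈ univ.erase (0 : ZMod q), (r : ℤ) * (A v * H 0 v) -
        D * ∑ v ∈ univ.erase (0 : ZMod q), A v * (C * vd w (k * v)) := by
      rw [mul_sum, ← sum_sub_distrib]
      refine sum_congr rfl fun v _ => ?_
      rw [hval]; ring
    rw [h3, h4, h5]; ring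
  have e6 : ∑ v ∈ univ.erase (0 : ZMod q), A v * (C * vd w (k * v)) =
      2 * ∑ v ∈ HS q, A v * (C * vd w (k * v)) := by
    rw [hK.sum_all, mul_sum]
    refine sum_congr rfl fun v _ => ?_
    rw [hAn, mul_neg k v, vd_neg (ne_zero_of_nonsquare hw)]
    ring
  obtain ⟨t, ht⟩ := h
  have e7 : 2 * t = ∑ v ∈ HS q, A v * (C * vd w (k * v)) := by
    rw [← e1, ht, e6] at e5
    apply mul_left_cancel₀ hD
    linarith
  have h1 : 2 ∣ A 1 := by
    refine even_of_half hq2 hw hk (fun u v hu hv => ?_) hC ⟨t, e7.symm⟩ one_ne_zero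
    rw [hf0.fa_even hu, hf0.fa_even hv]
  exact (hf0.fa_even one_ne_zero).1 h1

/-- the test functions give distributions -/
theorem Tst.d3 {D : ℕ} {H : ZMod p → ZMod q → ℤ} (hH : Tst r (D : ℤ) H) :
    D3 (fun (u : ZMod p) (v : ZMod q) (_ : ZMod r) => ((H u v : ℤ) : ZMod D)) where
  neg := fun u v w => by rw [hH.neg]; push_cast; rfl
  zero := by rw [hH.zero]; simp
  dp := fun v w => by rw [← hH.col]; push_cast; rfl
  dq := fun u w => by
    rw [hH.zero, ← hH.row u]; push_cast; rfl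
  dr := fun u v => by
    rw [sum_const, card_univ, ZMod.card, nsmul_eq_mul]
    have h1 := (ZMod.intCast_zmod_eq_zero_iff_dvd _ D).mpr (hH.mul u v)
    push_cast at h1
    rw [sub_eq_zero] at h1
    exact h1

/-- **Relations with three prime factors.** -/
theorem three_even (hp2 : p ≠ 2) (hq2 : q ≠ 2) (hr2 : r ≠ 2) (hpq : p ≠ q) (hpr : p ≠ r)
    (hqr : q ≠ r) {x : ZMod p → ZMod q → ZMod r → ℤ} (hx : Rel3 x)
    {D0 D1 D2' : ℕ} {H0 : ZMod p → ZMod q → ℤ} {H1 : ZMod q → ZMod r → ℤ} {H2 : ZMod r → ZMod p → ℤ}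
    (t0 : Tst r (D0 : ℤ) H0) (t1 : Tst p (D1 : ℤ) H1) (t2 : Tst q (D2' : ℤ) H2)
    (s0 : ∑ u, ∑ v, ∑ w, x u v w • ((H0 u v : ℤ) : ZMod D0) = 0)
    (s1 : ∑ u, ∑ v, ∑ w, x u v w • ((H1 v w : ℤ) : ZMod D1) = 0)
    (s2 : ∑ u, ∑ v, ∑ w, x u v w • ((H2 w u : ℤ) : ZMod D2') = 0)
    {Q : Type} [AddCommGroup Q] {c : ZMod p → ZMod q → ZMod r → Q} (hc : D3 c) :
    ∑ u, ∑ v, ∑ w, x u v w • c u v w = 0 := by
  classical
  obtain ⟨x', hx', htop, key⟩ := reduce3 hp2 hq2 hr2 hpq hpr hqr hx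
  have hT : Thin x' := ⟨hx', htop⟩
  have conv : ∀ {D : ℕ} {S : ℤ}, ((S : ℤ) : ZMod D) = 0 → (D : ℤ) ∣ S := fun h =>
    (ZMod.intCast_zmod_eq_zero_iff_dvd _ _).mp h
  have E0 : EvF (FF x') := by
    refine face_even hq2 hpq hpr hqr hT t0 (conv ?_)
    have h1 := key t0.d3
    rw [s0] at h1
    rw [h1]
    push_cast
    refine sum_congr rfl fun u _ => sum_congr rfl fun v _ => sum_congr rfl fun w _ => ?_
    rw [zsmul_eq_mul]
  have E1 : EvF (FF (rt x')) := by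
    refine face_even hr2 hqr (fun h => hpq h.symm) (fun h => hpr h.symm) hT.rot t1 (conv ?_)
    have h1 := key t1.d3.rot.rot
    rw [s1] at h1
    have h2 : ∑ u, ∑ v, ∑ w, x' u v w • ((H1 v w : ℤ) : ZMod D1) =
        ∑ v, ∑ w, ∑ u, x' u v w • ((H1 v w : ℤ) : ZMod D1) :=
      (sum_rot (fun u v w => x' u v w • ((H1 v w : ℤ) : ZMod D1))).symm
    rw [h1]
    refine Eq.trans ?_ h2.symm
    push_cast
    refine sum_congr rfl fun u _ => sum_congr rfl fun v _ => sum_congr rfl fun w _ => ?_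
    rw [zsmul_eq_mul]
    rfl
  have E2 : EvF (FF (rt (rt x'))) := by
    refine face_even hp2 (fun h => hpr h.symm) (fun h => hqr h.symm) hpq hT.rot.rot t2 (conv ?_)
    have h1 := key t2.d3.rot
    rw [s2] at h1
    have h2 : ∑ u, ∑ v, ∑ w, x' u v w • ((H2 w u : ℤ) : ZMod D2') =
        ∑ w, ∑ u, ∑ v, x' u v w • ((H2 w u : ℤ) : ZMod D2') := by
      have h3 := sum_rot (fun u v w => x' u v w • ((H2 w u : ℤ) : ZMod D2'))
      rw [← h3]
      exact (sum_rot (fun v w u => x' u v w • ((H2 w u : ℤ) : ZMod D2'))).symm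
    rw [h1]
    refine Eq.trans ?_ h2.symm
    push_cast
    refine sum_congr rfl fun u _ => sum_congr rfl fun v _ => sum_congr rfl fun w _ => ?_
    rw [zsmul_eq_mul]
    rfl
  rw [key hc]
  exact hT.zero_sum hp2 hq2 hr2 hpq hpr hqr E0 E1 E2 hc

end three

end Run7.h365.TD
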