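import Pool.Agent.Run7.h365.TD.Core

/-!
# The distributions given by the Gauss sums modulo the primes of the degree
-/

set_option autoImplicit false
set_option linter.unusedSectionVars false

namespace Run7.h365.TD

open Finset Pool.Agent.H916K Pool.Agent.H916R2

section gen

variable {M : ℕ}

/-- the sum over the powers of `q` -/
def PH (q f : ℕ) (h : ZMod M → ℤ) (x : ZMod M) : ℤ :=
  ∑ j ∈ range f, (q : ℤ) ^ j * h ((q : ZMod M) ^ (f - j) * x)

theorem PH_mul {q f : ℕ} (hf : (q : ZMod M) ^ f = 1) (h : ZMod M → ℤ) (x : ZMod M) :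
    PH q f h ((q : ZMod M) * x) = (q : ℤ) * PH q f h x - ((q : ℤ) ^ f - 1) * h ((q : ZMod M) * x) := by
  rcases Nat.eq_zero_or_pos f with h0 | h0
  · subst h0
    simp [PH]
  · obtain ⟨g, rfl⟩ : ∃ g, f = g + 1 := ⟨f - 1, by omega⟩
    unfold PH
    have h1 : ∑ j ∈ range (g + 1), (q : ℤ) ^ j * h ((q : ZMod M) ^ (g + 1 - j) * ((q : ZMod M) * x)) =
        h ((q : ZMod M) * x) + ∑ j ∈ range g, (q : ℤ) ^ (j + 1) * h ((q : ZMod M) ^ (g + 1 - j) * x) := by
      rw [sum_range_succ']
      rw [add_comm]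
      congr 1
      · rw [pow_zero, one_mul, Nat.sub_zero, hf, one_mul]
      · refine sum_congr rfl fun j hj => ?_
        have hj' := mem_range.1 hj
        congr 2
        have h2 : g + 1 - j = (g + 1 - (j + 1)) + 1 := by omega
        rw [h2, pow_succ]
        ring
    have h3 : ∑ j ∈ range (g + 1), (q : ℤ) ^ j * h ((q : ZMod M) ^ (g + 1 - j) * x) =
        ∑ j ∈ range g, (q : ℤ) ^ j * h ((q : ZMod M) ^ (g + 1 - j) * x) +
          (q : ℤ) ^ g * h ((q : ZMod M) * x) := by
      rw [sum_range_succ]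
      congr 3
      have : g + 1 - g = 1 := by omega
      rw [this, pow_one]
    rw [h1, h3, mul_add, mul_sum]
    have h4 : ∀ j ∈ range g, (q : ℤ) ^ (j + 1) * h ((q : ZMod M) ^ (g + 1 - j) * x) =
        (q : ℤ) * ((q : ℤ) ^ j * h ((q : ZMod M) ^ (g + 1 - j) * x)) := by
      intro j _
      ring
    rw [sum_congr rfl h4]
    ring

theorem comp_unit [NeZero M] {Q : Type*} [AddCommGroup Q] {c : ZMod M → Q} (hc : OddDist c)
    (t : (ZMod M)ˣ) : OddDist (fun a => c ((t : ZMod M) * a)) where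
  neg := fun a => by rw [mul_neg, hc.neg]
  half := fun a ha => hc.half _ (by rw [← mul_add, ha, mul_zero])
  dist := fun p d hp hpd a => by
    rw [coset_sum_unit c hpd, hc.dist p d hp hpd]
    congr 1; ring

theorem oddDist_smul {Q : Type*} [AddCommGroup Q] {c : ZMod M → Q} (hc : OddDist c) (k : ℤ) :
    OddDist (fun a => k • c a) where
  neg := fun a => by rw [hc.neg, smul_neg]
  half := fun a ha => by rw [hc.half a ha, smul_zero]
  dist := fun p d hp hpd a => by
    rw [← smul_sum, hc.dist p d hp hpd]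

theorem oddDist_sum {Q : Type*} [AddCommGroup Q] {κ : Type*} (T : Finset κ) {c : κ → ZMod M → Q}
    (hc : ∀ k ∈ T, OddDist (c k)) : OddDist (fun a => ∑ k ∈ T, c k a) where
  neg := fun a => by
    rw [← sum_neg_distrib]
    exact sum_congr rfl fun k hk => (hc k hk).neg a
  half := fun a ha => sum_eq_zero fun k hk => (hc k hk).half a ha
  dist := fun p d hp hpd a => by
    rw [sum_comm]
    exact sum_congr rfl fun k hk => (hc k hk).dist p d hp hpd a

theorem oddDist_PH [NeZero M] {q f : ℕ} (hq : q.Coprime M) {h : ZMod M → ℤ} (hh : OddDist h) :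
    OddDist (PH q f h) := by
  have hu : ((ZMod.unitOfCoprime q hq : (ZMod M)ˣ) : ZMod M) = (q : ZMod M) :=
    ZMod.coe_unitOfCoprime q hq
  have h1 : PH q f h = fun x => ∑ j ∈ range f,
      ((q : ℤ) ^ j) • h (((ZMod.unitOfCoprime q hq ^ (f - j) : (ZMod M)ˣ) : ZMod M) * x) := by
    funext x
    unfold PH
    refine sum_congr rfl fun j _ => ?_
    rw [smul_eq_mul, Units.val_pow_eq_pow_val, hu]
  rw [h1]
  exact oddDist_sum _ fun j _ => oddDist_smul (comp_unit hh _) _

/-- the distribution of a unit -/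
theorem oddDist_vd [NeZero M] (w : (ZMod M)ˣ) : OddDist (vd (w : ZMod M)) := by
  have h1 : ∀ x : ZMod M, 2 * vd (w : ZMod M) x = saw ((w : ZMod M) * x) - saw x := by
    intro x
    by_cases hx : x = 0
    · rw [hx, vd_zero, mul_zero, mul_zero, saw_zero, sub_self]
    · rw [saw_of_ne_zero hx, saw_of_ne_zero (unit_mul_ne_zero w hx)]
      unfold vd
      ring
  have h2 : ∀ {a b : ℤ}, 2 * a = 2 * b → a = b := fun h => by linarith
  refine ⟨fun a => h2 ?_, fun a ha => h2 ?_, fun p d hp hpd a => h2 ?_⟩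
  · have h3 : (w : ZMod M) * -a = -((w : ZMod M) * a) := mul_neg _ _
    rw [mul_neg, h1, h1, h3, saw_neg, saw_neg]
    ring
  · rw [h1, saw_half ha, saw_half (by rw [← mul_add, ha, mul_zero])]
    ring
  · rw [mul_sum, sum_congr rfl fun i _ => h1 _, sum_sub_distrib, saw_dist_unit hpd, saw_dist hpd, h1]

theorem oddDist_div [NeZero M] {c : ℤ} (hc : c ≠ 0) {g h : ZMod M → ℤ} (hg : OddDist g)
    (hh : ∀ x, c * h x = g x) : OddDist h where
  neg := fun a => mul_left_cancel₀ hc (by rw [hh, hg.neg, mul_neg, hh])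
  half := fun a ha => mul_left_cancel₀ hc (by rw [hh, hg.half a ha, mul_zero])
  dist := fun p d hp hpd a => mul_left_cancel₀ hc (by
    rw [mul_sum, sum_congr rfl fun i _ => hh _, hg.dist p d hp hpd, hh])

end gen

section lift

variable {M m : ℕ}

/-- the distribution modulo `D` -/
def lft (hM : M ∣ m) (D : ℕ) (H : ZMod M → ℤ) (a : ZMod m) : ZMod D :=
  ((H (ZMod.castHom hM (ZMod M) a) : ℤ) : ZMod D)

theorem oddDist_lft [NeZero M] {q e D : ℕ} (hq : q.Prime) (hqM : q.Coprime M) (hm : M * q ^ e = m)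
    (hM : M ∣ m) {H : ZMod M → ℤ} (hH : OddDist H)
    (hmul : ∀ x, (D : ℤ) ∣ (q : ℤ) * H x - H ((q : ZMod M) * x)) : OddDist (lft hM D H) where
  neg := fun a => by
    unfold lft
    rw [map_neg, hH.neg]
    push_cast; rfl
  half := fun a ha => by
    unfold lft
    rw [hH.half _ (by rw [← map_add, ha, map_zero])]
    simp
  dist := fun l d hl hd a => by
    unfold lft
    set π := ZMod.castHom hM (ZMod M) with hπ
    have h1 : ∀ i : ℕ, π (a + (i : ZMod m) * (d : ZMod m)) = π a + (i : ZMod M) * (d : ZMod M) := by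
      intro i
      rw [map_add, map_mul, map_natCast, map_natCast]
    simp only [h1]
    rw [map_mul, map_natCast, ← Int.cast_sum]
    by_cases hlM : l ∣ M
    · obtain ⟨M', hM'⟩ := hlM
      have hd' : d = M' * q ^ e := by
        apply Nat.eq_of_mul_eq_mul_left hl.pos
        rw [hd, ← hm, hM']; ring
      have hu : ((ZMod.unitOfCoprime (q ^ e) (Nat.Coprime.pow_left e hqM) : (ZMod M)ˣ) : ZMod M) =
          ((q ^ e : ℕ) : ZMod M) := ZMod.coe_unitOfCoprime _ _
      set t := ZMod.unitOfCoprime (q ^ e) (Nat.Coprime.pow_left e hqM) with ht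
      have h2 : ∀ i : ℕ, π a + (i : ZMod M) * (d : ZMod M) =
          (t : ZMod M) * (((t⁻¹ : (ZMod M)ˣ) : ZMod M) * π a + (i : ZMod M) * (M' : ZMod M)) := by
        intro i
        rw [mul_add, Units.mul_inv_cancel_left, hu, hd']
        push_cast
        ring
      simp only [h2]
      rw [coset_sum_unit H hM'.symm, hH.dist l M' hl hM'.symm, Units.mul_inv_cancel_left]
    · have hlq : l = q := by
        have h2 : l ∣ M * q ^ e := by rw [hm, ← hd]; exact dvd_mul_right l d
        have h3 := (Nat.Prime.dvd_mul hl).1 h2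
        exact (Nat.prime_dvd_prime_iff_eq hl hq).1 (hl.dvd_of_dvd_pow (h3.resolve_left hlM))
      subst hlq
      have he : e ≠ 0 := by
        rintro rfl
        apply hlM
        rw [pow_zero, mul_one] at hm
        rw [hm, ← hd]
        exact dvd_mul_right l d
      obtain ⟨e', rfl⟩ := Nat.exists_eq_succ_of_ne_zero he
      have hd' : d = M * l ^ e' := by
        apply Nat.eq_of_mul_eq_mul_left hl.pos
        rw [hd, ← hm, Nat.succ_eq_add_one, pow_succ]; ring
      have h2 : (d : ZMod M) = 0 := by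
        rw [hd']; push_cast; simp
      simp only [h2, mul_zero, add_zero]
      rw [sum_const, card_range, nsmul_eq_mul]
      have h3 := (ZMod.intCast_zmod_eq_zero_iff_dvd _ D).mpr (hmul (π a))
      push_cast at h3 ⊢
      rw [sub_eq_zero] at h3
      exact h3

/-- the value on a lower level -/
theorem lft_iota {M0 k1 c d C0 q e k m0 : ℕ} [NeZero M] [NeZero M0] [NeZero m0] (hM : M ∣ m)
    (hc : c ≠ 0) (hk1 : k1 * M0 = M) (hkc : d * k1 = c * C0) (hk : k = k1 * q ^ e) (hM0 : M0 ∣ m0)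
    {w : ZMod M} {w0 : ZMod M0} (hw : ZMod.castHom (Dvd.intro_left k1 hk1) (ZMod M0) w = w0)
    {h : ZMod M → ℤ} (hh : ∀ x, (c : ℤ) * h x = (d : ℤ) * vd w x) (f D : ℕ) (b : ZMod m0)
    (_hkm : k * m0 = m) :
    lft hM D (PH q f h) (iota k b) =
      (((C0 : ℤ) * PH q f (vd w0) ((q : ZMod M0) ^ e * ZMod.castHom hM0 (ZMod M0) b) : ℤ) :
        ZMod D) := by
  have hcz : (c : ℤ) ≠ 0 := by exact_mod_cast hc
  have hk10 : 0 < k1 := Nat.pos_of_ne_zero (by rintro rfl; exact NeZero.ne M (by rw [← hk1]; simp))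
  -- the function `h` on the lower level
  have hval : ∀ y : ZMod M0, ((iota k1 y : ZMod M).val : ℤ) = k1 * y.val := by
    intro y
    unfold iota
    rw [ZMod.val_natCast, Nat.mod_eq_of_lt]
    · push_cast; rfl
    · rw [← hk1]; exact Nat.mul_lt_mul_of_pos_left (ZMod.val_lt y) hk10
  have hwm : ∀ y : ZMod M0, w * iota k1 y = iota k1 (w0 * y) := by
    intro y
    have h1 : w = ((w.val : ℕ) : ZMod M) := (ZMod.natCast_zmod_val w).symm
    have h2 : w0 = ((w.val : ℕ) : ZMod M0) := by
      rw [← hw, h1, map_natCast, ← h1]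
    rw [h2, iota_natMul hk1]
    conv_lhs => rw [h1]
  have hlow : ∀ y : ZMod M0, h (iota k1 y) = (C0 : ℤ) * vd w0 y := by
    intro y
    apply mul_left_cancel₀ hcz
    rw [hh]
    unfold vd
    rw [hwm, hval, hval]
    have hkc' : (d : ℤ) * k1 = c * C0 := by exact_mod_cast hkc
    linear_combination (((w0 * y).val : ℤ) - (y.val : ℤ)) * hkc'
  have harg : ZMod.castHom hM (ZMod M) (iota k b) =
      iota k1 ((q : ZMod M0) ^ e * ZMod.castHom hM0 (ZMod M0) b) := by
    have h1 : ZMod.castHom hM (ZMod M) (iota k b) = ((k * b.val : ℕ) : ZMod M) := by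
      unfold iota
      rw [map_natCast]
    have h2 : (q : ZMod M0) ^ e * ZMod.castHom hM0 (ZMod M0) b = ((q ^ e * b.val : ℕ) : ZMod M0) := by
      have h3 : ZMod.castHom hM0 (ZMod M0) b = ((b.val : ℕ) : ZMod M0) := by
        conv_lhs => rw [← ZMod.natCast_zmod_val b]
        rw [map_natCast]
      rw [h3]
      push_cast
      rfl
    rw [h1, h2, iota_natCast hk1, hk]
    congr 1
    ring
  unfold lft
  congr 1
  rw [harg]
  unfold PH
  rw [mul_sum]
  refine sum_congr rfl fun j _ => ?_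
  have h1 : (q : ZMod M) ^ (f - j) * iota k1 ((q : ZMod M0) ^ e * ZMod.castHom hM0 (ZMod M0) b) =
      iota k1 ((q : ZMod M0) ^ (f - j) * ((q : ZMod M0) ^ e * ZMod.castHom hM0 (ZMod M0) b)) := by
    have h2 : (q : ZMod M) ^ (f - j) = ((q ^ (f - j) : ℕ) : ZMod M) := by push_cast; rfl
    have h3 : (q : ZMod M0) ^ (f - j) = ((q ^ (f - j) : ℕ) : ZMod M0) := by push_cast; rfl
    rw [h2, h3, iota_natMul hk1]
  rw [h1, hlow]
  ring

end lift

end Run7.h365.TD
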