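import Pool.Agent.Run7.h365.FV.HDv
import Pool.Agent.Run7.h365.FV.Weil2

/-!
# The conjugates of an element modulo a prime of a cyclotomic field
-/

set_option autoImplicit false
set_option linter.unusedSectionVars false

namespace Run7.h365.TD

open Finset NumberField IsDedekindDomain
open IsCyclotomicExtension.Rat (galEquivZMod galEquivZMod_smul_of_pow_eq galEquivZMod_stabilizer)
open Run7.h365.FV
open scoped Pointwise

variable {F : Type} [Field F] [NumberField F] {N n : ℕ} [NeZero N]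
  [IsCyclotomicExtension {N} ℚ F] {ζ : 𝓞 F}

theorem hom_ext (hζ : IsPrimitiveRoot ζ N) {k : Type} [CommRing k] {f g : 𝓞 F →+* k}
    (h : f ζ = g ζ) : f = g := by
  have hζF : IsPrimitiveRoot (ζ : F) N := prim_coe hζ
  have h1 := IsCyclotomicExtension.Rat.adjoin_singleton_eq_top hζF
  have h2 : hζF.toInteger = ζ := RingOfIntegers.ext rfl
  rw [h2] at h1
  have h3 : f.toIntAlgHom = g.toIntAlgHom := by
    refine AlgHom.ext_of_adjoin_eq_top h1 ?_
    intro x hx
    rw [Set.mem_singleton_iff] at hx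
    subst hx
    exact h
  exact RingHom.ext fun x => AlgHom.congr_fun h3 x

variable {κ : Type} [Field κ] [Fintype κ] [DecidableEq κ] {p : ℕ} [Fact p.Prime] [CharP κ p]

/-- the decomposition group acts by powers -/
theorem frob_pow (hζ : IsPrimitiveRoot ζ N) (θ : 𝓞 F →+* κ) (hp : p.Coprime N) {σ : Gal(F/ℚ)}
    {j : ℕ} (hσ : cu N σ = (ZMod.unitOfCoprime p hp) ^ j) (x : 𝓞 F) :
    θ (act σ x) = θ x ^ p ^ j := by
  have h1 : θ.comp (act σ) = (iterateFrobenius κ p j).comp θ := by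
    refine hom_ext hζ ?_
    rw [RingHom.comp_apply, RingHom.comp_apply, act_root σ hζ.pow_eq_one, map_pow,
      iterateFrobenius_def]
    refine pow_zmod (N := N) ?_ ?_
    · rw [← map_pow, hζ.pow_eq_one, map_one]
    · rw [hσ, ZMod.natCast_zmod_val]
      push_cast
      rw [ZMod.coe_unitOfCoprime]
  have h2 := RingHom.congr_fun h1 x
  rw [RingHom.comp_apply, RingHom.comp_apply, iterateFrobenius_def] at h2
  exact h2

/-- the conjugates of the prime -/
theorem ker_eq_iff (θ : 𝓞 F →+* κ) (hp : p.Coprime N) (σ : Gal(F/ℚ)) :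
    RingHom.ker (θ.comp (act σ)) = RingHom.ker θ ↔
      cu N σ ∈ Subgroup.zpowers (ZMod.unitOfCoprime p hp) := by
  have h4 := liesOver_of_mem (mem_kp (p := p) θ)
  have h5 := (kp p θ).isMaximal
  rw [← galEquivZMod_stabilizer N F p (kp p θ).asIdeal hp]
  have h2 : cu N σ ∈ (galEquivZMod N F).mapSubgroup (MulAction.stabilizer Gal(F/ℚ)
        (kp p θ).asIdeal) ↔ σ ∈ MulAction.stabilizer Gal(F/ℚ) (kp p θ).asIdeal := by
    rw [MulEquiv.mapSubgroup_apply, Subgroup.mem_map]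
    constructor
    · rintro ⟨x, hx, hx'⟩
      rwa [← (galEquivZMod N F).injective hx']
    · intro h
      exact ⟨_, h, rfl⟩
  rw [h2, MulAction.mem_stabilizer_iff]
  have h3 : RingHom.ker (θ.comp (act σ)) = σ⁻¹ • (kp p θ).asIdeal := kp_act θ σ
  rw [h3]
  constructor
  · intro h
    have h6 := congrArg (fun I => σ • I) h
    simp only [smul_inv_smul] at h6
    exact h6.symm
  · intro h
    have h6 := congrArg (fun I => σ⁻¹ • I) h
    simp only [inv_smul_smul] at h6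
    exact h6.symm

/-- the Chinese remainder theorem -/
theorem crt {A ι : Type} [CommRing A] (T : Finset ι) (m : Ideal A) (hm : m.IsMaximal)
    (P : ι → Ideal A) (hP : ∀ i ∈ T, (P i).IsMaximal ∧ P i ≠ m) {c : A} (hc : c ∉ m) (g : A) :
    ∃ γ : A, γ - 1 ∈ Ideal.span {c} ∧ γ - g ∈ m ∧ ∀ i ∈ T, γ - 1 ∈ P i := by
  classical
  have hc1 : IsCoprime m (Ideal.span {c}) := by
    rw [Ideal.isCoprime_iff_sup_eq]
    by_contra hne
    have h1 : m = m ⊔ Ideal.span {c} := hm.eq_of_le hne le_sup_left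
    apply hc
    rw [h1]
    exact Ideal.mem_sup_right (Ideal.mem_span_singleton_self _)
  have hc2 : IsCoprime m (∏ i ∈ T, P i) := by
    refine IsCoprime.prod_right fun i hi => ?_
    rw [Ideal.isCoprime_iff_sup_eq]
    by_contra hne
    have h2 : m = m ⊔ P i := hm.eq_of_le hne le_sup_left
    have h3 : P i = m ⊔ P i := (hP i hi).1.eq_of_le hne le_sup_right
    exact (hP i hi).2 (h3.trans h2.symm)
  obtain ⟨a, ha, b, hb, hab⟩ := Ideal.isCoprime_iff_exists.1 (hc1.mul_right hc2)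
  have hb1 : b ∈ Ideal.span {c} :=
    (Ideal.mul_le_left : Ideal.span {c} * ∏ i ∈ T, P i ≤ Ideal.span {c}) hb
  have hb2 : b ∈ ∏ i ∈ T, P i :=
    (Ideal.mul_le_right : Ideal.span {c} * ∏ i ∈ T, P i ≤ ∏ i ∈ T, P i) hb
  refine ⟨1 + b * (g - 1), ?_, ?_, ?_⟩
  · rw [add_sub_cancel_left]
    exact Ideal.mul_mem_right _ _ hb1
  · have h1 : 1 + b * (g - 1) - g = -(a * (g - 1)) := by
      linear_combination (g - 1) * hab
    rw [h1]
    exact m.neg_mem (m.mul_mem_right _ ha)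
  · intro i hi
    rw [add_sub_cancel_left]
    have h2 : b ∈ P i := (Ideal.prod_le_inf.trans (Finset.inf_le hi)) hb2
    exact Ideal.mul_mem_right _ _ h2

/-- **The element.** -/
theorem exists_gamma (θ : 𝓞 F →+* κ) (hp : p.Coprime N) (g : 𝓞 F) (r : ℕ) :
    ∃ γ : 𝓞 F, γ - 1 ∈ Ideal.span {(N : 𝓞 F) ^ r} ∧ θ γ = θ g ∧
      ∀ σ : Gal(F/ℚ), cu N σ ∉ Subgroup.zpowers (ZMod.unitOfCoprime p hp) → θ (act σ γ) = 1 := by
  classical
  have hmax : ∀ σ : Gal(F/ℚ), (RingHom.ker (θ.comp (act σ))).IsMaximal := fun σ =>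
    (kp p (θ.comp (act σ))).isMaximal
  have hmax1 : (RingHom.ker θ).IsMaximal := (kp p θ).isMaximal
  have hNκ : (N : κ) ≠ 0 := by
    rw [Ne, CharP.cast_eq_zero_iff κ p]
    exact (Nat.Prime.coprime_iff_not_dvd Fact.out).1 hp
  have hc : (N : 𝓞 F) ^ r ∉ RingHom.ker θ := by
    intro h2
    rw [RingHom.mem_ker, map_pow, map_natCast] at h2
    exact pow_ne_zero _ hNκ h2
  obtain ⟨γ, h1, h2, h3⟩ := crt (univ.filter fun σ : Gal(F/ℚ) =>
    cu N σ ∉ Subgroup.zpowers (ZMod.unitOfCoprime p hp)) (RingHom.ker θ) hmax1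
    (fun σ => RingHom.ker (θ.comp (act σ))) (fun σ hσ => ⟨hmax σ, fun h =>
      (mem_filter.1 hσ).2 ((ker_eq_iff θ hp σ).1 h)⟩) hc g
  refine ⟨γ, h1, ?_, fun σ hσ => ?_⟩
  · rw [RingHom.mem_ker, map_sub, sub_eq_zero] at h2
    exact h2
  · have h4 := h3 σ (mem_filter.2 ⟨mem_univ _, hσ⟩)
    rw [RingHom.mem_ker, map_sub, map_one, sub_eq_zero] at h4
    exact h4

/-- the elements of the decomposition group -/
noncomputable def dg (F : Type) [Field F] [NumberField F] {N : ℕ} [NeZero N]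
    [IsCyclotomicExtension {N} ℚ F] {p : ℕ} (hp : p.Coprime N) (j : ℕ) : Gal(F/ℚ) :=
  (galEquivZMod N F).symm ((ZMod.unitOfCoprime p hp) ^ j)

theorem cu_dg (hp : p.Coprime N) (j : ℕ) : cu N (dg F hp j) = (ZMod.unitOfCoprime p hp) ^ j :=
  MulEquiv.apply_symm_apply _ _

theorem orderOf_unit (hp : p.Coprime N) :
    orderOf (p : ZMod N) = orderOf (ZMod.unitOfCoprime p hp) := by
  rw [← ZMod.coe_unitOfCoprime p hp]
  exact orderOf_units

/-- **The product over the conjugates.** -/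
theorem prod_conj (hζ : IsPrimitiveRoot ζ N) (θ : 𝓞 F →+* κ) (hp : p.Coprime N) {γ g : 𝓞 F}
    (h1 : θ γ = θ g)
    (h2 : ∀ σ : Gal(F/ℚ), cu N σ ∉ Subgroup.zpowers (ZMod.unitOfCoprime p hp) → θ (act σ γ) = 1)
    (E : Gal(F/ℚ) → ℕ) :
    ∏ σ : Gal(F/ℚ), θ (act σ γ) ^ E σ =
      θ g ^ ∑ j ∈ range (orderOf (p : ZMod N)), p ^ j * E (dg F hp j) := by
  classical
  rw [← prod_filter_mul_prod_filter_not univ
    (fun σ => cu N σ ∈ Subgroup.zpowers (ZMod.unitOfCoprime p hp))]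
  have h3 : ∏ σ ∈ univ.filter (fun σ : Gal(F/ℚ) =>
      ¬ cu N σ ∈ Subgroup.zpowers (ZMod.unitOfCoprime p hp)), θ (act σ γ) ^ E σ = 1 := by
    refine prod_eq_one fun σ hσ => ?_
    rw [h2 σ (mem_filter.1 hσ).2, one_pow]
  rw [h3, mul_one, ← prod_pow_eq_pow_sum]
  symm
  refine prod_bij (fun j _ => dg F hp j) ?_ ?_ ?_ ?_
  · intro j _
    rw [mem_filter, cu_dg]
    exact ⟨mem_univ _, Subgroup.npow_mem_zpowers _ j⟩
  · intro i hi j hj h
    have h4 := (galEquivZMod N F).symm.injective h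
    rw [orderOf_unit hp] at hi hj
    exact pow_injOn_Iio_orderOf (by simpa using hi) (by simpa using hj) h4
  · intro σ hσ
    have hfin : IsOfFinOrder (ZMod.unitOfCoprime p hp) := isOfFinOrder_of_finite _
    obtain ⟨s, hs⟩ := (hfin.mem_powers_iff_mem_zpowers).2 (mem_filter.1 hσ).2
    refine ⟨s % orderOf (p : ZMod N), mem_range.2 (Nat.mod_lt _ ?_), ?_⟩
    · rw [orderOf_unit hp]; exact orderOf_pos _
    · apply (galEquivZMod N F).injective
      have h5 : (galEquivZMod N F) (dg F hp (s % orderOf (p : ZMod N))) =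
          (ZMod.unitOfCoprime p hp) ^ (s % orderOf (p : ZMod N)) := cu_dg hp _
      rw [h5, orderOf_unit hp, pow_mod_orderOf]
      exact hs
  · intro j _
    rw [frob_pow hζ θ hp (cu_dg hp j), h1, ← pow_mul]

theorem theta_AA (hζ : IsPrimitiveRoot ζ N) (θ : 𝓞 F →+* κ) (hp : p.Coprime N) {γ g : 𝓞 F}
    (h1 : θ γ = θ g)
    (h2 : ∀ σ : Gal(F/ℚ), cu N σ ∉ Subgroup.zpowers (ZMod.unitOfCoprime p hp) → θ (act σ γ) = 1)
    (τ : Gal(F/ℚ)) (b : Fin n → ZMod N) :
    θ (AA N (act τ γ) b) =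
      θ g ^ ∑ j ∈ range (orderOf (p : ZMod N)), p ^ j * ex N b (dg F hp j * τ⁻¹) := by
  rw [← prod_conj hζ θ hp h1 h2 (fun σ => ex N b (σ * τ⁻¹))]
  unfold AA
  rw [map_prod]
  refine Fintype.prod_equiv (Equiv.mulRight τ) _ _ fun σ => ?_
  rw [map_pow, Equiv.coe_mulRight, mul_inv_cancel_right]
  congr 2

/-- a generator of the residue field -/
theorem exists_gen (θ : 𝓞 F →+* κ) (hp : p.Coprime N) :
    ∃ g : 𝓞 F, θ g ≠ 0 ∧ ∀ a b : ℕ, θ g ^ a = θ g ^ b →
      ((p : ℤ) ^ orderOf (p : ZMod N) - 1) ∣ (a : ℤ) - b := by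
  obtain ⟨k, _, _, _, φ, hφ, hker, hcard⟩ := exists_model (kp p θ)
  rw [absNorm_prm (N := N) (mem_kp θ) hp] at hcard
  obtain ⟨j, hj⟩ := exists_factor hφ hker
  obtain ⟨u, hu⟩ := IsCyclic.exists_generator (α := kˣ)
  obtain ⟨g, hg⟩ := hφ (u : k)
  have hgj : θ g = j (u : k) := by rw [← hj, RingHom.comp_apply, hg]
  refine ⟨g, ?_, fun a b hab => ?_⟩
  · rw [hgj, Ne, map_eq_zero]
    exact u.ne_zero
  · rw [hgj, ← map_pow, ← map_pow] at hab
    have h1 := j.injective hab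
    have h2 : u ^ a = u ^ b := Units.ext (by push_cast; exact h1)
    rw [pow_eq_pow_iff_modEq] at h2
    have h3 : orderOf u = p ^ orderOf (p : ZMod N) - 1 := by
      rw [orderOf_eq_card_of_forall_mem_zpowers hu, Nat.card_eq_fintype_card, Fintype.card_units,
        hcard]
    rw [h3] at h2
    have h4 := (Nat.modEq_iff_dvd.1 h2.symm)
    have h5 : ((p ^ orderOf (p : ZMod N) - 1 : ℕ) : ℤ) = (p : ℤ) ^ orderOf (p : ZMod N) - 1 := by
      have : 1 ≤ p ^ orderOf (p : ZMod N) := Nat.one_le_pow _ _ (Fact.out : p.Prime).pos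
      push_cast [Nat.cast_sub this]
      ring
    rwa [h5] at h4

end Run7.h365.TD
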