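import Pool.Agent.Run7.h365.TD.Heck
import Pool.Agent.N172.HS.Mul
import Pool.Agent.N134.HS.Nvq

/-!
# A trivial character among the twists
-/

set_option autoImplicit false
set_option linter.unusedSectionVars false

namespace Run7.h365.TD

open Finset NumberField IsDedekindDomain UniqueFactorizationMonoid Filter Topology Asymptotics
open Run7.h365.FV
open Run7.h365.CM.T (eventually_coprime)
open Pool.Agent.N172.HS
open Pool.Agent.W353.TP (HX sysH LL LL_tendsto bdd_isLittleO)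
open Pool.Agent.W353.NF (vx)

section

variable {K : Type} [Field K] [NumberField K]

/-- a function which vanishes at almost all primes of degree one -/
theorem meanH_fin {u : HeightOneSpectrum (𝓞 K) → ℝ} {B : ℝ} (hu : ∀ v, |u v| ≤ B)
    (h : ∀ᶠ v : HeightOneSpectrum (𝓞 K) in cofinite, (Ideal.absNorm v.asIdeal).Prime → u v = 0) :
    (fun ε => EH K ε (fun x => u (vx x))) =o[𝓝[>] 0] LL := by
  classical
  set u' : HeightOneSpectrum (𝓞 K) → ℝ := fun v =>
    if (Ideal.absNorm v.asIdeal).Prime then u v else 0 with hu'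
  have hB0 : ∀ v : HeightOneSpectrum (𝓞 K), 0 ≤ B := fun v => (abs_nonneg _).trans (hu v)
  have hub : ∀ v, |u' v| ≤ B := by
    intro v
    simp only [hu']
    split_ifs
    · exact hu v
    · rw [abs_zero]; exact hB0 v
  have hfin : {v | ¬ u' v = 0}.Finite := by
    have h2 : ∀ᶠ v in cofinite, u' v = 0 := by
      filter_upwards [h] with v hv
      simp only [hu']
      split_ifs with h3
      · exact hv h3
      · rfl
    rwa [Filter.eventually_cofinite] at h2
  have e2 : (fun x : HX K => u (vx x)) = fun x : HX K => u' (vx x) := by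
    funext x
    have hp : (Ideal.absNorm (vx x).asIdeal).Prime := by
      rw [absNorm_vx]
      exact x.1.2
    simp only [hu']
    rw [if_pos hp]
  apply bdd_isLittleO
  refine ⟨hfin.toFinset.card * B + B * Module.finrank ℚ K * Pool.Agent.H921R2.TatePole.C0, ?_⟩
  filter_upwards [self_mem_nhdsWithin] with ε h3
  have hε : (0 : ℝ) < ε := h3
  have h4 := EV_EH (K := K) hub hε
  have h5 := EV_finsupp hfin.toFinset (g := u') (fun v hv => by
    rw [Set.Finite.mem_toFinset] at hv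
    by_contra h
    exact hv h) hub hε
  rw [e2]
  have h7 : EH K ε (fun x : HX K => u' (vx x)) =
      EV K ε u' - (EV K ε u' - EH K ε (fun x : HX K => u' (vx x))) := by ring
  rw [h7]
  exact (abs_sub _ _).trans (add_le_add h5 h4)

end

section

variable {F : Type} [Field F] [NumberField F] {N n : ℕ} [NeZero N]
  [IsCyclotomicExtension {N} ℚ F] {ζ : 𝓞 F}
variable {k : Type} [Field k] [Finite k] {q e : ℕ} [Fact q.Prime] [CharP k q]

theorem eventually_ne (hζ : IsPrimitiveRoot ζ N) (hn : 2 ≤ n) (hodd : Odd n) (he : e ≠ 0)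
    (b : Fin n → ZMod N) (ρ : 𝓞 F →+* k) (R : ℕ) [NeZero R]
    (ω : MulChar (ZMod (q ^ e)) ℂ) (θ : MulChar k ℂ) :
    ∀ᶠ v : HeightOneSpectrum (𝓞 F) in cofinite, psq b ρ R ω θ v.asIdeal ≠ 0 := by
  have h := isHecke_psq hζ hn hodd he b ρ R ω θ
  filter_upwards [eventually_coprime h.ne_bot] with v hv
  exact (h.supp _ v.ne_bot).2 hv

theorem norm_psq_le (hζ : IsPrimitiveRoot ζ N) (hn : 2 ≤ n) (hodd : Odd n) (he : e ≠ 0)
    (b : Fin n → ZMod N) (ρ : 𝓞 F →+* k) (R : ℕ) [NeZero R]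
    (ω : MulChar (ZMod (q ^ e)) ℂ) (θ : MulChar k ℂ) (I : Ideal (𝓞 F)) :
    ‖psq b ρ R ω θ I‖ ≤ 1 := (isHecke_psq hζ hn hodd he b ρ R ω θ).norm_le I

/-- **One of the twists is trivial.** -/
theorem exists_triv (hζ : IsPrimitiveRoot ζ N) (hn : 2 ≤ n) (hodd : Odd n) (he : e ≠ 0)
    (b : Fin n → ZMod N) (ρ : 𝓞 F →+* k) (R : ℕ) [NeZero R] (θ : MulChar k ℂ)
    (hval : ∀ᶠ v : HeightOneSpectrum (𝓞 F) in cofinite, (Ideal.absNorm v.asIdeal).Prime →
      ((Ideal.absNorm v.asIdeal : ℕ) : ZMod (q ^ e)) = 1 → θ (ρ (PI N b v.asIdeal)) ^ R = 1) :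
    ∃ ω : MulChar (ZMod (q ^ e)) ℂ, ∀ I, psq b ρ R ω θ I ≠ 0 → psq b ρ R ω θ I = 1 := by
  classical
  have hNe : NeZero (q ^ e) := ⟨pow_ne_zero _ (Fact.out : q.Prime).ne_zero⟩
  by_contra hne
  push Not at hne
  let A : Type := DirichletCharacter ℂ (q ^ e)
  -- the sums
  have h1 : ∀ ω : A, (fun ε => EH F ε (fun x => (hv (psq b ρ R ω θ) x).re)) =o[𝓝[>] 0] LL :=
    fun ω => meanH_zero Pool.Agent.N134.HS.t_nvq (isHecke_psq hζ hn hodd he b ρ R ω θ) (hne ω)
  have hb : ∀ (ω : A) (θ' : MulChar k ℂ) (x : HX F), |(hv (psq b ρ R ω θ') x).re| ≤ 1 :=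
    fun ω θ' x => (Complex.abs_re_le_norm _).trans (norm_psq_le hζ hn hodd he b ρ R ω θ' _)
  have h2 : (fun ε => EH F ε (fun x => ∑ ω : A, (hv (psq b ρ R ω θ) x).re)) =o[𝓝[>] 0] LL := by
    have h3 : (fun ε => ∑ ω : A, EH F ε (fun x => (hv (psq b ρ R ω θ) x).re)) =o[𝓝[>] 0] LL :=
      finset_isLittleO Finset.univ fun ω _ => h1 ω
    refine h3.congr' ?_ (EventuallyEq.refl _ _)
    filter_upwards [self_mem_nhdsWithin] with ε hε
    have hε' : (0 : ℝ) < ε := hε
    exact (EH_sum hε' Finset.univ _ (fun _ => 1) fun ω _ x => hb ω θ x).symm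
  -- the characters of the norm
  let c : A → ℝ := fun ω => if ∀ I, psq b ρ R ω (1 : MulChar k ℂ) I ≠ 0 →
    psq b ρ R ω (1 : MulChar k ℂ) I = 1 then 1 else 0
  have h3 : ∀ ω : A, (fun ε => EH F ε (fun x => (hv (psq b ρ R ω (1 : MulChar k ℂ)) x).re) -
      c ω * LL ε) =o[𝓝[>] 0] LL := by
    intro ω
    by_cases ht : ∀ I, psq b ρ R ω (1 : MulChar k ℂ) I ≠ 0 → psq b ρ R ω (1 : MulChar k ℂ) I = 1
    · have hc : c ω = 1 := if_pos ht
      rw [hc]
      simp only [one_mul]
      refine meanH_one (g := fun v => (psq b ρ R ω (1 : MulChar k ℂ) v.asIdeal).re) (fun v =>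
        (Complex.abs_re_le_norm _).trans (norm_psq_le hζ hn hodd he b ρ R ω _ _)) ?_
      filter_upwards [eventually_ne hζ hn hodd he b ρ R ω (1 : MulChar k ℂ)] with v hv' _
      rw [ht _ hv', Complex.one_re]
    · have hc : c ω = 0 := if_neg ht
      rw [hc]
      simp only [zero_mul, sub_zero]
      push Not at ht
      exact meanH_zero Pool.Agent.N134.HS.t_nvq (isHecke_psq hζ hn hodd he b ρ R ω _) ht
  have h4 : (fun ε => EH F ε (fun x => ∑ ω : A, (hv (psq b ρ R ω (1 : MulChar k ℂ)) x).re) -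
      (∑ ω : A, c ω) * LL ε) =o[𝓝[>] 0] LL := by
    have h5 : (fun ε => ∑ ω : A, (EH F ε (fun x => (hv (psq b ρ R ω (1 : MulChar k ℂ)) x).re) -
      c ω * LL ε)) =o[𝓝[>] 0] LL := finset_isLittleO Finset.univ fun ω _ => h3 ω
    refine h5.congr' ?_ (EventuallyEq.refl _ _)
    filter_upwards [self_mem_nhdsWithin] with ε hε
    have hε' : (0 : ℝ) < ε := hε
    rw [EH_sum hε' Finset.univ _ (fun _ => 1) fun ω _ x => hb ω _ x, Finset.sum_sub_distrib,
      Finset.sum_mul]
  -- the comparison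
  let u : HeightOneSpectrum (𝓞 F) → ℝ := fun v =>
    ∑ ω : A, (psq b ρ R ω (1 : MulChar k ℂ) v.asIdeal).re - ∑ ω : A, (psq b ρ R ω θ v.asIdeal).re
  have hu : ∀ v, |u v| ≤ ∑ ω : A, (1 : ℝ) + ∑ ω : A, (1 : ℝ) := by
    intro v
    refine (abs_sub _ _).trans (add_le_add ?_ ?_)
    · exact (Finset.abs_sum_le_sum_abs _ _).trans (Finset.sum_le_sum fun ω _ =>
        (Complex.abs_re_le_norm _).trans (norm_psq_le hζ hn hodd he b ρ R ω _ _))
    · exact (Finset.abs_sum_le_sum_abs _ _).trans (Finset.sum_le_sum fun ω _ =>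
        (Complex.abs_re_le_norm _).trans (norm_psq_le hζ hn hodd he b ρ R ω _ _))
  have h5 : (fun ε => EH F ε (fun x => u (vx x))) =o[𝓝[>] 0] LL := by
    refine meanH_fin hu ?_
    filter_upwards [hval, eventually_ne hζ hn hodd he b ρ R (1 : A) (1 : MulChar k ℂ)] with v h6 h7 h8
    have h9 : ∀ θ' : MulChar k ℂ, ∑ ω : A, (psq b ρ R ω θ' v.asIdeal).re =
        ((∑ ω : A, ω ((Ideal.absNorm v.asIdeal : ℕ) : ZMod (q ^ e))) *
          θ' (ρ (PI N b v.asIdeal)) ^ R).re := by
      intro θ'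
      rw [Finset.sum_mul, Complex.re_sum]
      rfl
    simp only [u]
    rw [h9, h9, DirichletCharacter.sum_characters_eq]
    split_ifs with h10
    · rw [h6 h8 h10]
      have h11 : (1 : MulChar k ℂ) (ρ (PI N b v.asIdeal)) ^ R = 1 := by
        rw [psq_apply] at h7
        have h12 : (1 : MulChar k ℂ) (ρ (PI N b v.asIdeal)) ≠ 0 := by
          intro h13
          apply h7
          rw [h13, zero_pow (NeZero.ne R), mul_zero]
        have h13 : IsUnit (ρ (PI N b v.asIdeal)) := by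
          by_contra h14
          exact h12 (MulChar.map_nonunit _ h14)
        rw [MulChar.one_apply h13, one_pow]
      rw [h11, sub_self]
    · rw [zero_mul, zero_mul, sub_self]
  have h6 : (fun ε => (∑ ω : A, c ω) * LL ε) =o[𝓝[>] 0] LL := by
    have h7 := (h5.add h2).sub h4
    refine h7.congr' ?_ (EventuallyEq.refl _ _)
    filter_upwards [self_mem_nhdsWithin] with ε hε
    have hε' : (0 : ℝ) < ε := hε
    have h8 : EH F ε (fun x => u (vx x)) + EH F ε (fun x => ∑ ω : A, (hv (psq b ρ R ω θ) x).re) =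
        EH F ε (fun x => ∑ ω : A, (hv (psq b ρ R ω (1 : MulChar k ℂ)) x).re) := by
      rw [← EH_add hε' (fun x => hu (vx x)) (fun x => (Finset.abs_sum_le_sum_abs _ _).trans
        (Finset.sum_le_sum fun ω _ => hb ω θ x))]
      congr 1
      funext x
      simp only [u, hv_eq]
      ring
    rw [h8]
    ring
  have h7 := LL_not_littleO h6
  have h8 : c (1 : A) = 1 := by
    refine if_pos fun I hI => ?_
    rw [psq_apply] at hI ⊢
    have h9 : ((1 : A) : MulChar (ZMod (q ^ e)) ℂ) ((Ideal.absNorm I : ℕ) : ZMod (q ^ e)) ≠ 0 :=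
      left_ne_zero_of_mul hI
    have h10 : (1 : MulChar k ℂ) (ρ (PI N b I)) ≠ 0 := by
      intro h13
      apply hI
      rw [h13, zero_pow (NeZero.ne R), mul_zero]
    have h11 : IsUnit ((Ideal.absNorm I : ℕ) : ZMod (q ^ e)) := by
      by_contra h14
      exact h9 (MulChar.map_nonunit _ h14)
    have h12 : IsUnit (ρ (PI N b I)) := by
      by_contra h14
      exact h10 (MulChar.map_nonunit _ h14)
    have h13 : ((1 : A) : MulChar (ZMod (q ^ e)) ℂ) ((Ideal.absNorm I : ℕ) : ZMod (q ^ e)) = 1 :=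
      MulChar.one_apply h11
    rw [h13, MulChar.one_apply h12, one_pow, one_mul]
  have h9 : c (1 : A) ≤ ∑ ω : A, c ω := Finset.single_le_sum (f := c) (fun ω _ => by
    simp only [c]
    split_ifs
    · exact zero_le_one
    · exact le_rfl) (Finset.mem_univ _)
  rw [h7, h8] at h9
  linarith

end

end Run7.h365.TD
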