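import Pool.Agent.Run7.h365.TD.Frob
import Pool.Agent.Run7.h365.TD.Mean

/-!
# The divisibility given by the Hecke characters
-/

set_option autoImplicit false
set_option linter.unusedSectionVars false

namespace Run7.h365.TD

open Finset NumberField IsDedekindDomain Filter
open Run7.h365.FV

section nrm

variable {F : Type} [Field F] [NumberField F]

theorem absNorm_eq (N : ℕ) [NeZero N] [IsCyclotomicExtension {N} ℚ F] (x : 𝓞 F) :
    ((Ideal.absNorm (Ideal.span {x}) : ℕ) : 𝓞 F) = ∏ σ : Gal(F/ℚ), act σ x ∨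
      ((Ideal.absNorm (Ideal.span {x}) : ℕ) : 𝓞 F) = - ∏ σ : Gal(F/ℚ), act σ x := by
  have hG : IsGalois ℚ F := IsCyclotomicExtension.isGalois {N} ℚ F
  have h4 : ((Algebra.norm ℤ x : ℤ) : ℚ) = Algebra.norm ℚ (x : F) := Algebra.coe_norm_int x
  have h5 : ((Algebra.norm ℤ x : ℤ) : 𝓞 F) = ∏ σ : Gal(F/ℚ), act σ x := by
    apply RingOfIntegers.ext
    have h6 : (((Algebra.norm ℤ x : ℤ) : 𝓞 F) : F) = algebraMap ℚ F (Algebra.norm ℚ (x : F)) := by
      rw [← h4]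
      simp
    rw [h6, Algebra.norm_eq_prod_automorphisms]
    symm
    change algebraMap (𝓞 F) F _ = _
    rw [map_prod]
    rfl
  rw [← h5]
  have h6 : ((Ideal.absNorm (Ideal.span {x}) : ℕ) : ℤ) = |Algebra.norm ℤ x| := by
    rw [Ideal.absNorm_span_singleton, Int.natCast_natAbs]
  have h7 : ((Ideal.absNorm (Ideal.span {x}) : ℕ) : 𝓞 F) = ((|Algebra.norm ℤ x| : ℤ) : 𝓞 F) := by
    rw [← h6]; push_cast; rfl
  rw [h7]
  rcases abs_choice (Algebra.norm ℤ x) with h | h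
  · left; rw [h]
  · right; rw [h]; push_cast; rfl

theorem absNorm_act (σ : Gal(F/ℚ)) (x : 𝓞 F) :
    Ideal.absNorm (Ideal.span {act σ x}) = Ideal.absNorm (Ideal.span {x}) := by
  rw [Ideal.absNorm_span_singleton, Ideal.absNorm_span_singleton]
  congr 1
  have h1 : ((Algebra.norm ℤ (act σ x) : ℤ) : ℚ) = ((Algebra.norm ℤ x : ℤ) : ℚ) := by
    rw [Algebra.coe_norm_int, Algebra.coe_norm_int, act_coe]
    exact Algebra.norm_eq_of_algEquiv σ _
  exact_mod_cast h1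

end nrm

section

variable {F : Type} [Field F] [NumberField F] {N n : ℕ} [NeZero N]
  [IsCyclotomicExtension {N} ℚ F] {ζ : 𝓞 F}
variable {κ : Type} [Field κ] [Fintype κ] [DecidableEq κ] {p e : ℕ} [Fact p.Prime] [CharP κ p]

/-- the weighted sum of the weights -/
def SS (p f : ℕ) (b : Fin n → ZMod N) (c : ZMod N) : ℤ :=
  ∑ j ∈ range f, (p : ℤ) ^ j * (wt (c * (p : ZMod N) ^ (f - j)) b : ℤ)

theorem N_mul_sum (hp : p.Coprime N) (b : Fin n → ZMod N) (τ : Gal(F/ℚ)) :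
    (N : ℤ) * ((∑ j ∈ range (orderOf (p : ZMod N)), p ^ j * ex N b (dg F hp j * τ⁻¹) : ℕ) : ℤ) =
      SS p (orderOf (p : ZMod N)) b (-((cu N τ : (ZMod N)ˣ) : ZMod N)) := by
  unfold SS
  push_cast
  rw [mul_sum]
  refine sum_congr rfl fun j hj => ?_
  have hj' := mem_range.1 hj
  rw [mul_left_comm]
  congr 1
  have h1 := N_mul_ex (N := N) b (dg F hp j * τ⁻¹)
  have h2 : (N : ℤ) * (ex N b (dg F hp j * τ⁻¹) : ℤ) =
      (wt (-(((cu N (dg F hp j * τ⁻¹))⁻¹ : (ZMod N)ˣ) : ZMod N)) b : ℤ) := by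
    rw [← h1]; push_cast; rfl
  rw [h2]
  congr 2
  rw [cu_mul, cu_inv, cu_dg, mul_inv, inv_inv]
  have h3 : ((ZMod.unitOfCoprime p hp) ^ j)⁻¹ = (ZMod.unitOfCoprime p hp) ^ (orderOf (p : ZMod N) - j) := by
    rw [inv_eq_iff_mul_eq_one, ← pow_add]
    have h4 : j + (orderOf (p : ZMod N) - j) = orderOf (p : ZMod N) := by omega
    rw [h4, orderOf_unit hp, pow_orderOf_eq_one]
  rw [h3, Units.val_mul, Units.val_pow_eq_pow_val, ZMod.coe_unitOfCoprime]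
  ring

/-- **The divisibility.** -/
theorem div_neg (hζ : IsPrimitiveRoot ζ N) (hn : 2 ≤ n) (hodd : Odd n) (he : e ≠ 0)
    (hp : p.Coprime N) (b : Fin n → ZMod N) (θ : 𝓞 F →+* κ) (R : ℕ) [NeZero R]
    (hval : ∀ᶠ v : HeightOneSpectrum (𝓞 F) in cofinite, (Ideal.absNorm v.asIdeal).Prime →
      ((Ideal.absNorm v.asIdeal : ℕ) : ZMod (p ^ e)) = 1 → (θ (PI N b v.asIdeal)) ^ R = 1)
    (c : (ZMod N)ˣ) :
    (N : ℤ) * ((p : ℤ) ^ orderOf (p : ZMod N) - 1) ∣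
      (R : ℤ) * (SS p (orderOf (p : ZMod N)) b (-(c : ZMod N)) -
        SS p (orderOf (p : ZMod N)) b (-1)) := by
  classical
  obtain ⟨g, hg0, hg⟩ := exists_gen (N := N) θ hp
  obtain ⟨γ, hγ1, hγ2, hγ3⟩ := exists_gamma (N := N) θ hp g n
  obtain ⟨τ, hτ⟩ : ∃ τ : Gal(F/ℚ), cu N τ = c :=
    ⟨(IsCyclotomicExtension.Rat.galEquivZMod N F).symm c, MulEquiv.apply_symm_apply _ _⟩
  have hγ0 : γ ≠ 0 := by
    rintro rfl
    apply hg0
    rw [← hγ2, map_zero]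
  have hone : ∀ σ : Gal(F/ℚ), act σ γ - 1 ∈ Ideal.span {(N : 𝓞 F) ^ n} := by
    intro σ
    obtain ⟨y, hy⟩ := Ideal.mem_span_singleton.1 hγ1
    rw [Ideal.mem_span_singleton]
    refine ⟨act σ y, ?_⟩
    have h1 := congrArg (act σ) hy
    rw [map_sub, map_one, map_mul, map_pow, map_natCast] at h1
    exact h1
  have hne : ∀ σ : Gal(F/ℚ), act σ γ ≠ 0 := fun σ => by
    rwa [Ne, map_eq_zero_iff _ (act_inj σ)]
  -- the norm is prime to `p`
  have hnorm : (Ideal.absNorm (Ideal.span {γ})).Coprime p := by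
    rw [Nat.coprime_comm, Nat.Prime.coprime_iff_not_dvd Fact.out, ← CharP.cast_eq_zero_iff κ p]
    have h1 : θ (∏ σ : Gal(F/ℚ), act σ γ) ≠ 0 := by
      rw [map_prod]
      have h2 := prod_conj hζ θ hp hγ2 hγ3 (fun _ => 1)
      simp only [pow_one, mul_one] at h2
      rw [h2]
      exact pow_ne_zero _ hg0
    rw [← map_natCast θ]
    rcases absNorm_eq N γ with h | h
    · rw [h]; exact h1
    · rw [h, map_neg]; exact neg_ne_zero.2 h1
  have hNe : NeZero (p ^ e) := ⟨pow_ne_zero _ (Fact.out : p.Prime).ne_zero⟩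
  set A : ZMod (p ^ e) := ((Ideal.absNorm (Ideal.span {γ}) : ℕ) : ZMod (p ^ e)) with hA
  have hAu : IsUnit A := (ZMod.isUnit_iff_coprime _ _).2 (hnorm.pow_right e)
  have hx : ∀ σ : Gal(F/ℚ), θ (AA N (act σ γ) b) ≠ 0 := by
    intro σ
    rw [theta_AA hζ θ hp hγ2 hγ3 σ b]
    exact pow_ne_zero _ hg0
  have key : ∀ (χ : MulChar κ ℂ) (σ : Gal(F/ℚ)), χ (θ (AA N (act σ γ) b) ^ R) =
      χ (θ (AA N (act 1 γ) b) ^ R) := by
    intro χ σ
    obtain ⟨ω, hω⟩ := exists_triv hζ hn hodd he b θ R χ (by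
      filter_upwards [hval] with v hv h1 h2
      rw [← map_pow, hv h1 h2, map_one])
    have h1 : ∀ σ : Gal(F/ℚ), ω A * χ (θ (AA N (act σ γ) b)) ^ R = 1 := by
      intro σ
      have h2 := hω (Ideal.span {act σ γ}) (by
        rw [psq_apply, absNorm_act, weil hζ hn hodd (hne σ) (hone σ)]
        refine mul_ne_zero (hAu.map ω).ne_zero (pow_ne_zero _ ?_)
        exact ((isUnit_iff_ne_zero.2 (hx σ)).map χ).ne_zero)
      rw [psq_apply, absNorm_act, weil hζ hn hodd (hne σ) (hone σ)] at h2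
      exact h2
    have h3 := (h1 σ).trans (h1 1).symm
    have h4 := mul_left_cancel₀ (hAu.map ω).ne_zero h3
    rw [map_pow, map_pow, h4]
  have heq : θ (AA N (act τ γ) b) ^ R = θ (AA N (act 1 γ) b) ^ R := by
    by_contra hne'
    have hy0 : θ (AA N (act 1 γ) b) ^ R ≠ 0 := pow_ne_zero _ (hx 1)
    have h1 : θ (AA N (act τ γ) b) ^ R * (θ (AA N (act 1 γ) b) ^ R)⁻¹ ≠ 1 := by
      intro h2
      exact hne' ((mul_inv_eq_one₀ hy0).1 h2)
    obtain ⟨χ, hχ⟩ := MulChar.exists_apply_ne_one_of_hasEnoughRootsOfUnity κ ℂ h1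
    apply hχ
    rw [map_mul, key χ τ, ← map_mul, mul_inv_cancel₀ hy0, map_one]
  rw [theta_AA hζ θ hp hγ2 hγ3 τ b, theta_AA hζ θ hp hγ2 hγ3 1 b, ← pow_mul, ← pow_mul] at heq
  have h1 := hg _ _ heq
  have h2 := N_mul_sum (F := F) hp b τ
  have h3 := N_mul_sum (F := F) hp b (1 : Gal(F/ℚ))
  have h4 : (cu N (1 : Gal(F/ℚ)) : (ZMod N)ˣ) = 1 := map_one _
  rw [hτ] at h2
  rw [h4, Units.val_one] at h3
  obtain ⟨t, ht⟩ := h1
  refine ⟨t, ?_⟩
  rw [← h2, ← h3]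
  push_cast at ht ⊢
  linear_combination (N : ℤ) * ht

/-- **The divisibility**, without signs. -/
theorem div_pos (hζ : IsPrimitiveRoot ζ N) (hn : 2 ≤ n) (hodd : Odd n) (he : e ≠ 0)
    (hp : p.Coprime N) (b : Fin n → ZMod N) (θ : 𝓞 F →+* κ) (R : ℕ) [NeZero R]
    (hval : ∀ᶠ v : HeightOneSpectrum (𝓞 F) in cofinite, (Ideal.absNorm v.asIdeal).Prime →
      ((Ideal.absNorm v.asIdeal : ℕ) : ZMod (p ^ e)) = 1 → (θ (PI N b v.asIdeal)) ^ R = 1)
    (c : (ZMod N)ˣ) :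
    (N : ℤ) * ((p : ℤ) ^ orderOf (p : ZMod N) - 1) ∣
      (R : ℤ) * (SS p (orderOf (p : ZMod N)) b (c : ZMod N) -
        SS p (orderOf (p : ZMod N)) b 1) := by
  have h1 := div_neg hζ hn hodd he hp b θ R hval (-c)
  have h2 := div_neg hζ hn hodd he hp b θ R hval (-1)
  rw [Units.val_neg, neg_neg] at h1
  rw [Units.val_neg, neg_neg, Units.val_one] at h2
  have h3 := dvd_sub h1 h2
  have h4 : (R : ℤ) * (SS p (orderOf (p : ZMod N)) b (c : ZMod N) -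
      SS p (orderOf (p : ZMod N)) b (-1)) - (R : ℤ) * (SS p (orderOf (p : ZMod N)) b 1 -
      SS p (orderOf (p : ZMod N)) b (-1)) = (R : ℤ) * (SS p (orderOf (p : ZMod N)) b (c : ZMod N) -
        SS p (orderOf (p : ZMod N)) b 1) := by ring
  rwa [h4] at h3

end

end Run7.h365.TD
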