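import Pool.Agent.H916K.MainThree

/-!
# A parity of sums over half systems
-/

set_option autoImplicit false
set_option linter.unusedSectionVars false

namespace Run7.h365.TD

open Finset Pool.Agent.H916K

variable {p : ℕ} [Fact p.Prime]

theorem val_neg {u : ZMod p} (hu : u ≠ 0) : ((-u).val : ℤ) = (p : ℤ) - u.val := by
  rw [ZMod.neg_val, if_neg hu, Nat.cast_sub (ZMod.val_lt u).le]

/-- the difference of the representatives of `w u` and `u` -/
def vd {M : ℕ} (w u : ZMod M) : ℤ := ((w * u).val : ℤ) - (u.val : ℤ)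

theorem vd_zero {M : ℕ} (w : ZMod M) : vd w 0 = 0 := by
  unfold vd; simp

theorem vd_neg {w : ZMod p} (hw : w ≠ 0) (u : ZMod p) : vd w (-u) = - vd w u := by
  by_cases hu : u = 0
  · rw [hu, neg_zero, vd_zero, neg_zero]
  · unfold vd
    rw [mul_neg, val_neg hu, val_neg (mul_ne_zero hw hu)]
    ring

theorem ne_zero_of_nonsquare {w : ZMod p} (hw : ¬ IsSquare w) : w ≠ 0 := by
  rintro rfl
  exact hw (IsSquare.zero)

/-- **Gauss's lemma.** -/
theorem odd_half (hp2 : p ≠ 2) {w : ZMod p} (hw : ¬ IsSquare w) {k : ZMod p} (hk : k ≠ 0) :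
    ¬ (2 : ℤ) ∣ ∑ u ∈ HS p, vd w (k * u) := by
  classical
  have hw0 := ne_zero_of_nonsquare hw
  have hpp : p.Prime := Fact.out
  have hodd2 : p % 2 = 1 := hpp.eq_two_or_odd.resolve_left hp2
  -- reduction to `k = 1`
  have h1 : ((∑ u ∈ HS p, vd w (k * u) : ℤ) : ZMod 2) = ((∑ u ∈ HS p, vd w u : ℤ) : ZMod 2) := by
    push_cast
    refine (half_HS hp2).sum_mul hk (fun u => ((vd w u : ℤ) : ZMod 2)) fun u => ?_
    rw [vd_neg hw0]
    push_cast
    exact ZMod.neg_eq_self_mod_two _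
  intro h2
  have h3 : ((∑ u ∈ HS p, vd w u : ℤ) : ZMod 2) = 0 := by
    rw [← h1]
    exact (ZMod.intCast_zmod_eq_zero_iff_dvd _ 2).mpr h2
  have h4 : (2 : ℤ) ∣ ∑ u ∈ HS p, vd w u := (ZMod.intCast_zmod_eq_zero_iff_dvd _ 2).mp h3
  -- the natural number
  set q : ℕ := (w⁻¹).val with hq
  have hqw : ((q : ℕ) : ZMod p) = w⁻¹ := ZMod.natCast_zmod_val _
  have hq0 : ((q : ℕ) : ZMod p) ≠ 0 := by rw [hqw]; exact inv_ne_zero hw0
  have hleg : legendreSym p q = -1 := by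
    have hq0' : ((q : ℤ) : ZMod p) ≠ 0 := by push_cast; exact hq0
    rcases legendreSym.eq_one_or_neg_one p hq0' with h | h
    · exfalso
      have h5 := (legendreSym.eq_one_iff p hq0').mp h
      push_cast at h5
      rw [hqw] at h5
      obtain ⟨y, hy⟩ := h5
      apply hw
      refine ⟨y⁻¹, ?_⟩
      rw [← mul_inv, ← hy, inv_inv]
    · exact h
  set A : ZMod p → ℤ := fun u => if u = 0 then 0 else (p : ℤ) - 2 * u.val with hA
  have hAneg : ∀ u, A (-u) = - A u := by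
    intro u
    by_cases hu : u = 0
    · simp [hA, hu]
    · simp only [hA, neg_eq_zero, hu, if_false]
      rw [val_neg hu]
      ring
  have hAodd : ∀ u, u ≠ 0 → ¬ 2 ∣ A u := by
    intro u hu h
    simp only [hA, hu, if_false] at h
    omega
  refine gauss_parity hp2 hq0 hleg hAneg hAodd (y := fun u => vd w u) ?_ h4
  intro u hu
  have hwu : w * u ≠ 0 := mul_ne_zero hw0 hu
  rw [hqw, inv_inv]
  simp only [hA, hu, hwu, if_false]
  unfold vd
  ring

theorem even_of_half (hp2 : p ≠ 2) {w k : ZMod p} (hw : ¬ IsSquare w) (hk : k ≠ 0)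
    {A : ZMod p → ℤ} (hpar : ∀ u v, u ≠ 0 → v ≠ 0 → (2 ∣ A u ↔ 2 ∣ A v)) {C : ℤ} (hC : ¬ 2 ∣ C)
    (h : (2 : ℤ) ∣ ∑ u ∈ HS p, A u * (C * vd w (k * u))) {u : ZMod p} (hu : u ≠ 0) : 2 ∣ A u := by
  classical
  by_contra hodd
  have hall : ∀ v, v ≠ 0 → ((A v : ℤ) : ZMod 2) = 1 := by
    intro v hv
    have h1 : ¬ 2 ∣ A v := fun h2 => hodd ((hpar u v hu hv).2 h2)
    exact ZMod.intCast_eq_one_iff_odd.mpr (Int.not_even_iff_odd.1 fun h2 => h1 (even_iff_two_dvd.1 h2))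
  have hC1 : ((C : ℤ) : ZMod 2) = 1 :=
    ZMod.intCast_eq_one_iff_odd.mpr (Int.not_even_iff_odd.1 fun h2 => hC (even_iff_two_dvd.1 h2))
  apply odd_half hp2 hw hk
  have h1 : ((∑ u ∈ HS p, A u * (C * vd w (k * u)) : ℤ) : ZMod 2) = 0 :=
    (ZMod.intCast_zmod_eq_zero_iff_dvd _ 2).mpr h
  apply (ZMod.intCast_zmod_eq_zero_iff_dvd _ 2).mp
  rw [← h1]
  push_cast
  refine sum_congr rfl fun v hv => ?_
  rw [hall v ((half_HS hp2).ne v hv), hC1, one_mul, one_mul]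

end Run7.h365.TD
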