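import Pool.Agent.Run7.h365.TD.Lvl
import Pool.Agent.H916K.Stick

/-!
# The Hodge type, from powers of Gauss sums at the primes in a residue class
-/

set_option autoImplicit false
set_option linter.unusedSectionVars false

namespace Run7.h365.TD

open Finset
open Run7.h365.FV
open Pool.Agent.H916K
open Pool.Agent.H916R2 (IsHodge)

/-- **Hodge type.** -/
theorem hodge_of_pow {m R B N : ℕ} [NeZero R] [NeZero B] (hm : 2 ≤ m) {s : Multiset (ZMod m)}
    (h0 : (0 : ZMod m) ∉ s) (heven : Even (Multiset.card s)) (hsum : s.sum = 0)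
    (hR : ∀ ℓ : ℕ, N < ℓ → ∀ [Fact ℓ.Prime], m * B ∣ ℓ - 1 → ∀ (χ : MulChar (ZMod ℓ) ℂ)
      (ψ : AddChar (ZMod ℓ) ℂ), orderOf χ = m → ψ ≠ 1 →
      ((s.map fun a => gaussSum (χ ^ a.val) ψ).prod) ^ R = ((ℓ : ℂ) ^ (Multiset.card s / 2)) ^ R) :
    IsHodge m s := by
  classical
  have hmz : NeZero m := ⟨by omega⟩
  have hmB : NeZero (m * B) := ⟨mul_ne_zero (NeZero.ne m) (NeZero.ne B)⟩
  refine ⟨h0, heven, hsum, ?_⟩
  intro t
  obtain ⟨ℓ, hℓN, hℓ, hℓm⟩ := Nat.forall_exists_prime_gt_and_eq_mod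
    (q := m * B) (a := 1) isUnit_one (N + 3)
  have hF : Fact ℓ.Prime := ⟨hℓ⟩
  have hℓ3 : 3 ≤ ℓ := by omega
  obtain ⟨k, _, _, φ, Γ, _, v, hv1, hv2, hv3⟩ := exists_val hℓ
  have hv : Above φ v := ⟨hv1, hv2, hv3⟩
  obtain ⟨χ1, hχ1, hχφ⟩ := exists_teich (ℓ := ℓ) φ
  obtain ⟨ζ, hζ⟩ : ∃ ζ : AI, IsPrimitiveRoot ζ ℓ := by
    have h1 := Complex.isPrimitiveRoot_exp ℓ hℓ.ne_zero
    have h2 : IsIntegral ℤ (Complex.exp (2 * Real.pi * Complex.I / ((ℓ : ℕ) : ℂ))) :=
      h1.isIntegral hℓ.pos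
    exact ⟨⟨_, h2⟩, IsPrimitiveRoot.of_map_of_injective (f := algebraMap AI ℂ) h1
      Subtype.val_injective⟩
  have hinj : Function.Injective (algebraMap AI ℂ) := Subtype.val_injective
  have hmBdvd : m * B ∣ ℓ - 1 := by
    have h1 : ((ℓ - 1 : ℕ) : ZMod (m * B)) = 0 := by
      rw [Nat.cast_sub (by omega), hℓm]; simp
    exact (ZMod.natCast_eq_zero_iff _ _).mp h1
  have hmdvd : m ∣ ℓ - 1 := (dvd_mul_right m B).trans hmBdvd
  obtain ⟨e, he⟩ := hmdvd
  have he0 : 0 < e := Nat.pos_of_ne_zero (by rintro rfl; rw [mul_zero] at he; omega)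
  set τ : ℕ := (t : ZMod m).val with hτ
  have hτcop : τ.Coprime m := ZMod.val_coe_unit_coprime t
  set χ : MulChar (ZMod ℓ) AI := (χ1 ^ e) ^ τ with hχ
  have hord1 : orderOf (χ1 ^ e) = m := by
    rw [orderOf_pow_of_dvd he0.ne' (by rw [hχ1, he]; exact dvd_mul_left e m), hχ1, he,
      Nat.mul_div_cancel _ he0]
  have hordχ : orderOf χ = m := by
    rw [hχ, Nat.Coprime.orderOf_pow (by rw [hord1]; exact hτcop.symm), hord1]
  set ψ := AddChar.zmodChar ℓ hζ.pow_eq_one with hψdef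
  set χ' : MulChar (ZMod ℓ) ℂ := χ.ringHomComp (algebraMap AI ℂ) with hχ'
  set ψ' : AddChar (ZMod ℓ) ℂ := (algebraMap AI ℂ).toMonoidHom.compAddChar ψ with hψ'
  have hordχ' : orderOf χ' = m := by
    rw [← hordχ]
    exact orderOf_injective (MulChar.ringHomCompHom (algebraMap AI ℂ))
      (MulChar.injective_ringHomComp hinj) χ
  have hψ1 : ψ' ≠ 1 := by
    intro h
    have h1 : ψ' 1 = 1 := by rw [h]; rfl
    have h2 : algebraMap AI ℂ (ψ 1) = 1 := h1
    rw [hψdef, AddChar.zmodChar_apply] at h2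
    have : Fact (1 < ℓ) := ⟨hℓ.one_lt⟩
    rw [ZMod.val_one, pow_one] at h2
    exact hζ.ne_one hℓ.one_lt (hinj (by rw [h2, map_one]))
  have h1 := hR ℓ (by omega) hmBdvd χ' ψ' hordχ' hψ1
  have h2 := congrArg v h1
  rw [map_pow, map_pow, map_pow, map_multiset_prod, Multiset.map_map] at h2
  set π := v (((ζ - 1 : AI)) : ℂ) with hπ
  have hg : ∀ z ∈ s, v (gaussSum (χ' ^ z.val) ψ') = π ^ (e * ((t : ZMod m) * z).val) := by
    intro z hz
    have e1 : gaussSum (χ' ^ z.val) ψ' = ((gaussSum (χ ^ z.val) ψ : AI) : ℂ) := by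
      have : gaussSum (χ' ^ z.val) ψ' = algebraMap AI ℂ (gaussSum (χ ^ z.val) ψ) := by
        unfold gaussSum
        rw [map_sum]
        refine sum_congr rfl fun x _ => ?_
        rw [map_mul, hχ', MulChar.ringHomComp_pow, MulChar.ringHomComp_apply]
        rfl
      rw [this]; rfl
    have e2 : χ ^ z.val = χ1 ^ (e * ((t : ZMod m) * z).val) := by
      rw [hχ, ← pow_mul, ← pow_mul, pow_eq_pow_iff_modEq, hχ1, he, ZMod.val_mul, mul_comm m e]
      exact (Nat.ModEq.mul_left' e (Nat.mod_modEq _ _)).symm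
    have e3 : (t : ZMod m) * z ≠ 0 := by
      intro h
      have h3 := (t.isUnit.mul_right_eq_zero).mp h
      rw [h3] at hz
      exact h0 hz
    have e4 : 0 < ((t : ZMod m) * z).val := Nat.pos_of_ne_zero
      (fun h => e3 ((ZMod.val_eq_zero _).mp h))
    have e5 := ZMod.val_lt ((t : ZMod m) * z)
    have e6 : e * ((t : ZMod m) * z).val ≤ e * (m - 1) := Nat.mul_le_mul_left e (by omega)
    have e7 : e * (m - 1) = ℓ - 1 - e := by
      rw [he, Nat.mul_sub, mul_one, mul_comm]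
    rw [e1, e2]
    exact v_gauss hv hζ hχ1 hχφ hℓ3 _ (Nat.mul_pos he0 e4) (by omega)
  have e1 : (s.map (v ∘ fun z => gaussSum (χ' ^ z.val) ψ')) =
      s.map fun z => π ^ (e * ((t : ZMod m) * z).val) := Multiset.map_congr rfl hg
  rw [e1] at h2
  have hprodpow : ∀ s : Multiset (ZMod m),
      (s.map fun z => π ^ (e * ((t : ZMod m) * z).val)).prod =
        π ^ (e * (s.map fun z => ((t : ZMod m) * z).val).sum) := by
    intro s
    induction s using Multiset.induction_on with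
    | empty => simp
    | cons a s ih =>
      rw [Multiset.map_cons, Multiset.prod_cons, ih, Multiset.map_cons, Multiset.sum_cons,
        ← pow_add, mul_add]
  rw [hprodpow] at h2
  -- the valuation of `ℓ`
  have hπ0 : π ≠ 0 := by
    rw [hπ, Valuation.ne_zero_iff]
    intro h0
    have h7 : (ζ : ℂ) = 1 := by
      have : ((ζ - 1 : AI) : ℂ) = (ζ : ℂ) - 1 := by push_cast; ring
      rw [this] at h0
      exact sub_eq_zero.mp h0
    exact hζ.ne_one hℓ.one_lt (Subtype.ext h7)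
  have hπ1 : π < 1 := v_pi hv hζ
  have hvℓ : v ((ℓ : ℂ)) = π ^ (ℓ - 1) := by
    refine le_antisymm (v_ell hv hζ) ?_
    have hprim : (AddChar.zmodChar ℓ hζ.pow_eq_one).IsPrimitive :=
      AddChar.zmodChar_primitive_of_primitive_root ℓ hζ
    have hne : χ1 ≠ 1 := by
      intro h; rw [h, orderOf_one] at hχ1; omega
    have h3 := gaussSum_mul_gaussSum_pow_orderOf_sub_one hne hprim
    rw [hχ1] at h3
    have h4 := congrArg (fun z : AI => v (z : ℂ)) h3
    push_cast at h4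
    rw [map_mul, map_mul] at h4
    have hneg : v ((χ1 (-1) : AI) : ℂ) = 1 := by
      apply hv.root (n := 2) (by norm_num)
      rw [← map_pow]
      have : ((-1 : ZMod ℓ)) ^ 2 = 1 := by ring
      rw [this, MulChar.map_one]
    rw [hneg, one_mul, ZMod.card, v_gauss_one hv hζ hχ1 hχφ hℓ3, show ℓ - 1 - 1 = ℓ - 2 by omega,
      v_gauss hv hζ hχ1 hχφ hℓ3 (ℓ - 2) (by omega) le_rfl, ← pow_succ',
      show ℓ - 2 + 1 = ℓ - 1 by omega] at h4
    exact h4.le
  rw [hvℓ, ← pow_mul, ← pow_mul, ← pow_mul] at h2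
  have h3 := pow_right_injective₀ (zero_lt_iff.mpr hπ0) hπ1.ne h2
  obtain ⟨c, hcard⟩ := heven
  rw [hcard, show (c + c) / 2 = c by omega, he] at h3
  have h4 : (s.map fun z => ((t : ZMod m) * z).val).sum = m * c := by
    have h5 : (e * (s.map fun z => ((t : ZMod m) * z).val).sum) = (m * e * c) :=
      Nat.eq_of_mul_eq_mul_right (NeZero.pos R) (h3.trans (by ring))
    have : e * (s.map fun z => ((t : ZMod m) * z).val).sum = e * (m * c) := by
      rw [h5]; ring
    exact Nat.eq_of_mul_eq_mul_left he0 this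
  rw [h4, hcard]; ring

end Run7.h365.TD
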