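import Pool.Agent.Run7.h365.FV.Hk

/-!
# The Hecke characters given by the Jacobi sums modulo a prime
-/

set_option autoImplicit false
set_option linter.unusedSectionVars false

namespace Run7.h365.TD

open Finset NumberField IsDedekindDomain UniqueFactorizationMonoid
open Run7.h365.FV
open Pool.Agent.N172.HS (IsHecke TotPos arch)

section nrm

variable {F : Type} [Field F] [NumberField F]

/-- the residue characteristic -/
theorem mem_of_dvd {q : ℕ} (hq : q.Prime) (v : HeightOneSpectrum (𝓞 F))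
    (h : q ∣ Ideal.absNorm v.asIdeal) : (q : 𝓞 F) ∈ v.asIdeal := by
  obtain ⟨κ, _, _, _, φ, hφ, hker, hcard⟩ := exists_model v
  obtain ⟨p, hp⟩ := CharP.exists κ
  obtain ⟨f, hp', hf⟩ := FiniteField.card κ p
  rw [← hcard, hf] at h
  have h1 : q = p := (Nat.prime_dvd_prime_iff_eq hq hp').1 (hq.dvd_of_dvd_pow h)
  rw [← hker, RingHom.mem_ker, map_natCast, h1]
  exact CharP.cast_eq_zero κ p

theorem coprime_of_isCoprime {q : ℕ} (hq : q.Prime) {I : Ideal (𝓞 F)} (hI : I ≠ 0)
    (h : IsCoprime I (Ideal.span {(q : 𝓞 F)})) : (Ideal.absNorm I).Coprime q := by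
  rw [Nat.coprime_comm, Nat.Prime.coprime_iff_not_dvd hq]
  intro hd
  have h1 : Ideal.absNorm I = ((normalizedFactors I).map fun J => Ideal.absNorm J).prod := by
    conv_lhs => rw [← Ideal.prod_normalizedFactors_eq_self hI]
    rw [map_multiset_prod]
  rw [h1] at hd
  obtain ⟨a, ha, hqa⟩ := hq.prime.exists_mem_multiset_dvd hd
  obtain ⟨J, hJ, rfl⟩ := Multiset.mem_map.1 ha
  obtain ⟨v, rfl, hle⟩ := mem_factors hJ
  have h2 := mem_of_dvd hq v hqa
  rw [Ideal.isCoprime_iff_sup_eq] at h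
  apply v.isPrime.ne_top
  rw [eq_top_iff, ← h]
  exact sup_le hle ((Ideal.span_singleton_le_iff_mem _).2 h2)

theorem isCoprime_of_coprime {q : ℕ} {I : Ideal (𝓞 F)}
    (h : (Ideal.absNorm I).Coprime q) : IsCoprime I (Ideal.span {(q : 𝓞 F)}) := by
  rw [Ideal.isCoprime_iff_sup_eq, Ideal.eq_top_iff_one]
  obtain ⟨a, b, hab⟩ := Nat.isCoprime_iff_coprime.2 h
  have h3 : ((a * (Ideal.absNorm I : ℕ) + b * (q : ℕ) : ℤ) : 𝓞 F) = 1 := by
    rw [hab, Int.cast_one]
  rw [← h3]
  push_cast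
  exact add_mem (Ideal.mem_sup_left (I.mul_mem_left _ (Ideal.absNorm_mem I)))
    (Ideal.mem_sup_right (Ideal.mul_mem_left _ _ (Ideal.mem_span_singleton_self _)))

/-- the values of a character -/
theorem norm_mulChar {A : Type} [CommRing A] [Finite A] (χ : MulChar A ℂ) {x : A} (hx : χ x ≠ 0) :
    ‖χ x‖ = 1 := by
  have hu : IsUnit x := by
    by_contra h
    exact hx (χ.map_nonunit h)
  obtain ⟨u, rfl⟩ := hu
  have h1 : χ (u : A) ^ orderOf u = 1 := by
    rw [← map_pow, ← Units.val_pow_eq_pow_val, pow_orderOf_eq_one, Units.val_one, map_one]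
  exact (pow_eq_one_iff_of_nonneg (norm_nonneg _) (orderOf_pos u).ne').1
    (by rw [← norm_pow, h1, norm_one])

/-- the norm of a totally positive element -/
theorem absNorm_totPos (N : ℕ) [NeZero N] [IsCyclotomicExtension {N} ℚ F] {x : 𝓞 F} (hx : x ≠ 0) (hp : TotPos x) :
    ((Ideal.absNorm (Ideal.span {x}) : ℕ) : 𝓞 F) = ∏ σ : Gal(F/ℚ), act σ x := by
  have hG : IsGalois ℚ F := IsCyclotomicExtension.isGalois {N} ℚ F
  have h1 := Pool.Agent.N172.HS.totPos_norm (F := ℚ) hx hp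
  have h2 := h1 (algebraMap ℚ ℝ)
  rw [Pool.Agent.N172.HS.coe_intNorm] at h2
  have h3 : (0 : ℚ) < Algebra.norm ℚ (x : F) := by
    have : ((0 : ℝ)) < ((Algebra.norm ℚ (x : F) : ℚ) : ℝ) := h2
    exact_mod_cast this
  have h4 : ((Algebra.norm ℤ x : ℤ) : ℚ) = Algebra.norm ℚ (x : F) := Algebra.coe_norm_int x
  have h5 : (0 : ℤ) < Algebra.norm ℤ x := by
    rw [← h4] at h3
    exact_mod_cast h3
  have h6 : ((Ideal.absNorm (Ideal.span {x}) : ℕ) : ℤ) = Algebra.norm ℤ x := by
    rw [Ideal.absNorm_span_singleton, Int.natCast_natAbs, abs_of_pos h5]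
  apply RingOfIntegers.ext
  have h7 : (((Ideal.absNorm (Ideal.span {x}) : ℕ) : 𝓞 F) : F) =
      algebraMap ℚ F (Algebra.norm ℚ (x : F)) := by
    have e1 : (((Ideal.absNorm (Ideal.span {x}) : ℕ) : 𝓞 F) : F) =
        (((Ideal.absNorm (Ideal.span {x}) : ℕ) : ℤ) : F) := by
      rw [Int.cast_natCast]
      exact map_natCast (algebraMap (𝓞 F) F) _
    rw [e1, h6, ← h4]
    simp
  rw [h7, Algebra.norm_eq_prod_automorphisms]
  symm
  change algebraMap (𝓞 F) F _ = _
  rw [map_prod]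
  rfl

end nrm

section

variable {F : Type} [Field F] [NumberField F] {N n : ℕ} [NeZero N]
variable {k : Type} [Field k] {Q : ℕ}

/-- the character -/
noncomputable def psq (b : Fin n → ZMod N) (ρ : 𝓞 F →+* k) (R : ℕ) [NeZero R]
    (ω : MulChar (ZMod Q) ℂ) (θ : MulChar k ℂ) : Ideal (𝓞 F) →*₀ ℂ where
  toFun I := ω ((Ideal.absNorm I : ℕ) : ZMod Q) * θ (ρ (PI N b I)) ^ R
  map_zero' := by
    rw [map_zero (PI N b), map_zero ρ, MulChar.map_zero, zero_pow (NeZero.ne R), mul_zero]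
  map_one' := by
    rw [map_one, map_one (PI N b), map_one ρ, map_one, one_pow, Nat.cast_one, map_one, mul_one]
  map_mul' I J := by
    rw [map_mul, map_mul (PI N b), map_mul ρ, map_mul θ, Nat.cast_mul, map_mul ω, mul_pow]
    ring

theorem psq_apply (b : Fin n → ZMod N) (ρ : 𝓞 F →+* k) (R : ℕ) [NeZero R]
    (ω : MulChar (ZMod Q) ℂ) (θ : MulChar k ℂ) (I : Ideal (𝓞 F)) :
    psq b ρ R ω θ I = ω ((Ideal.absNorm I : ℕ) : ZMod Q) * θ (ρ (PI N b I)) ^ R := rfl

end

section heck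

variable {F : Type} [Field F] [NumberField F] {N n : ℕ} [NeZero N]
  [IsCyclotomicExtension {N} ℚ F] {ζ : 𝓞 F}
variable {k : Type} [Field k] [Finite k] {q e : ℕ} [Fact q.Prime] [CharP k q]

/-- the Jacobi sums modulo the prime do not vanish -/
theorem rho_PI_ne (hζ : IsPrimitiveRoot ζ N) (ρ : 𝓞 F →+* k) {I : Ideal (𝓞 F)} (hI : I ≠ 0)
    (hc : Cop N I) (hq : (Ideal.absNorm I).Coprime q) (b : Fin n → ZMod N) :
    ρ (PI N b I) ≠ 0 := by
  rw [PI_eq b hI, map_multiset_prod, Multiset.map_map, Ne, Multiset.prod_eq_zero_iff,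
    Multiset.mem_map]
  rintro ⟨J, hJ, h0⟩
  obtain ⟨v, rfl, -⟩ := mem_factors hJ
  simp only [Function.comp_apply] at h0
  rw [PI_prime b v (hc _ hJ)] at h0
  have h1 := congrArg ρ (Pv_mul_neg hζ v (hc _ hJ) b)
  rw [map_mul, h0, zero_mul, map_pow, map_natCast] at h1
  have h2 : (Ideal.absNorm v.asIdeal : k) = 0 := by
    by_contra h3
    exact pow_ne_zero _ h3 h1.symm
  rw [CharP.cast_eq_zero_iff k q] at h2
  have h3 : Ideal.absNorm v.asIdeal ∣ Ideal.absNorm I :=
    map_dvd Ideal.absNorm (dvd_of_mem_normalizedFactors hJ)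
  have h4 : q ∣ Ideal.absNorm I := h2.trans h3
  exact (Nat.Prime.coprime_iff_not_dvd (Fact.out : q.Prime)).1 hq.symm h4

/-- **The Hecke characters modulo a prime.** -/
theorem isHecke_psq (hζ : IsPrimitiveRoot ζ N) (hn : 2 ≤ n) (hodd : Odd n) (he : e ≠ 0)
    (b : Fin n → ZMod N) (ρ : 𝓞 F →+* k) (R : ℕ) [NeZero R]
    (ω : MulChar (ZMod (q ^ e)) ℂ) (θ : MulChar k ℂ) :
    IsHecke (Ideal.span {(N : 𝓞 F) ^ n * (q : 𝓞 F) ^ e}) (fun _ => 0) (fun _ => 0)
      (psq b ρ R ω θ) where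
  ne_bot := by
    rw [Ne, Ideal.span_singleton_eq_bot]
    exact mul_ne_zero (pow_ne_zero _ (by exact_mod_cast NeZero.ne N))
      (pow_ne_zero _ (by exact_mod_cast (Fact.out : q.Prime).ne_zero))
  supp I hI := by
    have hI' : I ≠ 0 := hI
    have hqp : q.Prime := Fact.out
    have hNe : NeZero (q ^ e) := ⟨pow_ne_zero _ hqp.ne_zero⟩
    rw [psq_apply, ← Ideal.span_singleton_mul_span_singleton, IsCoprime.mul_right_iff,
      ← cop_iff hI' (by omega), ← Ideal.span_singleton_pow,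
      IsCoprime.pow_right_iff (Nat.pos_of_ne_zero he)]
    constructor
    · intro h
      have h1 : ω ((Ideal.absNorm I : ℕ) : ZMod (q ^ e)) ≠ 0 := left_ne_zero_of_mul h
      have h2 : θ (ρ (PI N b I)) ≠ 0 := by
        intro h3
        apply h
        rw [h3, zero_pow (NeZero.ne R), mul_zero]
      refine ⟨?_, ?_⟩
      · rw [← PI_ne_iff hζ hI' b]
        intro h3
        apply h2
        rw [h3, map_zero, MulChar.map_zero]
      · apply isCoprime_of_coprime
        have h3 : IsUnit ((Ideal.absNorm I : ℕ) : ZMod (q ^ e)) := by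
          by_contra h4
          exact h1 (ω.map_nonunit h4)
        rw [ZMod.isUnit_iff_coprime] at h3
        exact Nat.Coprime.coprime_dvd_right (dvd_pow_self q he) h3
    · rintro ⟨h1, h2⟩
      have h3 := coprime_of_isCoprime hqp hI' h2
      apply mul_ne_zero
      · have h4 : IsUnit ((Ideal.absNorm I : ℕ) : ZMod (q ^ e)) :=
          (ZMod.isUnit_iff_coprime _ _).2 (h3.pow_right e)
        exact (h4.map ω).ne_zero
      · apply pow_ne_zero
        have h4 : IsUnit (ρ (PI N b I)) := isUnit_iff_ne_zero.2 (rho_PI_ne hζ ρ hI' h1 h3 b)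
        exact (h4.map θ).ne_zero
  unit I hI := by
    have hNe : NeZero (q ^ e) := ⟨pow_ne_zero _ (Fact.out : q.Prime).ne_zero⟩
    rw [psq_apply] at hI ⊢
    have h2 : θ (ρ (PI N b I)) ≠ 0 := by
      intro h3
      apply hI
      rw [h3, zero_pow (NeZero.ne R), mul_zero]
    rw [norm_mul, norm_pow, norm_mulChar ω (left_ne_zero_of_mul hI), norm_mulChar θ h2, one_pow,
      mul_one]
  ray x hx hx1 hxp := by
    have hNe : NeZero (q ^ e) := ⟨pow_ne_zero _ (Fact.out : q.Prime).ne_zero⟩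
    have harch : arch (fun _ => 0) (fun _ => 0) (x : F) = 1 := by
      unfold arch
      simp
    obtain ⟨y, hy⟩ := Ideal.mem_span_singleton.1 hx1
    have h1 : x - 1 ∈ Ideal.span {(N : 𝓞 F) ^ n} := by
      rw [hy, mul_assoc]
      exact Ideal.mul_mem_right _ _ (Ideal.mem_span_singleton_self _)
    -- the conjugates
    have h2 : ∀ σ : Gal(F/ℚ), act σ x = 1 + (q : 𝓞 F) ^ e * ((N : 𝓞 F) ^ n * act σ y) := by
      intro σ
      have h3 := congrArg (act σ) hy
      rw [map_sub, map_one, map_mul, map_mul, map_pow, map_pow, map_natCast, map_natCast] at h3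
      linear_combination h3
    rw [harch, psq_apply, weil hζ hn hodd hx h1]
    have h4 : ρ (AA N x b) = 1 := by
      unfold AA
      rw [map_prod]
      refine prod_eq_one fun σ _ => ?_
      rw [h2, map_pow, map_add, map_one, map_mul, map_pow, map_natCast, CharP.cast_eq_zero,
        zero_pow he, zero_mul, add_zero, one_pow]
    rw [h4, map_one, one_pow, mul_one]
    -- the norm
    have h5 : ((Ideal.absNorm (Ideal.span {x}) : ℕ) : ZMod (q ^ e)) = 1 := by
      obtain ⟨z, -, hz⟩ := Pool.Agent.N172.HS.prod_one_add (univ : Finset Gal(F/ℚ))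
        (⊤ : Subring (𝓞 F)) (c := (q : 𝓞 F) ^ e) (Subring.mem_top _)
        (fun σ => (N : 𝓞 F) ^ n * act σ y) (fun _ _ => Subring.mem_top _)
      have h6 : ((Ideal.absNorm (Ideal.span {x}) : ℕ) : 𝓞 F) = 1 + (q : 𝓞 F) ^ e * z := by
        rw [absNorm_totPos N hx hxp, ← hz]
        exact prod_congr rfl fun σ _ => h2 σ
      set A : ℕ := Ideal.absNorm (Ideal.span {x}) with hA
      have hq0 : (q : F) ≠ 0 := by exact_mod_cast (Fact.out : q.Prime).ne_zero
      have hqe : (q : F) ^ e ≠ 0 := pow_ne_zero _ hq0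
      have h7 : ((A : ℤ) - 1 : ℤ) = (A : ℤ) - 1 := rfl
      -- the quotient is a rational integer
      have h8 : ((z : 𝓞 F) : F) = algebraMap ℚ F (((A : ℚ) - 1) / (q : ℚ) ^ e) := by
        have h9 : ((A : F)) = 1 + (q : F) ^ e * (z : F) := by
          have h10 := congrArg (algebraMap (𝓞 F) F) h6
          rw [map_natCast, map_add, map_one, map_mul, map_pow, map_natCast] at h10
          exact h10
        rw [map_div₀, map_sub, map_natCast, map_one, map_pow, map_natCast, eq_div_iff hqe, h9]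
        ring
      have h9 : IsIntegral ℤ (((A : ℚ) - 1) / (q : ℚ) ^ e) := by
        have h10 : IsIntegral ℤ (algebraMap ℚ F (((A : ℚ) - 1) / (q : ℚ) ^ e)) := by
          rw [← h8]; exact RingOfIntegers.isIntegral_coe z
        exact (isIntegral_algHom_iff (algebraMap ℚ F).toIntAlgHom (algebraMap ℚ F).injective).1 h10
      obtain ⟨V, hV⟩ := (IsIntegrallyClosed.isIntegral_iff (R := ℤ) (K := ℚ)).1 h9
      have hqQ : (q : ℚ) ^ e ≠ 0 := pow_ne_zero _ (by exact_mod_cast (Fact.out : q.Prime).ne_zero)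
      have h10 : (A : ℤ) - 1 = (q : ℤ) ^ e * V := by
        rw [eq_div_iff hqQ] at hV
        have h11 : ((V : ℚ)) * (q : ℚ) ^ e = (A : ℚ) - 1 := hV
        have h12 : (((q : ℤ) ^ e * V : ℤ) : ℚ) = (((A : ℤ) - 1 : ℤ) : ℚ) := by
          push_cast
          linarith
        exact_mod_cast h12.symm
      have h11 : (((A : ℤ) - 1 : ℤ) : ZMod (q ^ e)) = 0 := by
        rw [ZMod.intCast_zmod_eq_zero_iff_dvd]
        exact ⟨V, by rw [h10]; push_cast; rfl⟩
      push_cast at h11
      rwa [sub_eq_zero] at h11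
    rw [h5, map_one]

end heck

end Run7.h365.TD
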