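import Pool.Agent.Run7.h365.TD.Ari
import Pool.Agent.Run7.h365.FV.Lev

/-!
# Raising the level
-/

set_option autoImplicit false
set_option linter.unusedSectionVars false

namespace Run7.h365.TD

open Finset NumberField
open Run7.h365.FV

section emb

variable {M k n : ℕ} [NeZero M]

theorem emb_natCast (a : ℕ) : emb M k (a : ZMod M) = ((k * a : ℕ) : ZMod (M * k)) := by
  rw [emb_apply, ZMod.val_natCast, ZMod.natCast_eq_natCast_iff, Nat.mul_comm M k]
  exact (Nat.mod_modEq a M).mul_left' k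

theorem val_emb [NeZero k] (y : ZMod M) : (emb M k y).val = k * y.val := by
  rw [emb_apply, ZMod.val_natCast, Nat.mod_eq_of_lt]
  rw [Nat.mul_comm M k]
  exact Nat.mul_lt_mul_of_pos_left (ZMod.val_lt y) (NeZero.pos k)

theorem mul_emb [NeZero k] (c : ZMod (M * k)) (y : ZMod M) :
    c * emb M k y = emb M k (ZMod.castHom (dvd_mul_right M k) (ZMod M) c * y) := by
  have : NeZero (M * k) := ⟨mul_ne_zero (NeZero.ne M) (NeZero.ne k)⟩
  have h1 : c = ((c.val : ℕ) : ZMod (M * k)) := (ZMod.natCast_zmod_val c).symm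
  have h2 : y = ((y.val : ℕ) : ZMod M) := (ZMod.natCast_zmod_val y).symm
  rw [h1, h2, map_natCast (ZMod.castHom (dvd_mul_right M k) (ZMod M)), emb_natCast,
    ← Nat.cast_mul, ← Nat.cast_mul, emb_natCast]
  congr 1
  ring

theorem wt_emb [NeZero k] (c : ZMod (M * k)) (y : Fin n → ZMod M) :
    wt c (fun i => emb M k (y i)) = k * wt (ZMod.castHom (dvd_mul_right M k) (ZMod M) c) y := by
  unfold wt
  rw [← map_sum, ← map_neg, mul_emb, val_emb, mul_add, mul_sum]
  congr 1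
  refine sum_congr rfl fun i _ => ?_
  rw [mul_emb, val_emb]

theorem SS_emb [NeZero k] (q f : ℕ) (c : ZMod (M * k)) (y : Fin n → ZMod M) :
    SS q f (fun i => emb M k (y i)) c =
      (k : ℤ) * SS q f y (ZMod.castHom (dvd_mul_right M k) (ZMod M) c) := by
  unfold SS
  rw [mul_sum]
  refine sum_congr rfl fun j _ => ?_
  rw [wt_emb, map_mul, map_pow, map_natCast]
  push_cast
  ring

theorem SS_mul_pow (q f : ℕ) (t : ZMod M) (c : ZMod M) (y : Fin n → ZMod M) :
    SS q f (fun i => t * y i) c = SS q f y (c * t) := by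
  unfold SS
  refine sum_congr rfl fun j _ => ?_
  congr 2
  unfold wt
  congr 1
  · congr 1
    rw [← mul_sum]; ring
  · refine sum_congr rfl fun i _ => ?_
    congr 1
    ring

theorem SS_mul {q f : ℕ} (hf : (q : ZMod M) ^ f = 1) (g : ℕ) (y : Fin n → ZMod M) (c : ZMod M) :
    SS q (f * g) y c = (∑ i ∈ range g, ((q : ℤ) ^ f) ^ i) * SS q f y c := by
  induction g with
  | zero => simp [SS]
  | succ g ih =>
    rw [sum_range_succ, add_mul, ← ih]
    unfold SS
    rw [mul_add_one, sum_range_add]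
    congr 1
    · refine sum_congr rfl fun j hj => ?_
      have hj' := mem_range.1 hj
      have h1 : f * g + f - j = (f * g - j) + f := by omega
      rw [h1, pow_add, hf, mul_one]
    · rw [mul_sum]
      refine sum_congr rfl fun j hj => ?_
      have hj' := mem_range.1 hj
      have h1 : f * g + f - (f * g + j) = f - j := by omega
      rw [h1, pow_add, pow_mul]
      ring

end emb

/-- **The divisibility for a tuple, with a condition on the primes.** -/
theorem arith_tupleB {m M q e n R N B : ℕ} [NeZero m] [NeZero M] [NeZero R] [hB : NeZero B]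
    [hq : Fact q.Prime] (hqM : q.Coprime M) (he : 0 < e) (hm : M * q ^ e = m) (hM : M ∣ m)
    (hn : 2 ≤ n) (hodd : Odd n) {b : Fin n → ZMod m}
    (hR : ∀ ℓ : ℕ, N < ℓ → ∀ [Fact ℓ.Prime], m * B ∣ ℓ - 1 → ∀ χ : MulChar (ZMod ℓ) ℂ,
      orderOf χ = m → PP χ b ^ R = ((ℓ : ℂ) ^ ((n + 1) / 2)) ^ R) (w : (ZMod M)ˣ) :
    (M : ℤ) * ((q : ℤ) ^ orderOf (q : ZMod M) - 1) ∣
      (R : ℤ) * (SS q (orderOf (q : ZMod M)) (fun i => ZMod.castHom hM (ZMod M) (b i)) (w : ZMod M) -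
        SS q (orderOf (q : ZMod M)) (fun i => ZMod.castHom hM (ZMod M) (b i)) 1) := by
  classical
  obtain ⟨k, B', hB', hBk⟩ := Nat.exists_eq_pow_mul_and_not_dvd (NeZero.ne B) q hq.out.ne_one
  have hB'0 : NeZero B' := ⟨by rintro rfl; exact hB' (dvd_zero q)⟩
  have hmB : NeZero (m * B) := ⟨mul_ne_zero (NeZero.ne m) (NeZero.ne B)⟩
  have hMB : NeZero (M * B') := ⟨mul_ne_zero (NeZero.ne M) (NeZero.ne B')⟩
  have hqB' : q.Coprime B' := (Nat.Prime.coprime_iff_not_dvd hq.out).2 hB'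
  have hqMB : q.Coprime (M * B') := Nat.Coprime.mul_right hqM hqB'
  have hm' : (M * B') * q ^ (e + k) = m * B := by rw [hBk, ← hm, pow_add]; ring
  have hMm' : (M * B') ∣ m * B := Dvd.intro _ hm'
  set x : Fin n → ZMod M := fun i => ZMod.castHom hM (ZMod M) (b i) with hx
  -- the hypothesis on the level `m B`
  have hR' : ∀ ℓ : ℕ, N < ℓ → ∀ [Fact ℓ.Prime], m * B ∣ ℓ - 1 → ∀ χ : MulChar (ZMod ℓ) ℂ,
      orderOf χ = m * B → PP χ (fun i => emb m B (b i)) ^ R = ((ℓ : ℂ) ^ ((n + 1) / 2)) ^ R := by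
    intro ℓ hℓ _ hd χ hχ
    rw [PP_emb (NeZero.ne B) hχ]
    refine hR ℓ hℓ hd (χ ^ B) ?_
    rw [orderOf_pow_of_dvd (NeZero.ne B) (by rw [hχ]; exact dvd_mul_left B m), hχ,
      Nat.mul_div_cancel _ (NeZero.pos B)]
  have hcast : ∀ i, ZMod.castHom hMm' (ZMod (M * B')) (emb m B (b i)) =
      emb M B' ((q : ZMod M) ^ k * x i) := by
    intro i
    have h1 : x i = (((b i).val : ℕ) : ZMod M) := by
      simp only [hx]
      conv_lhs => rw [← ZMod.natCast_zmod_val (b i)]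
      rw [map_natCast]
    rw [h1, emb_apply, map_natCast, ← Nat.cast_pow, ← Nat.cast_mul, emb_natCast, hBk]
    congr 1
    ring
  set f := orderOf (q : ZMod M) with hf
  set f' := orderOf (q : ZMod (M * B')) with hf'
  obtain ⟨g, hg⟩ : f ∣ f' := orderOf_dvd_of_pow_eq_one
    (pow_order_low (M := M * B') (M0 := M) (dvd_mul_right M B'))
  set G : ℤ := ∑ i ∈ range g, ((q : ℤ) ^ f) ^ i with hG
  have hGD : (q : ℤ) ^ f' - 1 = G * ((q : ℤ) ^ f - 1) := by
    rw [hg, pow_mul, hG, geom_sum_mul]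
  have hD' := D_ne (M := M * B') hq.out hqMB
  rw [← hf', hGD] at hD'
  have hG0 : G ≠ 0 := left_ne_zero_of_mul hD'
  have key : ∀ c : (ZMod M)ˣ, (M : ℤ) * ((q : ℤ) ^ f - 1) ∣
      (R : ℤ) * (SS q f x ((c : ZMod M) * (q : ZMod M) ^ k) - SS q f x ((q : ZMod M) ^ k)) := by
    intro c
    obtain ⟨c', hc'⟩ := ZMod.unitsMap_surjective (dvd_mul_right M B') c
    have hcc : ZMod.castHom (dvd_mul_right M B') (ZMod M) (c' : ZMod (M * B')) = c := by
      have h1 := congrArg Units.val hc'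
      rw [ZMod.unitsMap_val] at h1
      exact h1
    have h1 := arith_tuple hqMB (by omega : 0 < e + k) hm' hMm' hn hodd hR' c'
    simp only [hcast] at h1
    rw [SS_emb, SS_emb, hcc, map_one, ← hf', SS_mul_pow, SS_mul_pow, one_mul] at h1
    rw [hGD] at h1
    rw [hg, SS_mul pow_order, SS_mul pow_order, ← hG] at h1
    have h2 : ((M * B' : ℕ) : ℤ) * (G * ((q : ℤ) ^ f - 1)) =
        ((B' : ℤ) * G) * ((M : ℤ) * ((q : ℤ) ^ f - 1)) := by push_cast; ring
    have h3 : (R : ℤ) * ((B' : ℤ) * (G * SS q f x ((c : ZMod M) * (q : ZMod M) ^ k)) -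
        (B' : ℤ) * (G * SS q f x ((q : ZMod M) ^ k))) =
        ((B' : ℤ) * G) * ((R : ℤ) * (SS q f x ((c : ZMod M) * (q : ZMod M) ^ k) -
          SS q f x ((q : ZMod M) ^ k))) := by ring
    rw [h2, h3] at h1
    exact (mul_dvd_mul_iff_left (mul_ne_zero (by exact_mod_cast NeZero.ne B') hG0)).1 h1
  set Q : (ZMod M)ˣ := ZMod.unitOfCoprime q hqM with hQ
  have hQc : (Q : ZMod M) = (q : ZMod M) := ZMod.coe_unitOfCoprime q hqM
  have h1 := key (w * (Q ^ k)⁻¹)
  have h2 := key (Q ^ k)⁻¹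
  have e1 : (((w * (Q ^ k)⁻¹ : (ZMod M)ˣ) : ZMod M)) * (q : ZMod M) ^ k = (w : ZMod M) := by
    rw [← hQc, ← Units.val_pow_eq_pow_val, ← Units.val_mul, inv_mul_cancel_right]
  have e2 : ((((Q ^ k)⁻¹ : (ZMod M)ˣ) : ZMod M)) * (q : ZMod M) ^ k = 1 := by
    rw [← hQc, ← Units.val_pow_eq_pow_val, ← Units.val_mul, inv_mul_cancel, Units.val_one]
  rw [e1] at h1
  rw [e2] at h2
  have h3 := dvd_sub h1 h2
  have h4 : (R : ℤ) * (SS q f x (w : ZMod M) - SS q f x ((q : ZMod M) ^ k)) -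
      (R : ℤ) * (SS q f x 1 - SS q f x ((q : ZMod M) ^ k)) =
      (R : ℤ) * (SS q f x (w : ZMod M) - SS q f x 1) := by ring
  rw [h4] at h3
  exact h3

/-- **The arithmetic condition.** -/
theorem ar_of {m n R N B : ℕ} [NeZero m] [NeZero R] [NeZero B] (hn : 2 ≤ n) (hodd : Odd n)
    {b : Fin n → ZMod m}
    (hR : ∀ ℓ : ℕ, N < ℓ → ∀ [Fact ℓ.Prime], m * B ∣ ℓ - 1 → ∀ χ : MulChar (ZMod ℓ) ℂ,
      orderOf χ = m → PP χ b ^ R = ((ℓ : ℂ) ^ ((n + 1) / 2)) ^ R) :
    Ar R m (univ.val.map (full b)) := by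
  intro M q e hM hq hqM hm he w
  have hM0 : NeZero M := ⟨fun h0 => NeZero.ne m (by rw [← hm, h0, Nat.zero_mul])⟩
  have : Fact q.Prime := ⟨hq⟩
  have h1 := arith_tupleB hqM he hm hM hn hodd hR w
  rw [← sum_PH (c := 1) hM b (orderOf (q : ZMod M)) (w := (w : ZMod M)) (h := vd (w : ZMod M))
    (by intro x; rw [Nat.cast_one, one_mul]), Nat.cast_one, one_mul] at h1
  exact h1

end Run7.h365.TD
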