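import Pool.Agent.Run7.h365.TD.Dst

/-!
# The structure of the relations with two and three odd prime factors
-/

set_option autoImplicit false
set_option linter.unusedSectionVars false

namespace Run7.h365.TD

open Finset Pool.Agent.H916K Pool.Agent.H916R2

/-- The condition given by the Gauss sums modulo the primes of the degree. -/
def Ar (d m : ℕ) (s : Multiset (ZMod m)) : Prop :=
  ∀ (M q e : ℕ) (hM : M ∣ m), q.Prime → q.Coprime M → M * q ^ e = m → 0 < e → ∀ w : (ZMod M)ˣ,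
    (M : ℤ) * ((q : ℤ) ^ orderOf (q : ZMod M) - 1) ∣ (d : ℤ) *
      (s.map fun a => PH q (orderOf (q : ZMod M)) (vd (w : ZMod M)) (ZMod.castHom hM (ZMod M) a)).sum

theorem Ar.div {d c m : ℕ} {s : Multiset (ZMod m)} (hA : Ar d m s) {M q e : ℕ} (hM : M ∣ m)
    (hq : q.Prime) (hqM : q.Coprime M) (hm : M * q ^ e = m) (he : 0 < e) (hc : c ≠ 0) (hcM : c ∣ M)
    (w : (ZMod M)ˣ) {h : ZMod M → ℤ} (hh : ∀ x, (c : ℤ) * h x = (d : ℤ) * vd (w : ZMod M) x) :
    ((q : ℤ) ^ orderOf (q : ZMod M) - 1) ∣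
      (s.map fun a => PH q (orderOf (q : ZMod M)) h (ZMod.castHom hM (ZMod M) a)).sum := by
  have h1 := hA M q e hM hq hqM hm he w
  have h2 : (d : ℤ) * (s.map fun a => PH q (orderOf (q : ZMod M)) (vd (w : ZMod M))
        (ZMod.castHom hM (ZMod M) a)).sum =
      (c : ℤ) * (s.map fun a => PH q (orderOf (q : ZMod M)) h (ZMod.castHom hM (ZMod M) a)).sum := by
    rw [← Multiset.sum_map_mul_left, ← Multiset.sum_map_mul_left]
    congr 1
    refine Multiset.map_congr rfl fun a _ => ?_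
    unfold PH
    rw [mul_sum, mul_sum]
    refine sum_congr rfl fun j _ => ?_
    have h3 := hh ((q : ZMod M) ^ (orderOf (q : ZMod M) - j) * ZMod.castHom hM (ZMod M) a)
    linear_combination (-(q : ℤ) ^ j) * h3
  rw [h2] at h1
  obtain ⟨M', hM'⟩ := hcM
  have h3 : (M : ℤ) = (c : ℤ) * (M' : ℤ) := by rw [← Nat.cast_mul, ← hM']
  rw [h3, mul_assoc] at h1
  exact (dvd_mul_left _ _).trans ((mul_dvd_mul_iff_left (by exact_mod_cast hc : (c : ℤ) ≠ 0)).1 h1)

/-- halving -/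
theorem exists_h {M c : ℕ} [NeZero M] (hc : c = 1 ∨ c = 2) (hcM : c ∣ M) (d : ℕ) (w : (ZMod M)ˣ) :
    ∃ h : ZMod M → ℤ, ∀ x, (c : ℤ) * h x = (d : ℤ) * vd (w : ZMod M) x := by
  have key : ∀ x : ZMod M, (c : ℤ) ∣ vd (w : ZMod M) x := by
    intro x
    rcases hc with rfl | rfl
    · simp
    · apply (ZMod.intCast_zmod_eq_zero_iff_dvd _ 2).mp
      unfold vd
      have h1 : ∀ y : ZMod M, ((y.val : ℤ) : ZMod 2) = ZMod.castHom hcM (ZMod 2) y := by
        intro y
        conv_rhs => rw [← ZMod.natCast_zmod_val y]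
        rw [map_natCast]
        push_cast; rfl
      rw [Int.cast_sub, h1, h1, map_mul]
      have h2 : IsUnit (ZMod.castHom hcM (ZMod 2) (w : ZMod M)) := w.isUnit.map _
      have h3 : ∀ z : ZMod 2, IsUnit z → z = 1 := by decide
      rw [h3 _ h2, one_mul, sub_self]
  choose h hh using key
  exact ⟨fun x => (d : ℤ) * h x, fun x => by rw [hh x]; ring⟩

theorem exists_nonsquare {p : ℕ} [Fact p.Prime] (hp2 : p ≠ 2) : ∃ w : ZMod p, ¬ IsSquare w :=
  FiniteField.exists_nonsquare (by rwa [ZMod.ringChar_zmod_n])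

lemma red_pair {m m0 k : ℕ} [NeZero m] [NeZero m0] (hred : Red m m0 k) {Q R : Type}
    [AddCommGroup Q] [AddCommGroup R] {c : ZMod m → Q} (hc : OddDist c) {π : ZMod m → R}
    (hπ : OddDist π) {s : Multiset (ZMod m)} (hs : IsHodge m s) :
    ∃ x0 : ZMod m0 → ℤ, Rel x0 ∧ (s.map c).sum = ∑ b : ZMod m0, x0 b • c (iota k b) ∧
      (s.map π).sum = ∑ b : ZMod m0, x0 b • π (iota k b) := by
  obtain ⟨x0, hx0, he⟩ := hred _ _ (oddDist_prod hc hπ) _ hs.rel
  refine ⟨x0, hx0, ?_, ?_⟩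
  · have h1 := congrArg Prod.fst he
    rw [Prod.fst_sum, Prod.fst_sum] at h1
    simp only [Prod.smul_fst] at h1
    rw [← h1, sum_count]
  · have h1 := congrArg Prod.snd he
    rw [Prod.snd_sum, Prod.snd_sum] at h1
    simp only [Prod.smul_snd] at h1
    rw [← h1, sum_count]

lemma red_quad {m m0 k : ℕ} [NeZero m] [NeZero m0] (hred : Red m m0 k) {Q R1 R2 R3 : Type}
    [AddCommGroup Q] [AddCommGroup R1] [AddCommGroup R2] [AddCommGroup R3] {c : ZMod m → Q}
    (hc : OddDist c) {π1 : ZMod m → R1} {π2 : ZMod m → R2} {π3 : ZMod m → R3}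
    (h1 : OddDist π1) (h2 : OddDist π2) (h3 : OddDist π3)
    {s : Multiset (ZMod m)} (hs : IsHodge m s) :
    ∃ x0 : ZMod m0 → ℤ, Rel x0 ∧ (s.map c).sum = ∑ b : ZMod m0, x0 b • c (iota k b) ∧
      (s.map π1).sum = ∑ b : ZMod m0, x0 b • π1 (iota k b) ∧
      (s.map π2).sum = ∑ b : ZMod m0, x0 b • π2 (iota k b) ∧
      (s.map π3).sum = ∑ b : ZMod m0, x0 b • π3 (iota k b) := by
  obtain ⟨x0, hx0, he⟩ := hred _ _ (oddDist_prod hc (oddDist_prod h1 (oddDist_prod h2 h3))) _ hs.rel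
  have k0 := congrArg Prod.fst he
  have k1 := congrArg (fun z => z.2.1) he
  have k2 := congrArg (fun z => z.2.2.1) he
  have k3 := congrArg (fun z => z.2.2.2) he
  simp only [Prod.fst_sum, Prod.snd_sum, Prod.smul_fst, Prod.smul_snd] at k0 k1 k2 k3
  refine ⟨x0, hx0, ?_, ?_, ?_, ?_⟩
  · rw [← k0, sum_count]
  · rw [← k1, sum_count]
  · rw [← k2, sum_count]
  · rw [← k3, sum_count]

theorem PH_neg {M q f : ℕ} {h : ZMod M → ℤ} (hh : ∀ x, h (-x) = - h x) (x : ZMod M) :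
    PH q f h (-x) = - PH q f h x := by
  unfold PH
  rw [← sum_neg_distrib]
  refine sum_congr rfl fun j _ => ?_
  have h1 : (q : ZMod M) ^ (f - j) * -x = -((q : ZMod M) ^ (f - j) * x) := mul_neg _ _
  rw [h1, hh]
  ring

/-- the number `q ^ f - 1` -/
theorem cast_D {q f : ℕ} (hq : 0 < q) : ((q ^ f - 1 : ℕ) : ℤ) = (q : ℤ) ^ f - 1 := by
  have : 1 ≤ q ^ f := Nat.one_le_pow _ _ hq
  push_cast [Nat.cast_sub this]
  ring

theorem pow_order {M q : ℕ} : (q : ZMod M) ^ orderOf (q : ZMod M) = 1 := pow_orderOf_eq_one _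

theorem D_ne {M q : ℕ} [NeZero M] (hq : q.Prime) (hqM : q.Coprime M) :
    ((q : ℤ) ^ orderOf (q : ZMod M) - 1) ≠ 0 := by
  have h1 : 0 < orderOf (q : ZMod M) := by
    rw [← ZMod.coe_unitOfCoprime q hqM, orderOf_units]
    exact orderOf_pos _
  have h2 : 1 < q ^ orderOf (q : ZMod M) := Nat.one_lt_pow h1.ne' hq.one_lt
  have h3 : (1 : ℤ) < (q : ℤ) ^ orderOf (q : ZMod M) := by exact_mod_cast h2
  omega

theorem pow_order_low {M M0 q : ℕ} (h : M0 ∣ M) : (q : ZMod M0) ^ orderOf (q : ZMod M) = 1 := by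
  have h1 := congrArg (ZMod.castHom h (ZMod M0)) (pow_order (M := M) (q := q))
  rwa [map_pow, map_natCast, map_one] at h1

theorem oddDist_pi {M m q e c d : ℕ} [NeZero M] (hM : M ∣ m) (hq : q.Prime) (hqM : q.Coprime M)
    (hm : M * q ^ e = m) (hc : c ≠ 0) (w : (ZMod M)ˣ) {h : ZMod M → ℤ}
    (hh : ∀ x, (c : ℤ) * h x = (d : ℤ) * vd (w : ZMod M) x) :
    OddDist (lft hM (q ^ orderOf (q : ZMod M) - 1) (PH q (orderOf (q : ZMod M)) h)) := by
  have h1 : OddDist h := oddDist_div (by exact_mod_cast hc) (oddDist_smul (oddDist_vd w) (d : ℤ)) hh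
  refine oddDist_lft hq hqM hm hM (oddDist_PH hqM h1) fun x => ?_
  rw [PH_mul pow_order, cast_D hq.pos]
  exact ⟨h ((q : ZMod M) * x), by ring⟩

theorem sum_pi {M m q : ℕ} (hM : M ∣ m) (hq : q.Prime) {h : ZMod M → ℤ} {s : Multiset (ZMod m)}
    (hd : ((q : ℤ) ^ orderOf (q : ZMod M) - 1) ∣
        (s.map fun a => PH q (orderOf (q : ZMod M)) h (ZMod.castHom hM (ZMod M) a)).sum) :
    (s.map (lft hM (q ^ orderOf (q : ZMod M) - 1) (PH q (orderOf (q : ZMod M)) h))).sum = 0 := by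
  rw [← cast_D hq.pos] at hd
  have h1 := (ZMod.intCast_zmod_eq_zero_iff_dvd _ _).mpr hd
  rw [← h1]
  have h2 : ∀ t : Multiset (ZMod m),
      (t.map (lft hM (q ^ orderOf (q : ZMod M) - 1) (PH q (orderOf (q : ZMod M)) h))).sum =
      (((t.map fun a => PH q (orderOf (q : ZMod M)) h (ZMod.castHom hM (ZMod M) a)).sum : ℤ) :
        ZMod (q ^ orderOf (q : ZMod M) - 1)) := by
    intro t
    induction t using Multiset.induction_on with
    | empty => simp
    | cons a t ih =>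
      rw [Multiset.map_cons, Multiset.sum_cons, ih, Multiset.map_cons, Multiset.sum_cons, Int.cast_add]
      rfl
  exact h2 s

/-- **Structure, two primes.** -/
theorem structure_two {p q : ℕ} [hp : Fact p.Prime] [hq : Fact q.Prime] (hp2 : p ≠ 2)
    (hq2 : q ≠ 2) (hpq : p ≠ q) {a b c d m : ℕ} (ha : 0 < a)
    (hb : 0 < b) (hc : c = 1 ∨ c = 2) (hm : c * (p ^ a * q ^ b) = m) {s : Multiset (ZMod m)}
    (hs : IsHodge m s) (hne : s ≠ 0) (hd : ¬ 2 ∣ d) (hA : Ar d m s) :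
    Generated m (fun _ => False) s := by
  classical
  have hc0 : 0 < c := by rcases hc with rfl | rfl <;> norm_num
  have hm0 : 0 < m := by
    rw [← hm]; have := hp.out.pos; have := hq.out.pos; positivity
  have : NeZero m := ⟨hm0.ne'⟩
  obtain ⟨k, hk, hred⟩ := exists_red_pq hp.out hq.out hp2 hq2 ha hb hc hm
  obtain ⟨M, hMdef⟩ : ∃ M, M = c * p ^ a := ⟨_, rfl⟩
  have hMm : M * q ^ b = m := by rw [hMdef, ← hm]; ring
  have hM : M ∣ m := Dvd.intro _ hMm
  have hM0 : NeZero M := ⟨by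
    rw [hMdef]; have := hp.out.pos; positivity⟩
  have hcop : q.Coprime M := by
    rw [hMdef]
    apply Nat.Coprime.mul_right
    · rcases hc with rfl | rfl
      · exact Nat.coprime_one_right q
      · exact (Nat.coprime_primes hq.out Nat.prime_two).mpr hq2
    · exact ((Nat.coprime_primes hq.out hp.out).mpr (fun h => hpq h.symm)).pow_right a
  have hcM : c ∣ M := by rw [hMdef]; exact dvd_mul_right _ _
  -- the unit
  obtain ⟨ν, hν⟩ := exists_nonsquare (p := p) hp2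
  have hν0 := ne_zero_of_nonsquare hν
  have hpM : p ∣ M := by rw [hMdef]; exact (dvd_pow_self p ha.ne').mul_left c
  obtain ⟨w, hw⟩ := ZMod.unitsMap_surjective hpM (Units.mk0 ν hν0)
  have hw' : ZMod.castHom hpM (ZMod p) (w : ZMod M) = ν := by
    have h1 := congrArg Units.val hw
    rw [ZMod.unitsMap_val] at h1
    exact h1
  obtain ⟨h, hh⟩ := exists_h hc hcM d w
  set f := orderOf (q : ZMod M) with hf
  have hπ := oddDist_pi hM hq.out hcop hMm hc0.ne' w hh
  obtain ⟨x0, hx0, h1, h2⟩ := red_pair hred (cQ_oddDist (base := fun _ => False)) hπ hs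
  rw [sum_pi hM hq.out (hA.div hM hq.out hcop hMm hb hc0.ne' hcM w hh)] at h2
  -- the levels
  obtain ⟨a', rfl⟩ : ∃ a', a = a' + 1 := ⟨a - 1, by omega⟩
  obtain ⟨b', rfl⟩ : ∃ b', b = b' + 1 := ⟨b - 1, by omega⟩
  have hk1 : (c * p ^ a') * p = M := by rw [hMdef]; ring
  have hkk : k = (c * p ^ a') * q ^ b' := by
    apply Nat.eq_of_mul_eq_mul_right (Nat.mul_pos hp.out.pos hq.out.pos)
    rw [hk, ← hm]; ring
  have hpq' : p ∣ p * q := dvd_mul_right p q
  have hlow := fun b => lft_iota (M := M) (M0 := p) (m0 := p * q) (q := q) (e := b') (k := k)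
    (C0 := d * p ^ a') hM hc0.ne' hk1 (by ring) hkk hpq' (w := (w : ZMod M)) (w0 := ν) hw' hh f
    (q ^ f - 1) b hk
  set H : ZMod p → ℤ := fun u => ((d * p ^ a' : ℕ) : ℤ) * PH q f (vd ν) ((q : ZMod p) ^ b' * u) with hH
  have hfp : (q : ZMod p) ^ f = 1 := pow_order_low hpM
  have hqp := pq_ne (p := p) (q := q) hpq
  have hsum : ((q : ℤ) ^ f - 1) ∣ ∑ u, ∑ v, two hpq x0 u v * H u := by
    rw [← cast_D hq.out.pos]
    apply (ZMod.intCast_zmod_eq_zero_iff_dvd _ _).mp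
    rw [h2]
    rw [sum_two hpq (fun b => x0 b • lft hM (q ^ f - 1) (PH q f h) (iota k b))]
    push_cast
    refine sum_congr rfl fun u _ => sum_congr rfl fun v _ => ?_
    simp only [two]
    rw [hlow, zsmul_eq_mul]
    have h3 : ZMod.castHom hpq' (ZMod p) ((ee hpq).symm (u, v)) = u := by
      have h4 : ∀ z : ZMod (p * q), ZMod.castHom hpq' (ZMod p) z = (ee hpq z).1 := by
        intro z
        conv_lhs => rw [← ZMod.natCast_zmod_val z]
        conv_rhs => rw [← ZMod.natCast_zmod_val z]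
        rw [map_natCast, ee_natCast]
      rw [h4, RingEquiv.apply_symm_apply]
    rw [h3]
  have hneg : ∀ u, H (-u) = - H u := by
    intro u
    simp only [hH]
    have h4 : (q : ZMod p) ^ b' * -u = -((q : ZMod p) ^ b' * u) := mul_neg _ _
    rw [h4, PH_neg (vd_neg hν0), mul_neg]
  have hpodd : ¬ (2 : ℤ) ∣ ((d * p ^ a' : ℕ) : ℤ) := by
    intro h3
    have h4 : 2 ∣ d * p ^ a' := by exact_mod_cast h3
    have h5 : Odd (p ^ a') := (hp.out.odd_of_ne_two hp2).pow
    have h6 : Odd d := Nat.not_even_iff_odd.1 fun h => hd (even_iff_two_dvd.1 h)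
    exact (Nat.not_even_iff_odd.2 (h6.mul h5)) (even_iff_two_dvd.2 h4)
  rw [sum_two hpq] at h1
  have h6 := two_even hp2 hq2 hpq (rel_two hpq hx0) (D_ne hq.out hcop) hneg hν
    (k := (q : ZMod p) ^ (b' + 1)) (pow_ne_zero _ hqp) hpodd (by
      intro u
      simp only [hH]
      have h7 : (q : ZMod p) ^ b' * ((q : ZMod p) * u) = (q : ZMod p) * ((q : ZMod p) ^ b' * u) := by
        ring
      rw [h7, PH_mul hfp, pow_succ]
      have h8 : (q : ZMod p) * ((q : ZMod p) ^ b' * u) = (q : ZMod p) ^ b' * (q : ZMod p) * u := by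
        ring
      rw [h8]
      ring) hsum (two_d2 hpq (cQ_oddDist (base := fun _ => False).comp_iota hk))
  have h9 : ∑ u, ∑ v, two hpq (fun b => x0 b • cQ m (fun _ => False) (iota k b)) u v = 0 := h6
  rw [h9, cQ_sum, QuotientAddGroup.eq_zero_iff] at h1
  exact generated_of_mem_LL (fun _ h => h.elim) (fun _ h => h.elim) hs.1 hs.2.1 hne h1

end Run7.h365.TD
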